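import Mathlib

-- part Pool.Agent.Lib.MP_a964b6_mp.Herm
section

/-! One-dimensional Hermite polynomials and the standard Gaussian. -/

namespace Pool.Agent.Lib.MP_a964b6_mp

open MeasureTheory ProbabilityTheory Polynomial Set Filter Topology

noncomputable abbrev g1 : Measure ℝ := gaussianReal 0 1

noncomputable abbrev pdf1 (x : ℝ) : ℝ := gaussianPDFReal 0 1 x

noncomputable def He : ℕ → ℝ[X]
  | 0 => 1
  | n + 1 => X * He n - derivative (He n)

lemma He_zero : He 0 = 1 := rfl

lemma He_succ (n : ℕ) : He (n + 1) = X * He n - derivative (He n) := rfl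

lemma deriv_He (n : ℕ) : derivative (He (n + 1)) = C ((n : ℝ) + 1) * He n := by
  induction n with
  | zero => simp [He_succ, He_zero]
  | succ n ih =>
    rw [He_succ (n + 1), derivative_sub, derivative_mul, derivative_X, ih, derivative_mul,
      derivative_C]
    rw [He_succ n]
    simp only [Nat.cast_add, Nat.cast_one, map_add, map_one, map_natCast]
    ring

lemma int_poly (q : ℝ[X]) : Integrable (fun x => q.eval x) g1 := by
  induction q using Polynomial.induction_on' with
  | add p q hp hq => simp only [eval_add]; exact hp.add hq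
  | monomial n a =>
    simp only [eval_monomial]
    refine Integrable.const_mul ?_ a
    exact integrable_pow_of_mem_interior_integrableExpSet (X := fun x : ℝ => x) (by simp) n

lemma int_iff {f : ℝ → ℝ} : Integrable f g1 ↔ Integrable (fun x => pdf1 x * f x) := by
  rw [g1, gaussianReal_of_var_ne_zero _ one_ne_zero,
    integrable_withDensity_iff_integrable_smul' (measurable_gaussianPDF _ _)
      (ae_of_all _ fun _ => gaussianPDF_lt_top)]
  simp

lemma integral_g1 (f : ℝ → ℝ) : ∫ x, f x ∂g1 = ∫ x, pdf1 x * f x := by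
  rw [integral_gaussianReal_eq_integral_smul one_ne_zero]
  simp

lemma pdf1_deriv (x : ℝ) : HasDerivAt pdf1 (-x * pdf1 x) x := by
  have h : HasDerivAt (fun x : ℝ => -(x - 0) ^ 2 / (2 * ((1 : NNReal) : ℝ))) (-x) x := by
    have := (((hasDerivAt_id x).sub_const 0).pow 2).neg.div_const (2 * ((1 : NNReal) : ℝ))
    exact this.congr_deriv (by simp; ring)
  have h2 := h.exp.const_mul (√(2 * Real.pi * ((1 : NNReal) : ℝ)))⁻¹
  refine h2.congr_deriv ?_
  simp only [pdf1, gaussianPDFReal]
  ring

lemma pdf1_le (x : ℝ) : pdf1 x ≤ 1 / 2 := by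
  simp only [pdf1, gaussianPDFReal, NNReal.coe_one, mul_one]
  have h1 : Real.exp (-(x - 0) ^ 2 / 2) ≤ 1 := by
    apply Real.exp_le_one_iff.2
    have := sq_nonneg (x - 0)
    linarith
  have h2 : (2 : ℝ) ≤ √(2 * Real.pi) := by
    apply Real.le_sqrt_of_sq_le
    have := Real.pi_gt_three
    nlinarith
  have h3 : (√(2 * Real.pi))⁻¹ ≤ 1 / 2 := by
    rw [one_div]
    exact inv_anti₀ (by norm_num) h2
  calc _ ≤ (√(2 * Real.pi))⁻¹ * 1 := by gcongr
    _ ≤ _ := by linarith

lemma poly_pdf_deriv (q : ℝ[X]) (x : ℝ) :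
    HasDerivAt (fun x => pdf1 x * q.eval x) (pdf1 x * (derivative q - X * q).eval x) x := by
  refine ((pdf1_deriv x).mul (q.hasDerivAt x)).congr_deriv ?_
  simp
  ring

/-- Stein identity. -/
lemma stein (q : ℝ[X]) : ∫ x, (X * q).eval x ∂g1 = ∫ x, (derivative q).eval x ∂g1 := by
  have h := integral_eq_zero_of_hasDerivAt_of_integrable (poly_pdf_deriv q)
    (int_iff.1 (int_poly _)) (int_iff.1 (int_poly _))
  rw [← integral_g1] at h
  simp only [eval_sub] at h
  rw [integral_sub (int_poly _) (int_poly _)] at h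
  linarith

/-- Stein identity on a half line. -/
lemma stein_Ioi (q : ℝ[X]) (c : ℝ) (hc : q.eval c = 0) :
    ∫ x, (Ioi c).indicator (fun x => (derivative q - X * q).eval x) x ∂g1 = 0 := by
  have h1 := (int_iff.1 (int_poly (derivative q - X * q))).integrableOn (s := Ioi c)
  have h2 := (int_iff.1 (int_poly q)).integrableOn (s := Ioi c)
  have h := integral_Ioi_of_hasDerivAt_of_tendsto' (fun x _ => poly_pdf_deriv q x) h1
    (tendsto_zero_of_hasDerivAt_of_integrableOn_Ioi (fun x _ => poly_pdf_deriv q x) h1 h2)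
  rw [integral_g1, ← integral_indicator measurableSet_Ioi] at *
  simp only [hc, mul_zero, sub_zero] at h
  rw [← h]
  congr 1
  funext x
  by_cases hx : x ∈ Ioi c <;> simp [hx]

lemma int_He_succ_mul (n : ℕ) (q : ℝ[X]) :
    ∫ x, (He (n + 1) * q).eval x ∂g1 = ∫ x, (He n * derivative q).eval x ∂g1 := by
  have h := stein (He n * q)
  have e1 : He (n + 1) * q = X * (He n * q) - derivative (He n) * q := by
    rw [He_succ]; ring
  have e2 : He n * derivative q = derivative (He n * q) - derivative (He n) * q := by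
    rw [derivative_mul]; ring
  rw [e1, e2]
  simp only [eval_sub]
  rw [integral_sub (int_poly _) (int_poly _), integral_sub (int_poly _) (int_poly _), h]

lemma He_orth (m n : ℕ) :
    ∫ x, (He m * He n).eval x ∂g1 = if m = n then (m.factorial : ℝ) else 0 := by
  induction m generalizing n with
  | zero =>
    cases n with
    | zero => simp [He_zero]
    | succ n =>
      rw [mul_comm, int_He_succ_mul]
      simp [He_zero]
  | succ m ih =>
    rw [int_He_succ_mul]
    cases n with
    | zero => simp [He_zero]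
    | succ n =>
      rw [deriv_He]
      have : ∀ x, (He m * (C ((n : ℝ) + 1) * He n)).eval x =
          ((n : ℝ) + 1) * (He m * He n).eval x := by
        intro x; simp; ring
      simp_rw [this]
      rw [integral_const_mul, ih]
      by_cases h : m = n
      · subst h; simp [Nat.factorial_succ]
      · simp [h]

/-- Mehler: Hermite polynomials are eigenfunctions of the noise operator. -/
lemma He_noise {ρ σ : ℝ} (h : ρ ^ 2 + σ ^ 2 = 1) (n : ℕ) (x : ℝ) :
    ∫ y, (He n).eval (ρ * x + σ * y) ∂g1 = ρ ^ n * (He n).eval x := by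
  have hc : ∀ (q : ℝ[X]) (y : ℝ), q.eval (ρ * x + σ * y) =
      (q.comp (C (ρ * x) + C σ * X)).eval y := by
    intro q y; simp [eval_comp]
  have hi : ∀ q : ℝ[X], Integrable (fun y => q.eval (ρ * x + σ * y)) g1 := by
    intro q; simp_rw [hc]; exact int_poly _
  have key : ∀ q : ℝ[X], ∫ y, (X * q - derivative q).eval (ρ * x + σ * y) ∂g1 =
      ρ * x * ∫ y, q.eval (ρ * x + σ * y) ∂g1 -
        ρ ^ 2 * ∫ y, (derivative q).eval (ρ * x + σ * y) ∂g1 := by
    intro q
    have h1 := stein (q.comp (C (ρ * x) + C σ * X))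
    have h2 : ∀ y, (derivative (q.comp (C (ρ * x) + C σ * X))).eval y =
        σ * (derivative q).eval (ρ * x + σ * y) := by
      intro y
      rw [derivative_comp]
      simp [eval_comp]
    simp_rw [h2] at h1
    rw [integral_const_mul] at h1
    have h3 : ∀ y, (X * q - derivative q).eval (ρ * x + σ * y) =
        (ρ * x * q.eval (ρ * x + σ * y) + σ * (X * q.comp (C (ρ * x) + C σ * X)).eval y) -
          (derivative q).eval (ρ * x + σ * y) := by
      intro y
      simp [eval_comp]
      ring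
    simp_rw [h3]
    rw [integral_sub (by exact ((hi q).const_mul _).add ((int_poly _).const_mul _)) (hi _),
      integral_add ((hi q).const_mul _) ((int_poly _).const_mul _), integral_const_mul,
      integral_const_mul, h1]
    have : σ * σ = 1 - ρ ^ 2 := by nlinarith
    rw [← mul_assoc, this]
    ring
  induction n using Nat.strong_induction_on with
  | _ n ih =>
    match n with
    | 0 => simp [He_zero]
    | 1 =>
      rw [He_succ, key]
      simp [He_zero]
    | n + 2 =>
      rw [He_succ (n + 1), key, ih (n + 1) (by omega), deriv_He]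
      simp only [eval_mul, eval_C, eval_sub, eval_X]
      rw [integral_const_mul, ih n (by omega)]
      ring

lemma X_mul_He (n : ℕ) : X * He n = He (n + 1) + C (n : ℝ) * He (n - 1) := by
  cases n with
  | zero => simp [He_succ, He_zero]
  | succ n =>
    rw [He_succ (n + 1), deriv_He]
    simp

/-- Integration by parts for a convex piecewise linear function with slopes `-1`, `1`. -/
lemma step_ibp (A B : ℝ) (n : ℕ) :
    ∫ x, max (A + x) (B - x) * (He (n + 1)).eval x ∂g1 =
      ∫ x, (SignType.sign (A + x - (B - x)) : ℝ) * (He n).eval x ∂g1 := by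
  set c := (B - A) / 2 with hc
  have h1 := stein_Ioi ((X - C c) * He n) c (by simp)
  have e : derivative ((X - C c) * He n) - X * ((X - C c) * He n) =
      He n - (X - C c) * He (n + 1) := by
    rw [He_succ, derivative_mul]; simp; ring
  rw [e] at h1
  have h2 := int_He_succ_mul n (C B - X)
  have hI : ∀ q : ℝ[X], Integrable ((Ioi c).indicator fun x => q.eval x) g1 :=
    fun q => (int_poly q).indicator measurableSet_Ioi
  have l1 : ∀ x, max (A + x) (B - x) * (He (n + 1)).eval x =
      (He (n + 1) * (C B - X)).eval x +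
        2 * (Ioi c).indicator (fun x => ((X - C c) * He (n + 1)).eval x) x := by
    intro x
    by_cases hx : x ∈ Ioi c
    · have : c < x := hx
      rw [max_eq_left (by linarith), indicator_of_mem hx]
      simp [hc]; ring
    · have : x ≤ c := not_lt.1 hx
      rw [max_eq_right (by linarith), indicator_of_notMem hx]
      simp; ring
  have l2 : ∀ᵐ x ∂g1, (SignType.sign (A + x - (B - x)) : ℝ) * (He n).eval x =
      (He n * derivative (C B - X)).eval x +
        2 * (Ioi c).indicator (fun x => (He n).eval x) x := by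
    have := nullSingletonClass_gaussianReal (μ := 0) (v := 1) one_ne_zero
    have : ∀ᵐ x ∂g1, x ≠ c := by
      rw [ae_iff]; simp
    filter_upwards [this] with x hx
    rcases lt_or_gt_of_ne hx with h | h
    · rw [sign_neg (by linarith), indicator_of_notMem (by simpa using h.le)]
      simp
    · rw [sign_pos (by linarith), indicator_of_mem (by simpa using h)]
      simp; ring
  simp_rw [l1]
  rw [integral_congr_ae l2, integral_add (int_poly _) ((hI _).const_mul _),
    integral_add (int_poly _) ((hI _).const_mul _), h2, integral_const_mul, integral_const_mul]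
  congr 2
  have l3 : ∀ x, (Ioi c).indicator (fun x => (He n - (X - C c) * He (n + 1)).eval x) x =
      (Ioi c).indicator (fun x => (He n).eval x) x -
        (Ioi c).indicator (fun x => ((X - C c) * He (n + 1)).eval x) x := by
    intro x
    by_cases hx : x ∈ Ioi c <;> simp [hx]
  simp_rw [l3] at h1
  rw [integral_sub (hI _) (hI _)] at h1
  linarith

end Pool.Agent.Lib.MP_a964b6_mp
end

-- part Pool.Agent.Lib.MP_a964b6_mp.Basis
section

/-! The Hermite basis of a finite product of standard Gaussians: Parseval and the noise formula. -/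

namespace Pool.Agent.Lib.MP_a964b6_mp

open MeasureTheory ProbabilityTheory Polynomial Set Filter Topology

variable {ι : Type} [Fintype ι]

noncomputable abbrev gm (ι : Type) [Fintype ι] : Measure (ι → ℝ) :=
  Measure.pi fun _ : ι => gaussianReal 0 1

noncomputable def HeM (α : ι → ℕ) (x : ι → ℝ) : ℝ := ∏ i, (He (α i)).eval (x i)

def fac (α : ι → ℕ) : ℝ := ∏ i, ((α i).factorial : ℝ)

noncomputable def co (f : (ι → ℝ) → ℝ) (α : ι → ℕ) : ℝ := ∫ x, f x * HeM α x ∂gm ι

lemma fac_pos (α : ι → ℕ) : 0 < fac α :=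
  Finset.prod_pos fun _ _ => by exact_mod_cast Nat.factorial_pos _

lemma cont_HeM (α : ι → ℕ) : Continuous (HeM α) := by
  unfold HeM
  exact continuous_finsetProd _ fun i _ => (He (α i)).continuous.comp (continuous_apply i)

lemma HeM_mul (α β : ι → ℕ) (x : ι → ℝ) :
    HeM α x * HeM β x = ∏ i, (He (α i) * He (β i)).eval (x i) := by
  simp [HeM, Finset.prod_mul_distrib]

lemma memLp_HeM (α : ι → ℕ) : MemLp (HeM α) 2 (gm ι) := by
  rw [memLp_two_iff_integrable_sq (cont_HeM α).aestronglyMeasurable]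
  simp_rw [sq, HeM_mul]
  exact Integrable.fintype_prod (f := fun i x => (He (α i) * He (α i)).eval x)
    fun i => int_poly _

lemma int_HeM (α : ι → ℕ) : Integrable (HeM α) (gm ι) := (memLp_HeM α).integrable (by simp)

lemma HeM_orth [DecidableEq ι] (α β : ι → ℕ) :
    ∫ x, HeM α x * HeM β x ∂gm ι = if α = β then fac α else 0 := by
  simp_rw [HeM_mul]
  rw [integral_fintype_prod_eq_prod (fun i x => (He (α i) * He (β i)).eval x)]
  simp_rw [He_orth]
  split_ifs with h
  · subst h; simp [fac]
  · obtain ⟨i, hi⟩ := Function.ne_iff.1 h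
    exact Finset.prod_eq_zero (Finset.mem_univ i) (if_neg hi)

lemma HeM_split [DecidableEq ι] (α : ι → ℕ) (i : ι) (n : ℕ) (x : ι → ℝ) :
    HeM (Function.update α i n) x =
      (He n).eval (x i) * ∏ j ∈ Finset.univ.erase i, (He (α j)).eval (x j) := by
  rw [HeM, ← Finset.mul_prod_erase _ _ (Finset.mem_univ i), Function.update_self]
  congr 1
  exact Finset.prod_congr rfl fun j hj => by
    rw [Function.update_of_ne (Finset.ne_of_mem_erase hj)]

lemma coord_mul_mem (i : ι) {u : (ι → ℝ) → ℝ} (hu : u ∈ Submodule.span ℝ (range HeM)) :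
    (fun x => x i * u x) ∈ Submodule.span ℝ (range (HeM (ι := ι))) := by
  classical
  induction hu using Submodule.span_induction with
  | mem u hu =>
    obtain ⟨α, rfl⟩ := hu
    have : (fun x => x i * HeM α x) = HeM (Function.update α i (α i + 1)) +
        (α i : ℝ) • HeM (Function.update α i (α i - 1)) := by
      funext x
      have h1 := congrArg (Polynomial.eval (x i)) (X_mul_He (α i))
      simp only [eval_mul, eval_X, eval_add, eval_C] at h1
      have h2 := HeM_split α i (α i) x
      rw [Function.update_eq_self] at h2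
      simp only [Pi.add_apply, Pi.smul_apply, smul_eq_mul, HeM_split]
      rw [h2, ← mul_assoc, h1]
      ring
    rw [this]
    exact Submodule.add_mem _ (Submodule.subset_span ⟨_, rfl⟩)
      (Submodule.smul_mem _ _ (Submodule.subset_span ⟨_, rfl⟩))
  | zero =>
    have := Submodule.zero_mem (Submodule.span ℝ (range (HeM (ι := ι))))
    convert this using 1
    funext x; simp
  | add u v _ _ hu hv =>
    have := Submodule.add_mem _ hu hv
    convert this using 1
    funext x; simp [mul_add]
  | smul a u _ hu =>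
    have := Submodule.smul_mem _ a hu
    convert this using 1
    funext x; simp; ring

lemma lin_pow_mem (t : ι → ℝ) (k : ℕ) :
    (fun x : ι → ℝ => (∑ i, t i * x i) ^ k) ∈ Submodule.span ℝ (range (HeM (ι := ι))) := by
  induction k with
  | zero => exact Submodule.subset_span ⟨0, by funext x; simp [HeM, He_zero]⟩
  | succ k ih =>
    have := Submodule.sum_mem (Submodule.span ℝ (range (HeM (ι := ι)))) (t := Finset.univ)
      fun i _ => Submodule.smul_mem _ (t i) (coord_mul_mem i ih)
    convert this using 1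
    funext x
    simp only [Finset.sum_apply, Pi.smul_apply, smul_eq_mul]
    rw [pow_succ', Finset.sum_mul]
    exact Finset.sum_congr rfl fun i _ => by ring

lemma int_exp_lin (t : ι → ℝ) :
    Integrable (fun x : ι → ℝ => Real.exp (∑ i, t i * x i)) (gm ι) := by
  simp_rw [Real.exp_sum]
  exact Integrable.fintype_prod (f := fun i x => Real.exp (t i * x))
    fun i => integrable_exp_mul_gaussianReal _

lemma memLp_exp_abs (t : ι → ℝ) :
    MemLp (fun x : ι → ℝ => Real.exp |∑ i, t i * x i|) 2 (gm ι) := by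
  have hc : Continuous fun x : ι → ℝ => Real.exp |∑ i, t i * x i| := by fun_prop
  rw [memLp_two_iff_integrable_sq hc.aestronglyMeasurable]
  refine ((int_exp_lin fun i => 2 * t i).add (int_exp_lin fun i => -2 * t i)).mono'
    (hc.pow 2).aestronglyMeasurable (Eventually.of_forall fun x => ?_)
  have e1 : ∑ i, 2 * t i * x i = 2 * ∑ i, t i * x i := by
    rw [Finset.mul_sum]; exact Finset.sum_congr rfl fun i _ => by ring
  have e2 : ∑ i, -2 * t i * x i = -2 * ∑ i, t i * x i := by
    rw [Finset.mul_sum]; exact Finset.sum_congr rfl fun i _ => by ring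
  simp only [Pi.add_apply, e1, e2]
  rw [Real.norm_of_nonneg (sq_nonneg _), sq, ← Real.exp_add]
  rcases abs_cases (∑ i, t i * x i) with h | h
  · rw [h.1, ← two_mul]; linarith [Real.exp_pos (-2 * ∑ i, t i * x i)]
  · rw [h.1, show -∑ i, t i * x i + -∑ i, t i * x i = -2 * ∑ i, t i * x i by ring]
    linarith [Real.exp_pos (2 * ∑ i, t i * x i)]

lemma fourier_zero {g : (ι → ℝ) → ℝ} (hg : MemLp g 2 (gm ι)) (h : ∀ α, co g α = 0)
    (t : ι → ℝ) : ∫ x, (g x : ℂ) * Complex.exp ((∑ i, t i * x i : ℝ) * Complex.I) ∂gm ι = 0 := by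
  have hS : ∀ u ∈ Submodule.span ℝ (range (HeM (ι := ι))),
      Integrable (fun x => g x * u x) (gm ι) ∧ ∫ x, g x * u x ∂gm ι = 0 := by
    intro u hu
    induction hu using Submodule.span_induction with
    | mem u hu =>
      obtain ⟨α, rfl⟩ := hu
      exact ⟨hg.integrable_mul (memLp_HeM α), h α⟩
    | zero => simp
    | add u v _ _ hu hv =>
      simp only [Pi.add_apply, mul_add]
      exact ⟨hu.1.add hv.1, by rw [integral_add hu.1 hv.1, hu.2, hv.2, add_zero]⟩
    | smul a u _ hu =>
      simp only [Pi.smul_apply, smul_eq_mul, mul_left_comm (g _) a]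
      exact ⟨hu.1.const_mul a, by rw [integral_const_mul, hu.2, mul_zero]⟩
  let F : ℕ → (ι → ℝ) → ℂ := fun k x =>
    (Complex.I ^ k / k.factorial) * ((g x * (∑ i, t i * x i) ^ k : ℝ) : ℂ)
  have hFi : ∀ k, Integrable (F k) (gm ι) := fun k =>
    ((hS _ (lin_pow_mem t k)).1.ofReal).const_mul _
  have hF0 : ∀ k, ∫ x, F k x ∂gm ι = 0 := fun k => by
    simp only [F]
    rw [integral_const_mul, integral_complex_ofReal, (hS _ (lin_pow_mem t k)).2]
    simp
  have hb : Integrable (fun x => |g x| * Real.exp |∑ i, t i * x i|) (gm ι) :=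
    hg.abs.integrable_mul (memLp_exp_abs t)
  have hn : ∀ k x, ‖F k x‖ = |g x| * (|∑ i, t i * x i| ^ k / k.factorial) := by
    intro k x
    simp only [F, norm_mul, norm_div, norm_pow, Complex.norm_I, one_pow, Complex.norm_natCast,
      Complex.norm_real, Real.norm_eq_abs]
    ring
  have hsum : Summable fun k => ∫ x, ‖F k x‖ ∂gm ι := by
    refine summable_of_sum_range_le (c := ∫ x, |g x| * Real.exp |∑ i, t i * x i| ∂gm ι)
      (fun k => integral_nonneg fun x => norm_nonneg _) fun n => ?_
    rw [← integral_finsetSum _ fun k _ => (hFi k).norm]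
    refine integral_mono (integrable_finsetSum _ fun k _ => (hFi k).norm) hb fun x => ?_
    simp only [hn]
    rw [← Finset.mul_sum]
    exact mul_le_mul_of_nonneg_left (Real.sum_le_exp_of_nonneg (abs_nonneg _) n) (abs_nonneg _)
  have h1 := hasSum_integral_of_summable_integral_norm hFi hsum
  simp_rw [hF0] at h1
  rw [hasSum_zero.unique h1]
  congr 1
  funext x
  have h2 := (NormedSpace.expSeries_div_hasSum_exp
    (((∑ i, t i * x i : ℝ) : ℂ) * Complex.I)).mul_left (g x : ℂ)
  rw [← Complex.exp_eq_exp_ℂ] at h2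
  rw [← h2.tsum_eq]
  congr 1
  funext k
  simp only [F, mul_pow]
  push_cast
  ring

lemma complete {g : (ι → ℝ) → ℝ} (hg : MemLp g 2 (gm ι)) (h : ∀ α, co g α = 0) :
    g =ᵐ[gm ι] 0 := by
  classical
  have hr : Integrable g (gm ι) := hg.integrable (by simp)
  let ν₁ := (gm ι).withDensity fun x => ENNReal.ofReal (g x)
  let ν₂ := (gm ι).withDensity fun x => ENNReal.ofReal (-g x)
  have : IsFiniteMeasure ν₁ := isFiniteMeasure_withDensity_ofReal hr.2
  have : IsFiniteMeasure ν₂ := isFiniteMeasure_withDensity_ofReal hr.neg.2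
  have ha₁ : AEMeasurable (fun x => ENNReal.ofReal (g x)) (gm ι) :=
    hr.aemeasurable.ennreal_ofReal
  have ha₂ : AEMeasurable (fun x => ENNReal.ofReal (-g x)) (gm ι) :=
    hr.aemeasurable.neg.ennreal_ofReal
  have key : ν₁ = ν₂ := by
    apply Measure.ext_of_charFunDual
    funext L
    have hL : ∀ y : ι → ℝ, L y = ∑ i, L (Pi.single i 1) * y i := by
      intro y
      have : y = ∑ i, y i • (Pi.single i 1 : ι → ℝ) := by
        ext j
        simp [Finset.sum_apply, Pi.single_apply]
      conv_lhs => rw [this, map_sum]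
      exact Finset.sum_congr rfl fun i _ => by simp [mul_comm]
    rw [charFunDual_apply, charFunDual_apply,
      integral_withDensity_eq_integral_toReal_smul₀ ha₁ (by simp),
      integral_withDensity_eq_integral_toReal_smul₀ ha₂ (by simp), ← sub_eq_zero]
    have hb : ∀ r : (ι → ℝ) → ℝ, Integrable r (gm ι) →
        Integrable (fun x => r x • Complex.exp (L x * Complex.I)) (gm ι) := by
      intro r hr
      refine hr.smul_bdd 1 (by fun_prop) (Eventually.of_forall fun x => ?_)
      rw [Complex.norm_exp_ofReal_mul_I]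
    rw [← integral_sub (hb _ ?_) (hb _ ?_)]
    · rw [← fourier_zero hg h fun i => L (Pi.single i 1)]
      congr 1
      funext x
      rw [← sub_smul, ENNReal.toReal_ofReal', ENNReal.toReal_ofReal',
        max_zero_sub_max_neg_zero_eq_self, ← hL]
      simp
    · simp only [ENNReal.toReal_ofReal']
      exact hr.pos_part
    · simp only [ENNReal.toReal_ofReal']
      exact hr.neg_part
  have h3 := (withDensity_eq_iff ha₁ ha₂ ?_).1 key
  · filter_upwards [h3] with x hx
    have := congrArg ENNReal.toReal hx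
    rw [ENNReal.toReal_ofReal', ENNReal.toReal_ofReal'] at this
    have h4 := max_zero_sub_max_neg_zero_eq_self (g x)
    simp only [Pi.zero_apply]
    linarith
  · exact ((lintegral_mono fun x => Real.ofReal_le_enorm (g x)).trans_lt hr.2).ne

noncomputable def vb (α : ι → ℕ) : Lp ℝ 2 (gm ι) :=
  (√(fac α))⁻¹ • (memLp_HeM α).toLp _

lemma inner_vb {f : (ι → ℝ) → ℝ} (hf : MemLp f 2 (gm ι)) (α : ι → ℕ) :
    inner ℝ (vb α) (hf.toLp f) = (√(fac α))⁻¹ * co f α := by
  rw [vb, real_inner_smul_left, L2.inner_def, co]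
  congr 1
  refine integral_congr_ae ?_
  filter_upwards [hf.coeFn_toLp, (memLp_HeM α).coeFn_toLp] with x h1 h2
  rw [h1, h2]
  simp

lemma parseval {f g : (ι → ℝ) → ℝ} (hf : MemLp f 2 (gm ι)) (hg : MemLp g 2 (gm ι)) :
    HasSum (fun α => co f α * co g α / fac α) (∫ x, f x * g x ∂gm ι) := by
  classical
  have hs : ∀ α : ι → ℕ, (√(fac α))⁻¹ * (√(fac α))⁻¹ = (fac α)⁻¹ := fun α => by
    rw [← mul_inv, Real.mul_self_sqrt (fac_pos α).le]
  have hv : Orthonormal ℝ (vb (ι := ι)) := by
    rw [orthonormal_iff_ite]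
    intro α β
    conv_lhs => rw [vb.eq_1 β, real_inner_smul_right, inner_vb, co, HeM_orth]
    by_cases h : α = β
    · subst h
      simp only [if_true]
      rw [← mul_assoc, hs, inv_mul_cancel₀ (fac_pos α).ne']
    · simp [h, Ne.symm h]
  have hsp : (Submodule.span ℝ (range (vb (ι := ι))))ᗮ = ⊥ := by
    rw [Submodule.eq_bot_iff]
    intro u hu
    have h0 : ∀ α, co u α = 0 := by
      intro α
      have h1 := Submodule.inner_right_of_mem_orthogonal
        (Submodule.subset_span (mem_range_self α)) hu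
      rw [← Lp.toLp_coeFn u (Lp.memLp u), inner_vb] at h1
      have : (√(fac α))⁻¹ ≠ 0 := inv_ne_zero (Real.sqrt_pos.2 (fac_pos α)).ne'
      exact (mul_eq_zero.1 h1).resolve_left this
    exact Lp.eq_zero_iff_ae_eq_zero.2 (complete (Lp.memLp u) h0)
  have h := (HilbertBasis.mkOfOrthogonalEqBot hv hsp).hasSum_inner_mul_inner (hf.toLp f)
    (hg.toLp g)
  rw [HilbertBasis.coe_mkOfOrthogonalEqBot] at h
  have e1 : (fun α => co f α * co g α / fac α) = fun α =>
      inner ℝ (hf.toLp f) (vb α) * inner ℝ (vb α) (hg.toLp g) := by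
    funext α
    rw [real_inner_comm, inner_vb, inner_vb, div_eq_mul_inv, ← hs]
    ring
  have e2 : ∫ x, f x * g x ∂gm ι = inner ℝ (hf.toLp f) (hg.toLp g) := by
    rw [L2.inner_def]
    refine integral_congr_ae ?_
    filter_upwards [hf.coeFn_toLp, hg.coeFn_toLp] with x h1 h2
    rw [h1, h2]
    simp [mul_comm]
  rw [e1, e2]
  exact h

def mix (ρ σ : ι → ℝ) (z : (ι → ℝ) × (ι → ℝ)) : ι → ℝ := fun i => ρ i * z.1 i + σ i * z.2 i

lemma meas_mix (ρ σ : ι → ℝ) : Measurable (mix ρ σ) := by
  unfold mix; fun_prop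

lemma refl1 {ρ σ : ℝ} (h : ρ ^ 2 + σ ^ 2 = 1) (hσ : 0 ≤ σ) :
    MeasurePreserving (fun z : ℝ × ℝ => (ρ * z.1 + σ * z.2, σ * z.1 - ρ * z.2))
      (g1.prod g1) (g1.prod g1) := by
  have h1 : MeasurePreserving (ContinuousLinearMap.rotation (E := ℝ) (Real.arccos ρ))
      (g1.prod g1) (g1.prod g1) :=
    ⟨by fun_prop, IsGaussian.map_rotation_eq_self_of_forall_strongDual_eq_zero
      (fun L => by simp) _⟩
  have h2 : MeasurePreserving (fun x : ℝ => -x) g1 g1 :=
    ⟨by fun_prop, by rw [gaussianReal_map_neg]; simp⟩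
  have h3 := ((MeasurePreserving.id g1).prod h2).comp h1
  convert h3 using 1
  funext z
  have hc : Real.cos (Real.arccos ρ) = ρ := Real.cos_arccos (by nlinarith) (by nlinarith)
  have hs : Real.sin (Real.arccos ρ) = σ := by
    rw [Real.sin_arccos, show 1 - ρ ^ 2 = σ ^ 2 by linarith, Real.sqrt_sq hσ]
  simp only [Function.comp, ContinuousLinearMap.rotation_apply, hc, hs, Prod.map, id,
    smul_eq_mul]
  congr 1
  ring

lemma reflM {ρ σ : ι → ℝ} (h : ∀ i, ρ i ^ 2 + σ i ^ 2 = 1) (hσ : ∀ i, 0 ≤ σ i) :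
    MeasurePreserving (fun z => (mix ρ σ z, mix σ (-ρ) z))
      ((gm ι).prod (gm ι)) ((gm ι).prod (gm ι)) := by
  have h1 := measurePreserving_arrowProdEquivProdArrow ℝ ℝ ι (fun _ => g1) (fun _ => g1)
  have h2 := measurePreserving_pi (fun _ : ι => g1.prod g1) (fun _ : ι => g1.prod g1)
    fun i => refl1 (h i) (hσ i)
  have h3 := (h1.comp h2).comp h1.symm
  convert h3 using 1
  funext z
  ext i
  · simp [mix, MeasurableEquiv.arrowProdEquivProdArrow]
  · simp [mix, MeasurableEquiv.arrowProdEquivProdArrow, sub_eq_add_neg]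

lemma mixP {ρ σ : ι → ℝ} (h : ∀ i, ρ i ^ 2 + σ i ^ 2 = 1) (hσ : ∀ i, 0 ≤ σ i) :
    MeasurePreserving (mix ρ σ) ((gm ι).prod (gm ι)) (gm ι) :=
  measurePreserving_fst.comp (reflM h hσ)

lemma mix_mix {ρ σ : ι → ℝ} (h : ∀ i, ρ i ^ 2 + σ i ^ 2 = 1) (z : (ι → ℝ) × (ι → ℝ)) :
    mix ρ σ (mix ρ σ z, mix σ (-ρ) z) = z.1 := by
  funext i
  simp only [mix, Pi.neg_apply]
  linear_combination z.1 i * h i

/-- The noise formula. -/
lemma noise {f : (ι → ℝ) → ℝ} (hf : Measurable f) (hb : ∀ x, |f x| ≤ 1) {ρ σ : ι → ℝ}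
    (h : ∀ i, ρ i ^ 2 + σ i ^ 2 = 1) (hσ : ∀ i, 0 ≤ σ i) :
    HasSum (fun α => co f α ^ 2 / fac α * ∏ i, ρ i ^ α i)
      (∫ z, f z.1 * f (mix ρ σ z) ∂(gm ι).prod (gm ι)) := by
  have hfm : Measurable fun z => f (mix ρ σ z) := hf.comp (meas_mix ρ σ)
  let g : (ι → ℝ) → ℝ := fun x => ∫ y, f (mix ρ σ (x, y)) ∂gm ι
  have hgm : StronglyMeasurable g := hfm.stronglyMeasurable.integral_prod_right'
  have hgb : ∀ x, ‖g x‖ ≤ 1 := fun x => by
    have := norm_integral_le_of_norm_le_const (μ := gm ι) (f := fun y => f (mix ρ σ (x, y)))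
      (C := 1) (Eventually.of_forall fun y => hb _)
    simpa using this
  have hf2 : MemLp f 2 (gm ι) :=
    MemLp.of_bound hf.aestronglyMeasurable 1 (Eventually.of_forall hb)
  have hg2 : MemLp g 2 (gm ι) :=
    MemLp.of_bound hgm.aestronglyMeasurable 1 (Eventually.of_forall hgb)
  have key : ∀ u : (ι → ℝ) → ℝ, Integrable u (gm ι) →
      ∫ z, u z.1 * f (mix ρ σ z) ∂(gm ι).prod (gm ι) = ∫ x, u x * g x ∂gm ι := by
    intro u hu
    rw [integral_prod _ ((hu.comp_fst _).mul_bdd (c := 1) hfm.aestronglyMeasurable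
      (Eventually.of_forall fun z => hb _))]
    simp only [integral_const_mul, g]
  have hco : ∀ α, co g α = co f α * ∏ i, ρ i ^ α i := by
    intro α
    have e1 : co g α = ∫ z, HeM α z.1 * f (mix ρ σ z) ∂(gm ι).prod (gm ι) := by
      rw [key _ (int_HeM α), co]; simp_rw [mul_comm]
    have hm : Measurable fun z : (ι → ℝ) × (ι → ℝ) => HeM α z.1 * f (mix ρ σ z) :=
      ((cont_HeM α).measurable.comp measurable_fst).mul hfm
    rw [e1, ← (reflM h hσ).map_eq, integral_map (reflM h hσ).measurable.aemeasurable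
      hm.aestronglyMeasurable]
    simp only [mix_mix h]
    have hi : Integrable (fun z => HeM α (mix ρ σ z)) ((gm ι).prod (gm ι)) :=
      ((mixP h hσ).integrable_comp (cont_HeM α).aestronglyMeasurable).2 (int_HeM α)
    have hi2 : Integrable (fun z => HeM α (mix ρ σ z) * f z.1) ((gm ι).prod (gm ι)) :=
      hi.mul_bdd (c := 1) (hf.comp measurable_fst).aestronglyMeasurable
        (Eventually.of_forall fun z => hb _)
    rw [integral_prod _ hi2, co, ← integral_mul_const]
    congr 1
    funext x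
    simp only [integral_mul_const, HeM, mix]
    rw [integral_fintype_prod_eq_prod (fun i y => (He (α i)).eval (ρ i * x i + σ i * y))]
    simp_rw [He_noise (h _)]
    rw [Finset.prod_mul_distrib]
    ring
  rw [key f (hf2.integrable (by simp))]
  convert parseval hf2 hg2 using 1
  funext α
  rw [hco]
  ring

end Pool.Agent.Lib.MP_a964b6_mp
end

-- part Pool.Agent.Lib.MP_a964b6_mp.Spin
section

/-! Ground states of a linear energy over a finite family of sign vectors. -/

namespace Pool.Agent.Lib.MP_a964b6_mp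

open MeasureTheory ProbabilityTheory Polynomial Set Filter Topology

variable {ι : Type} [Fintype ι] [DecidableEq ι]

lemma updP (e : ι) : MeasurePreserving (fun z : (ι → ℝ) × ℝ => Function.update z.1 e z.2)
    ((gm ι).prod g1) (gm ι) := by
  have hm : Measurable fun z : (ι → ℝ) × ℝ => Function.update z.1 e z.2 := by fun_prop
  have h1 : MeasurePreserving (Prod.map id (Function.eval e)) ((gm ι).prod (gm ι))
      ((gm ι).prod g1) :=
    (MeasurePreserving.id _).prod (measurePreserving_eval (fun _ : ι => g1) e)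
  have h2 := mixP (ρ := fun i => if i = e then 0 else 1) (σ := fun i => if i = e then 1 else 0)
    (fun i => by split_ifs <;> simp) (fun i => by split_ifs <;> simp)
  refine ⟨hm, ?_⟩
  rw [← h1.map_eq, Measure.map_map hm h1.measurable]
  refine Eq.trans ?_ h2.map_eq
  congr 1
  funext z i
  by_cases h : i = e
  · subst h; simp [mix]
  · simp [mix, h]

lemma slice (e : ι) {G : (ι → ℝ) → ℝ} (hG : Integrable G (gm ι)) :
    ∫ x, G x ∂gm ι = ∫ x, ∫ y, G (Function.update x e y) ∂g1 ∂gm ι := by
  have h := updP e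
  rw [← integral_prod (fun z : (ι → ℝ) × ℝ => G (Function.update z.1 e z.2))
    ((h.integrable_comp hG.1).2 hG), ← integral_map h.measurable.aemeasurable
    (by rw [h.map_eq]; exact hG.1), h.map_eq]

lemma ae_slice (e : ι) {P : (ι → ℝ) → Prop} (hP : MeasurableSet {x | P x})
    (h : ∀ᵐ x ∂gm ι, ∀ᵐ y ∂g1, P (Function.update x e y)) : ∀ᵐ x ∂gm ι, P x := by
  have hu := updP e
  rw [← hu.map_eq, ae_map_iff hu.measurable.aemeasurable hP]
  exact (Measure.ae_prod_iff_ae_ae (hu.measurable hP)).2 h

variable {S : Type} [Fintype S] (b : S → ι → ℝ)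

def en (σ : S) (J : ι → ℝ) : ℝ := ∑ e, J e * b σ e

def rest (e : ι) (σ : S) (J : ι → ℝ) : ℝ := ∑ i ∈ Finset.univ.erase e, J i * b σ i

noncomputable def side (e : ι) (s : ℝ) (J : ι → ℝ) : ℝ := ⨆ σ : {σ // b σ e = s}, rest b e σ J

noncomputable def opt (J : ι → ℝ) : ℝ := ⨆ σ, en b σ J

noncomputable def sg (e : ι) (J : ι → ℝ) : ℝ :=
  SignType.sign (side b e 1 J + J e - (side b e (-1) J - J e))

structure Good : Prop where
  pm : ∀ σ e, b σ e = 1 ∨ b σ e = -1
  pos : ∀ e, ∃ σ, b σ e = 1
  neg : ∀ e, ∃ σ, b σ e = -1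

lemma en_eq (e : ι) (σ : S) (J : ι → ℝ) : en b σ J = J e * b σ e + rest b e σ J := by
  rw [en, rest, Finset.add_sum_erase _ (fun i => J i * b σ i) (Finset.mem_univ e)]

lemma rest_update (e : ι) (σ : S) (J : ι → ℝ) (y : ℝ) :
    rest b e σ (Function.update J e y) = rest b e σ J :=
  Finset.sum_congr rfl fun i hi => by rw [Function.update_of_ne (Finset.ne_of_mem_erase hi)]

lemma side_update (e : ι) (s : ℝ) (J : ι → ℝ) (y : ℝ) :
    side b e s (Function.update J e y) = side b e s J := by
  simp only [side, rest_update]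

lemma meas_side (e : ι) (s : ℝ) : Measurable (side b e s) :=
  Measurable.iSup fun σ => by unfold rest; fun_prop

lemma meas_opt : Measurable (opt b) :=
  Measurable.iSup fun σ => by unfold en; fun_prop

lemma meas_sign : Measurable fun x : ℝ => (SignType.sign x : ℝ) := by
  have : (fun x : ℝ => (SignType.sign x : ℝ)) =
      fun x => if 0 < x then 1 else if x < 0 then -1 else 0 := by
    funext x
    rw [sign_apply]
    split_ifs <;> simp
  rw [this]
  exact Measurable.ite (measurableSet_lt measurable_const measurable_id) measurable_const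
    (Measurable.ite (measurableSet_lt measurable_id measurable_const) measurable_const
      measurable_const)

lemma meas_sg (e : ι) : Measurable (sg b e) :=
  meas_sign.comp (((meas_side b e 1).add (measurable_pi_apply e)).sub
    ((meas_side b e (-1)).sub (measurable_pi_apply e)))

lemma abs_sign_le (x : ℝ) : |(SignType.sign x : ℝ)| ≤ 1 := by
  rcases lt_trichotomy x 0 with h | h | h
  · simp [sign_neg h]
  · simp [h]
  · simp [sign_pos h]

lemma abs_sg (e : ι) (J : ι → ℝ) : |sg b e J| ≤ 1 := abs_sign_le _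

lemma le_side (e : ι) (σ : S) (J : ι → ℝ) : rest b e σ J ≤ side b e (b σ e) J :=
  le_ciSup (f := fun τ : {τ // b τ e = b σ e} => rest b e τ J) (Finite.bddAbove_range _) ⟨σ, rfl⟩

lemma exists_side {e : ι} {s : ℝ} (h : ∃ σ, b σ e = s) (J : ι → ℝ) :
    ∃ σ, b σ e = s ∧ rest b e σ J = side b e s J := by
  have : Nonempty {σ // b σ e = s} := ⟨⟨h.choose, h.choose_spec⟩⟩
  obtain ⟨σ, hσ⟩ := exists_eq_ciSup_of_finite (f := fun τ : {τ // b τ e = s} => rest b e τ J)
  exact ⟨σ, σ.2, hσ⟩

lemma le_opt (σ : S) (J : ι → ℝ) : en b σ J ≤ opt b J :=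
  le_ciSup (f := fun τ => en b τ J) (Finite.bddAbove_range _) σ

variable {b}

lemma Good.opt_eq (hb : Good b) (e : ι) (J : ι → ℝ) :
    opt b J = max (side b e 1 J + J e) (side b e (-1) J - J e) := by
  apply le_antisymm
  · have : Nonempty S := ⟨(hb.pos e).choose⟩
    refine ciSup_le fun σ => ?_
    have h := le_side b e σ J
    rw [en_eq b e]
    rcases hb.pm σ e with h1 | h1
    · rw [h1] at h ⊢; exact le_max_of_le_left (by linarith)
    · rw [h1] at h ⊢; exact le_max_of_le_right (by linarith)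
  · obtain ⟨σ, h1, h2⟩ := exists_side b (hb.pos e) J
    obtain ⟨τ, h3, h4⟩ := exists_side b (hb.neg e) J
    have h5 := le_opt b σ J
    have h6 := le_opt b τ J
    rw [en_eq b e] at h5 h6
    rw [h1, h2] at h5
    rw [h3, h4] at h6
    exact max_le (by linarith) (by linarith)

lemma Good.ground_eq (hb : Good b) {e : ι} {J : ι → ℝ} {σ : S} (hσ : ∀ τ, en b τ J ≤ en b σ J)
    (hne : side b e 1 J + J e - (side b e (-1) J - J e) ≠ 0) : b σ e = sg b e J := by
  obtain ⟨τ1, h1, h2⟩ := exists_side b (hb.pos e) J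
  obtain ⟨τ2, h3, h4⟩ := exists_side b (hb.neg e) J
  have h5 := hσ τ1
  have h6 := hσ τ2
  have h7 := le_side b e σ J
  rw [en_eq b e, en_eq b e] at h5 h6
  rw [h1, h2] at h5
  rw [h3, h4] at h6
  rcases hb.pm σ e with h | h
  · rw [h] at h5 h6 h7 ⊢
    rw [sg, sign_pos (lt_of_le_of_ne (by linarith) hne.symm)]
    simp
  · rw [h] at h5 h6 h7 ⊢
    rw [sg, sign_neg (lt_of_le_of_ne (by linarith) hne)]
    simp

lemma ae_ne_g1 (c : ℝ) : ∀ᵐ y ∂g1, y ≠ c := by
  have := nullSingletonClass_gaussianReal (μ := 0) (v := 1) one_ne_zero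
  rw [ae_iff]; simp

variable (b) in
lemma ae_notie (e : ι) : ∀ᵐ J ∂gm ι, side b e 1 J + J e - (side b e (-1) J - J e) ≠ 0 := by
  refine ae_slice e ?_ (Eventually.of_forall fun x => ?_)
  · exact (measurableSet_eq_fun (((meas_side b e 1).add (measurable_pi_apply e)).sub
      ((meas_side b e (-1)).sub (measurable_pi_apply e))) measurable_const).compl
  · filter_upwards [ae_ne_g1 ((side b e (-1) x - side b e 1 x) / 2)] with y hy
    simp only [side_update, Function.update_self]
    intro h
    apply hy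
    linarith

variable (b) in
lemma sg_sq (e : ι) : ∫ J, sg b e J * sg b e J ∂gm ι = 1 := by
  rw [integral_congr_ae (g := fun _ => 1)]
  · simp
  filter_upwards [ae_notie b e] with J hJ
  rcases lt_or_gt_of_ne hJ with h | h
  · simp [sg, sign_neg h]
  · simp [sg, sign_pos h]

lemma Good.memLp_opt (hb : Good b) [Nonempty S] : MemLp (opt b) 2 (gm ι) := by
  have h1 : MemLp (fun J : ι → ℝ => ∑ i, |J i|) 2 (gm ι) := by
    refine memLp_finsetSum _ fun i _ => ?_
    exact ((memLp_id_gaussianReal' (μ := 0) (v := 1) 2 (by simp)).comp_measurePreserving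
      (measurePreserving_eval (fun _ : ι => g1) i)).abs
  refine h1.of_le (meas_opt b).aestronglyMeasurable (Eventually.of_forall fun J => ?_)
  obtain ⟨σ, hσ⟩ := exists_eq_ciSup_of_finite (f := fun τ => en b τ J)
  rw [opt, ← hσ, Real.norm_eq_abs, Real.norm_of_nonneg (Finset.sum_nonneg fun _ _ => abs_nonneg _)]
  refine (Finset.abs_sum_le_sum_abs _ _).trans (Finset.sum_le_sum fun i _ => ?_)
  rcases hb.pm σ i with h | h <;> simp [h]

variable (b) in
lemma memLp_sg (e : ι) : MemLp (sg b e) 2 (gm ι) :=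
  MemLp.of_bound (meas_sg b e).aestronglyMeasurable 1 (Eventually.of_forall (abs_sg b e))

/-- The Hermite coefficients of the bond variable are those of the optimal energy, shifted. -/
lemma Good.co_sg (hb : Good b) (e : ι) (α : ι → ℕ) :
    co (sg b e) α = co (opt b) (α + Pi.single e 1) := by
  have : Nonempty S := ⟨(hb.pos e).choose⟩
  have h1 : α + Pi.single e 1 = Function.update α e (α e + 1) := by
    funext i
    by_cases h : i = e
    · subst h; simp
    · simp [h]
  rw [h1, co, co, slice e (by exact (memLp_sg b e).integrable_mul (memLp_HeM _)),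
    slice e (G := fun x => opt b x * _) (by exact hb.memLp_opt.integrable_mul (memLp_HeM _))]
  congr 1
  funext x
  have h2 : ∀ y, ∏ j ∈ Finset.univ.erase e, (He (α j)).eval (Function.update x e y j) =
      ∏ j ∈ Finset.univ.erase e, (He (α j)).eval (x j) := fun y =>
    Finset.prod_congr rfl fun i hi => by rw [Function.update_of_ne (Finset.ne_of_mem_erase hi)]
  have h3 := fun y => HeM_split α e (α e) (Function.update x e y)
  simp only [Function.update_eq_self] at h3
  simp only [h3, HeM_split, h2, Function.update_self, hb.opt_eq e, sg, side_update,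
    ← mul_assoc, integral_mul_const]
  rw [step_ibp]

lemma prob_near (c r : ℝ) (hr : 0 ≤ r) :
    ∫ y, (Icc (c - r) (c + r)).indicator (fun _ => (1 : ℝ)) y ∂g1 ≤ r := by
  rw [integral_g1]
  have h : ∫ y, (Icc (c - r) (c + r)).indicator (fun _ => (1 / 2 : ℝ)) y = r := by
    rw [integral_indicator measurableSet_Icc]
    simp
    rw [max_eq_left (by linarith)]
    ring
  refine le_of_le_of_eq ?_ h
  refine integral_mono_of_nonneg (Eventually.of_forall fun y => ?_)
    ((integrable_indicator_iff measurableSet_Icc).2 (by simp)) (Eventually.of_forall fun y => ?_)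
  · exact mul_nonneg (gaussianPDFReal_nonneg _ _ _) (indicator_nonneg (fun _ _ => zero_le_one) _)
  · by_cases hy : y ∈ Icc (c - r) (c + r)
    · simp only [indicator_of_mem hy, mul_one]; exact pdf1_le y
    · simp [indicator_of_notMem hy]

lemma int_abs : Integrable (fun y : ℝ => |y|) g1 := by
  simpa using (int_poly X).abs

lemma exp_abs_le : ∫ y, |y| ∂g1 ≤ 1 := by
  have h1 := He_orth 1 1
  have h2 : ∫ y, (1 / 2 + 1 / 2 * (He 1 * He 1).eval y) ∂g1 = 1 := by
    rw [integral_add (by simp) ((int_poly _).const_mul _), integral_const_mul, h1]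
    simp; norm_num
  rw [← h2]
  refine integral_mono int_abs ((integrable_const _).add ((int_poly _).const_mul _)) fun y => ?_
  simp only [He_succ, He_zero, mul_one, derivative_one, sub_zero, eval_mul, eval_X]
  nlinarith [sq_nonneg (|y| - 1), sq_abs y]

/-- One-dimensional stability of a step function. -/
lemma step_stable (A B : ℝ) {ε σ : ℝ} (hε : 0 < ε) (hσ : 0 ≤ σ) :
    ∫ x, ∫ y, (1 - (SignType.sign (A + x - (B - x)) : ℝ) *
      (SignType.sign (A + ((1 - ε) * x + σ * y) - (B - ((1 - ε) * x + σ * y))) : ℝ)) ∂g1 ∂g1 ≤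
        4 * √ε + 2 * σ := by
  set c := (B - A) / 2 with hc
  have hs := Real.sqrt_pos.2 hε
  have hss := Real.mul_self_sqrt hε.le
  let G : ℝ × ℝ → ℝ := fun z => 1 - (SignType.sign (A + z.1 - (B - z.1)) : ℝ) *
      (SignType.sign (A + ((1 - ε) * z.1 + σ * z.2) - (B - ((1 - ε) * z.1 + σ * z.2))) : ℝ)
  have hGm : Measurable G := measurable_const.sub
    ((meas_sign.comp (by fun_prop)).mul (meas_sign.comp (by fun_prop)))
  have hG2 : ∀ z, |G z| ≤ 2 := fun z => by
    refine (abs_sub _ _).trans ?_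
    rw [abs_mul, abs_one]
    have := mul_le_mul (abs_sign_le (A + z.1 - (B - z.1)))
      (abs_sign_le (A + ((1 - ε) * z.1 + σ * z.2) - (B - ((1 - ε) * z.1 + σ * z.2))))
      (abs_nonneg _) zero_le_one
    linarith
  have hGi : Integrable G (g1.prod g1) :=
    Integrable.of_bound hGm.aestronglyMeasurable 2 (Eventually.of_forall hG2)
  have hpt : ∀ x y, G (x, y) ≤ 2 * (Icc (c - (√ε + σ * |y|)) (c + (√ε + σ * |y|))).indicator
      (fun _ => (1 : ℝ)) x + 2 * √ε * |x| := by
    intro x y
    by_cases hx : x ∈ Icc (c - (√ε + σ * |y|)) (c + (√ε + σ * |y|))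
    · rw [indicator_of_mem hx]
      have := le_abs_self (G (x, y))
      have := hG2 (x, y)
      have : 0 ≤ 2 * √ε * |x| := by positivity
      linarith
    rw [indicator_of_notMem hx]
    by_cases h1 : 1 ≤ √ε * |x|
    · have := le_abs_self (G (x, y))
      have := hG2 (x, y)
      linarith
    have h2 : ε * |x| ≤ √ε := by nlinarith [abs_nonneg x]
    have h3 : G (x, y) = 0 := by
      have hx1 := le_abs_self x
      have hx2 := neg_abs_le x
      have hy1 := mul_le_mul_of_nonneg_left (le_abs_self y) hσ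
      have hy2 := mul_le_mul_of_nonneg_left (neg_abs_le y) hσ
      have hx3 := mul_le_mul_of_nonneg_left hx1 hε.le
      have hx4 := mul_le_mul_of_nonneg_left hx2 hε.le
      have hy0 : 0 ≤ σ * |y| := by positivity
      simp only [mem_Icc, not_and_or, not_le] at hx
      rcases hx with hx | hx
      · simp only [G]
        rw [sign_neg (by linarith), sign_neg (by nlinarith)]
        simp
      · simp only [G]
        rw [sign_pos (by linarith), sign_pos (by nlinarith)]
        simp
    rw [h3]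
    positivity
  have h := integral_integral_swap (f := fun x y => G (x, y)) hGi
  change ∫ x, ∫ y, G (x, y) ∂g1 ∂g1 ≤ _
  rw [h]
  have hin : ∀ y, ∫ x, G (x, y) ∂g1 ≤ 4 * √ε + 2 * σ * |y| := by
    intro y
    have hI : Integrable ((Icc (c - (√ε + σ * |y|)) (c + (√ε + σ * |y|))).indicator
      fun _ => (1 : ℝ)) g1 := (integrable_const _).indicator measurableSet_Icc
    refine (integral_mono (Integrable.of_bound (hGm.comp (by fun_prop)).aestronglyMeasurable 2
      (Eventually.of_forall fun x => hG2 _)) ((hI.const_mul 2).add (int_abs.const_mul _))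
      fun x => hpt x y).trans ?_
    simp only [Pi.add_apply]
    rw [integral_add (hI.const_mul 2) (int_abs.const_mul _), integral_const_mul,
      integral_const_mul]
    have := prob_near c (√ε + σ * |y|) (by positivity)
    have := mul_le_mul_of_nonneg_left exp_abs_le (show 0 ≤ 2 * √ε by positivity)
    linarith
  refine (integral_mono hGi.integral_prod_right
    ((integrable_const _).add (int_abs.const_mul _)) hin).trans ?_
  simp only [Pi.add_apply]
  rw [integral_add (integrable_const _) (int_abs.const_mul _), integral_const_mul (2 * σ)]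
  have := mul_le_mul_of_nonneg_left exp_abs_le (show 0 ≤ 2 * σ by positivity)
  simp only [integral_const, probReal_univ, smul_eq_mul, one_mul]
  linarith

variable (b) in
lemma edge_stable (e : ι) {ε σ : ℝ} (hε : 0 < ε) (hσ : 0 ≤ σ) :
    1 - ∫ z, sg b e z.1 * sg b e (mix (Function.update 1 e (1 - ε)) (Function.update 0 e σ) z)
      ∂(gm ι).prod (gm ι) ≤ 4 * √ε + 2 * σ := by
  let G : (ι → ℝ) × (ι → ℝ) → ℝ := fun z =>
    sg b e z.1 * sg b e (mix (Function.update 1 e (1 - ε)) (Function.update 0 e σ) z)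
  have hGm : Measurable G := ((meas_sg b e).comp measurable_fst).mul
    ((meas_sg b e).comp (meas_mix _ _))
  have hG1 : ∀ z, |G z| ≤ 1 := fun z => by
    rw [abs_mul]
    exact mul_le_one₀ (abs_sg b e _) (abs_nonneg _) (abs_sg b e _)
  have hGi : Integrable G ((gm ι).prod (gm ι)) :=
    Integrable.of_bound hGm.aestronglyMeasurable 1 (Eventually.of_forall hG1)
  have hmix : ∀ x y, mix (Function.update 1 e (1 - ε)) (Function.update 0 e σ) (x, y) =
      Function.update x e ((1 - ε) * x e + σ * y e) := by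
    intro x y
    funext i
    by_cases h : i = e
    · subst h; simp [mix]
    · simp [mix, h]
  have h1 : 1 - ∫ z, G z ∂(gm ι).prod (gm ι) = ∫ z, (1 - G z) ∂(gm ι).prod (gm ι) := by
    rw [integral_sub (integrable_const _) hGi]; simp
  have hGi' : Integrable (fun z => 1 - G z) ((gm ι).prod (gm ι)) := (integrable_const _).sub hGi
  change 1 - ∫ z, G z ∂(gm ι).prod (gm ι) ≤ _
  rw [h1, integral_prod _ hGi', slice e hGi'.integral_prod_left]
  refine (integral_mono_of_nonneg (g := fun _ => 4 * √ε + 2 * σ)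
    (Eventually.of_forall fun x => integral_nonneg fun t => integral_nonneg fun y => ?_)
    (integrable_const _) (Eventually.of_forall fun x => ?_)).trans (by simp)
  · have := le_abs_self (G (Function.update x e t, y))
    have := hG1 (Function.update x e t, y)
    simp only [Pi.zero_apply]
    linarith
  · refine le_trans (le_of_eq ?_) (step_stable (side b e 1 x) (side b e (-1) x) hε hσ)
    beta_reduce
    congr 1
    funext t
    simp only [G, hmix, sg, side_update, Function.update_self]
    exact integral_comp_eval (μ := fun _ : ι => g1) (i := e) (f := fun y =>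
      1 - (SignType.sign (side b e 1 x + t - (side b e (-1) x - t)) : ℝ) *
        (SignType.sign (side b e 1 x + ((1 - ε) * t + σ * y) -
          (side b e (-1) x - ((1 - ε) * t + σ * y))) : ℝ))
      (measurable_const.sub (measurable_const.mul
        (meas_sign.comp (by fun_prop)))).aestronglyMeasurable

end Pool.Agent.Lib.MP_a964b6_mp
end

-- part Pool.Agent.Lib.MP_a964b6_mp.Compare
section

/-! Comparison of the two kinds of noise through the degree-biased spectral sample. -/

namespace Pool.Agent.Lib.MP_a964b6_mp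

open MeasureTheory ProbabilityTheory Set Filter Topology

variable {ι : Type} [Fintype ι] [DecidableEq ι]

def m1 (ρ : ℝ) (α : ι → ℕ) : ℝ := ∏ i, ρ ^ α i

def m2 (q : ℝ) (α : ι → ℕ) : ℝ := ∏ i, if α i = 0 then 1 else q

lemma one_sub_prod_le {κ : Type} (T : Finset κ) (u : κ → ℝ) (h0 : ∀ i, 0 ≤ u i)
    (h1 : ∀ i, u i ≤ 1) : 1 - ∏ i ∈ T, u i ≤ ∑ i ∈ T, (1 - u i) := by
  classical
  induction T using Finset.induction_on with
  | empty => simp
  | insert a T ha ih =>
    rw [Finset.prod_insert ha, Finset.sum_insert ha]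
    have h2 : ∏ i ∈ T, u i ≤ 1 := Finset.prod_le_one (fun i _ => h0 i) fun i _ => h1 i
    nlinarith [h1 a]

lemma card_mul_pow_le {p : ℝ} (hp : 0 < p) (hp1 : p < 1) (s : ℕ) :
    (s : ℝ) * (1 - p) ^ (s - 1) ≤ 1 / p := by
  rw [le_div_iff₀ hp]
  cases s with
  | zero => simp
  | succ n =>
    have h : ∀ n : ℕ, ((n : ℝ) + 1) * (1 - p) ^ n * p ≤ 1 - (1 - p) ^ (n + 1) := by
      intro n
      induction n with
      | zero => simp
      | succ n ih =>
        have h1 : 0 ≤ (1 - p) ^ n := pow_nonneg (by linarith) n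
        have h2 : 0 ≤ ((n : ℝ) + 1) * (1 - p) ^ n * p * p := by positivity
        push_cast
        rw [pow_succ (1 - p) (n + 1), pow_succ (1 - p) n] at *
        nlinarith
    have := h n
    have h3 : 0 ≤ (1 - p) ^ (n + 1) := pow_nonneg (by linarith) _
    simp only [Nat.add_sub_cancel]
    push_cast
    linarith

lemma m1_le_m2 {ρ : ℝ} (h0 : 0 ≤ ρ) (h1 : ρ ≤ 1) (α : ι → ℕ) : m1 ρ α ≤ m2 ρ α := by
  refine Finset.prod_le_prod (fun i _ => pow_nonneg h0 _) fun i _ => ?_
  split_ifs with h
  · simp [h]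
  · exact pow_le_of_le_one h0 h1 h

lemma pointwise {p ρ : ℝ} (hp : 0 < p) (hp1 : p < 1) (h0 : 0 ≤ ρ) (h1 : ρ ≤ 1) (β : ι → ℕ) :
    ∑ e, (β e : ℝ) * (m2 (1 - p) (β - Pi.single e 1) - m1 ρ (β - Pi.single e 1)) ≤
      ∑ e, (β e : ℝ) * ((1 - ρ ^ ((β - Pi.single e 1 : ι → ℕ) e + 1)) / p) := by
  set T := Finset.univ.filter fun i => β i ≠ 0 with hT
  have hsub : ∀ g : ι → ℝ, ∑ e, (β e : ℝ) * g e = ∑ e ∈ T, (β e : ℝ) * g e := by
    intro g
    refine (Finset.sum_subset (Finset.subset_univ _) fun i _ hi => ?_).symm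
    have : β i = 0 := by simpa [hT] using hi
    simp [this]
  have hu0 : ∀ n : ℕ, 0 ≤ ρ ^ n := fun n => pow_nonneg h0 n
  have hu1 : ∀ n : ℕ, ρ ^ n ≤ 1 := fun n => pow_le_one₀ h0 h1
  set U := ∑ i ∈ T, (1 - ρ ^ β i) with hU
  have hU0 : 0 ≤ U := Finset.sum_nonneg fun i _ => sub_nonneg.2 (hu1 _)
  have hq : 0 ≤ 1 - p := by linarith
  have step : ∀ e ∈ T, m2 (1 - p) (β - Pi.single e 1) - m1 ρ (β - Pi.single e 1) ≤
      (1 - p) ^ (T.card - 1) * U := by
    intro e he
    set α : ι → ℕ := β - Pi.single e 1 with hα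
    have a0 : 0 ≤ m2 (1 - p) α := Finset.prod_nonneg fun i _ => by split_ifs <;> linarith
    have a1 : m2 (1 - p) α ≤ 1 :=
      Finset.prod_le_one (fun i _ => by split_ifs <;> linarith) fun i _ => by
        split_ifs <;> linarith
    have a2 : m2 (1 - p) α ≤ (1 - p) ^ (T.card - 1) := by
      rw [← Finset.card_erase_of_mem he, ← Finset.prod_const]
      refine (Finset.prod_le_prod_of_subset_of_le_one (Finset.subset_univ (T.erase e))
        (fun i _ => by split_ifs <;> linarith)
        (fun i _ _ => by split_ifs <;> linarith)).trans (le_of_eq ?_)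
      refine Finset.prod_congr rfl fun i hi => if_neg ?_
      have h2 := Finset.ne_of_mem_erase hi
      have h3 : β i ≠ 0 := by simpa [hT] using Finset.mem_of_mem_erase hi
      simpa [hα, h2] using h3
    have b0 : 0 ≤ m1 ρ α := Finset.prod_nonneg fun i _ => hu0 _
    have b1 : m1 ρ α ≤ 1 := Finset.prod_le_one (fun i _ => hu0 _) fun i _ => hu1 _
    have b2 : 1 - m1 ρ α ≤ U := by
      refine (one_sub_prod_le _ _ (fun i => hu0 _) fun i => hu1 _).trans ?_
      rw [hU, ← Finset.sum_subset (Finset.subset_univ T)]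
      · refine Finset.sum_le_sum fun i _ => ?_
        have := pow_le_pow_of_le_one h0 h1 (show α i ≤ β i by simp [hα])
        linarith
      · intro i _ hi
        have : β i = 0 := by simpa [hT] using hi
        simp [hα, this]
    calc m2 (1 - p) α - m1 ρ α ≤ m2 (1 - p) α * (1 - m1 ρ α) := by nlinarith
      _ ≤ _ := mul_le_mul a2 b2 (by linarith) (pow_nonneg hq _)
  have cheb : (∑ e ∈ T, (β e : ℝ)) * U ≤ T.card * ∑ e ∈ T, (β e : ℝ) * (1 - ρ ^ β e) := by
    refine MonovaryOn.sum_mul_sum_le_card_mul_sum ?_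
    intro i _ j _ hij
    by_contra hlt
    have h2 : β j ≤ β i := by
      have h3 : (β j : ℝ) ≤ β i := (not_le.1 hlt).le
      exact_mod_cast h3
    have := pow_le_pow_of_le_one h0 h1 h2
    simp only at hij
    linarith
  have hW : 0 ≤ ∑ e ∈ T, (β e : ℝ) * (1 - ρ ^ β e) :=
    Finset.sum_nonneg fun i _ => mul_nonneg (Nat.cast_nonneg _) (sub_nonneg.2 (hu1 _))
  rw [hsub, hsub]
  calc _ ≤ ∑ e ∈ T, (β e : ℝ) * ((1 - p) ^ (T.card - 1) * U) :=
        Finset.sum_le_sum fun e he => mul_le_mul_of_nonneg_left (step e he) (Nat.cast_nonneg _)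
    _ = (1 - p) ^ (T.card - 1) * ((∑ e ∈ T, (β e : ℝ)) * U) := by
        rw [← Finset.sum_mul]; ring
    _ ≤ (1 - p) ^ (T.card - 1) * (T.card * ∑ e ∈ T, (β e : ℝ) * (1 - ρ ^ β e)) :=
        mul_le_mul_of_nonneg_left cheb (pow_nonneg hq _)
    _ = (T.card * (1 - p) ^ (T.card - 1)) * ∑ e ∈ T, (β e : ℝ) * (1 - ρ ^ β e) := by ring
    _ ≤ 1 / p * ∑ e ∈ T, (β e : ℝ) * (1 - ρ ^ β e) :=
        mul_le_mul_of_nonneg_right (card_mul_pow_le hp hp1 _) hW
    _ = _ := by
        rw [Finset.mul_sum]
        refine Finset.sum_congr rfl fun e he => ?_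
        have h3 : β e ≠ 0 := by simpa [hT] using he
        have : (β - Pi.single e 1 : ι → ℕ) e + 1 = β e := by
          simp only [Pi.sub_apply, Pi.single_eq_same]; omega
        rw [this]; ring

variable {S : Type} [Fintype S] {b : S → ι → ℝ}

noncomputable def wt (b : S → ι → ℝ) (β : ι → ℕ) : ℝ := co (opt b) β ^ 2 / fac β

lemma wt_nonneg (β : ι → ℕ) : 0 ≤ wt b β := div_nonneg (sq_nonneg _) (fac_pos β).le

lemma fac_add (α : ι → ℕ) (e : ι) : fac (α + Pi.single e 1) = fac α * ((α e : ℝ) + 1) := by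
  rw [fac, fac, ← Finset.mul_prod_erase _ _ (Finset.mem_univ e),
    ← Finset.mul_prod_erase _ _ (Finset.mem_univ e)]
  have : ∏ i ∈ Finset.univ.erase e, (((α + Pi.single e 1 : ι → ℕ) i).factorial : ℝ) =
      ∏ i ∈ Finset.univ.erase e, ((α i).factorial : ℝ) :=
    Finset.prod_congr rfl fun i hi => by simp [Finset.ne_of_mem_erase hi]
  rw [this]
  simp [Nat.factorial_succ]
  ring

lemma Good.hasSum_shift (hb : Good b) (e : ι) {G : (ι → ℕ) → ℝ} {s : ℝ}
    (h : HasSum (fun α => co (sg b e) α ^ 2 / fac α * G α) s) :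
    HasSum (fun β => wt b β * ((β e : ℝ) * G (β - Pi.single e 1))) s := by
  have hinj : Function.Injective fun α : ι → ℕ => α + Pi.single e 1 := add_left_injective _
  refine (hinj.hasSum_iff ?_).1 ?_
  · intro β hβ
    have : β e = 0 := by
      by_contra h0
      refine hβ ⟨β - Pi.single e 1, ?_⟩
      funext i
      by_cases hi : i = e
      · subst hi; simp only [Pi.add_apply, Pi.sub_apply, Pi.single_eq_same]; omega
      · simp [hi]
    simp [this]
  · convert h using 1
    funext α
    have h1 := fac_pos α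
    simp only [Function.comp, wt, hb.co_sg, fac_add, add_tsub_cancel_right, Pi.add_apply,
      Pi.single_eq_same]
    push_cast
    field_simp

noncomputable def c1 (b : S → ι → ℝ) (e : ι) (p : ℝ) : ℝ :=
  ∫ z, sg b e z.1 * sg b e (mix (fun _ => 1 - p) (fun _ => √(2 * p - p ^ 2)) z)
    ∂(gm ι).prod (gm ι)

noncomputable def c2 (b : S → ι → ℝ) (e : ι) (p : ℝ) : ℝ :=
  ∑ R : Finset ι, p ^ R.card * (1 - p) ^ Rᶜ.card *
    ∫ z, sg b e z.1 * sg b e (mix (fun i => if i ∈ R then 0 else 1)
      (fun i => if i ∈ R then 1 else 0) z) ∂(gm ι).prod (gm ι)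

lemma circ {p : ℝ} (hp : 0 < p) (hp1 : p < 1) : (1 - p) ^ 2 + √(2 * p - p ^ 2) ^ 2 = 1 := by
  rw [Real.sq_sqrt (by nlinarith)]; ring

lemma hasSum_c1 (e : ι) {p : ℝ} (hp : 0 < p) (hp1 : p < 1) :
    HasSum (fun α => co (sg b e) α ^ 2 / fac α * m1 (1 - p) α) (c1 b e p) :=
  noise (meas_sg b e) (abs_sg b e) (fun _ => circ hp hp1) fun _ => Real.sqrt_nonneg _

lemma hasSum_c2 (e : ι) (p : ℝ) :
    HasSum (fun α => co (sg b e) α ^ 2 / fac α * m2 (1 - p) α) (c2 b e p) := by
  have h := hasSum_sum (s := Finset.univ) fun (R : Finset ι) _ =>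
    (noise (meas_sg b e) (abs_sg b e) (ρ := fun i => if i ∈ R then 0 else 1)
      (σ := fun i => if i ∈ R then 1 else 0) (fun i => by split_ifs <;> simp)
      (fun i => by split_ifs <;> simp)).mul_left (p ^ R.card * (1 - p) ^ Rᶜ.card)
  refine HasSum.congr_fun h fun α => ?_
  have h1 : m2 (1 - p) α = ∏ i, (p * (0 : ℝ) ^ α i + (1 - p)) :=
    Finset.prod_congr rfl fun i _ => by split_ifs with h <;> simp [h]
  rw [h1, Finset.prod_add, Finset.powerset_univ, Finset.mul_sum]
  refine Finset.sum_congr rfl fun R _ => ?_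
  have h2 : ∏ i, (if i ∈ R then (0 : ℝ) else 1) ^ α i = ∏ i ∈ R, (0 : ℝ) ^ α i := by
    rw [← Finset.prod_subset (Finset.subset_univ R) fun i _ hi => by simp [hi]]
    exact Finset.prod_congr rfl fun i hi => by simp [hi]
  rw [h2, Finset.prod_mul_distrib, Finset.prod_const, Finset.prod_const, Finset.compl_eq_univ_sdiff]
  ring

lemma hasSum_one (e : ι) : HasSum (fun α => co (sg b e) α ^ 2 / fac α) 1 := by
  have h := parseval (memLp_sg b e) (memLp_sg b e)
  rw [sg_sq] at h
  simpa only [sq] using h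

lemma c1_nonneg (e : ι) {p : ℝ} (hp : 0 < p) (hp1 : p < 1) : 0 ≤ c1 b e p :=
  (hasSum_c1 e hp hp1).nonneg fun α => mul_nonneg (div_nonneg (sq_nonneg _) (fac_pos α).le)
    (Finset.prod_nonneg fun _ _ => pow_nonneg (by linarith) _)

lemma c1_le_c2 (e : ι) {p : ℝ} (hp : 0 < p) (hp1 : p < 1) : c1 b e p ≤ c2 b e p :=
  hasSum_le (fun α => mul_le_mul_of_nonneg_left (m1_le_m2 (by linarith) (by linarith) α)
    (div_nonneg (sq_nonneg _) (fac_pos α).le)) (hasSum_c1 e hp hp1) (hasSum_c2 e p)

lemma c2_le_one (e : ι) {p : ℝ} (hp : 0 < p) (hp1 : p < 1) : c2 b e p ≤ 1 :=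
  hasSum_le (fun α => mul_le_of_le_one_right (div_nonneg (sq_nonneg _) (fac_pos α).le)
    (Finset.prod_le_one (fun i _ => by split_ifs <;> linarith) fun i _ => by
      split_ifs <;> linarith)) (hasSum_c2 e p) (hasSum_one e)

lemma exists_edge (e : ι) {ε : ℝ} (hε : 0 < ε) (hε1 : ε < 1) :
    ∃ s ≤ 8 * √ε, HasSum (fun α => co (sg b e) α ^ 2 / fac α * (1 - (1 - ε) ^ (α e + 1))) s := by
  have h1 := noise (meas_sg b e) (abs_sg b e) (ρ := Function.update 1 e (1 - ε))
    (σ := Function.update 0 e √(2 * ε - ε ^ 2))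
    (fun i => by
      by_cases h : i = e
      · subst h; simpa using circ hε hε1
      · simp [h])
    (fun i => by
      by_cases h : i = e
      · subst h; simp
      · simp [h])
  have h2 := edge_stable b e hε (Real.sqrt_nonneg (2 * ε - ε ^ 2))
  refine ⟨_, ?_, ((hasSum_one (b := b) e).sub (h1.mul_left (1 - ε))).congr_fun ?_⟩
  · have hs := Real.sqrt_pos.2 hε
    have hss := Real.mul_self_sqrt hε.le
    have h3 : √(2 * ε - ε ^ 2) ≤ 3 / 2 * √ε := by
      rw [Real.sqrt_le_left (by positivity)]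
      nlinarith
    have h4 : ε ≤ √ε := by
      have : √ε ≤ 1 := Real.sqrt_le_one.2 hε1.le
      nlinarith
    nlinarith
  · intro α
    have : ∏ i, Function.update (1 : ι → ℝ) e (1 - ε) i ^ α i = (1 - ε) ^ α e := by
      rw [Finset.prod_eq_single e (fun i _ hi => by simp [hi]) (by simp)]
      simp
    rw [this]
    ring

lemma Good.sum_le (hb : Good b) {p ε : ℝ} (hp : 0 < p) (hp1 : p < 1) (hε : 0 < ε) (hε1 : ε < 1) :
    ∑ e, (c2 b e p - c1 b e ε) ≤ Fintype.card ι * (8 * √ε / p) := by
  choose s hs hs' using fun e => exists_edge (b := b) e hε hε1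
  have h1 := hasSum_sum (s := Finset.univ) fun e _ =>
    hb.hasSum_shift e (G := fun α => m2 (1 - p) α - m1 (1 - ε) α)
      (((hasSum_c2 e p).sub (hasSum_c1 e hε hε1)).congr_fun fun α => by ring)
  have h2 := hasSum_sum (s := Finset.univ) fun e _ =>
    hb.hasSum_shift e (G := fun α => (1 - (1 - ε) ^ (α e + 1)) / p)
      (((hs' e).div_const p).congr_fun fun α => by ring)
  refine (hasSum_le (fun β => ?_) h1 h2).trans ?_
  · rw [← Finset.mul_sum, ← Finset.mul_sum]
    exact mul_le_mul_of_nonneg_left (pointwise hp hp1 (by linarith) (by linarith) β) (wt_nonneg β)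
  · refine (Finset.sum_le_sum fun e _ => div_le_div_of_nonneg_right (hs e) hp.le).trans ?_
    simp

lemma permP (π : ι ≃ ι) : MeasurePreserving (fun y : ι → ℝ => y ∘ π) (gm ι) (gm ι) :=
  measurePreserving_arrowCongr' (fun _ : ι => g1) (fun _ : ι => g1) π.symm
    (MeasurableEquiv.refl ℝ) fun _ => MeasurePreserving.id _

lemma wt_perm {π : ι ≃ ι} (hπ : ∀ J, opt b (J ∘ π) = opt b J) (β : ι → ℕ) :
    wt b (β ∘ π) = wt b β := by
  have h1 : fac (β ∘ π) = fac β := Equiv.prod_comp π fun i => ((β i).factorial : ℝ)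
  have h2 : co (opt b) (β ∘ π) = co (opt b) β := by
    have h3 := integral_map (μ := gm ι) (permP π).measurable.aemeasurable
      (f := fun x => opt b x * HeM (β ∘ π) x)
      ((meas_opt b).mul (cont_HeM _).measurable).aestronglyMeasurable
    rw [(permP π).map_eq] at h3
    rw [co, co, h3]
    congr 1
    funext y
    rw [hπ]
    congr 1
    exact Equiv.prod_comp π fun i => (He (β i)).eval (y i)
  rw [wt, wt, h1, h2]

lemma Good.symm_eq (hb : Good b) {π : ι ≃ ι} (hπ : ∀ J, opt b (J ∘ π) = opt b J) (e : ι)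
    {G : (ι → ℕ) → ℝ} (hG : ∀ α, G (α ∘ π) = G α) {s t : ℝ}
    (hs : HasSum (fun α => co (sg b e) α ^ 2 / fac α * G α) s)
    (ht : HasSum (fun α => co (sg b (π e)) α ^ 2 / fac α * G α) t) : s = t := by
  have h1 := hb.hasSum_shift e hs
  have h2 := hb.hasSum_shift (π e) ht
  rw [← (Equiv.arrowCongr π.symm (Equiv.refl ℕ)).hasSum_iff] at h1
  refine h1.unique (h2.congr_fun fun β => ?_)
  have h3 : β ∘ π - Pi.single e 1 = (β - Pi.single (π e) 1 : ι → ℕ) ∘ π := by
    funext i
    simp [Pi.single_apply]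
  change wt b (β ∘ π) * ((β (π e) : ℝ) * G (β ∘ π - Pi.single e 1)) = _
  rw [wt_perm hπ, h3, hG]

lemma Good.c2_le (hb : Good b)
    (ht : ∀ e e', ∃ π : ι ≃ ι, π e = e' ∧ ∀ J, opt b (J ∘ π) = opt b J) (e : ι)
    {p ε : ℝ} (hp : 0 < p) (hp1 : p < 1) (hε : 0 < ε) (hε1 : ε < 1) :
    c2 b e p ≤ c1 b e ε + 8 * √ε / p := by
  have h := hb.sum_le hp hp1 hε hε1
  have h1 : ∀ e', c2 b e' p - c1 b e' ε = c2 b e p - c1 b e ε := by
    intro e'
    obtain ⟨π, rfl, hπ⟩ := ht e e'
    rw [← hb.symm_eq hπ e (fun α => Equiv.prod_comp π fun i => if α i = 0 then 1 else 1 - p)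
      (hasSum_c2 e p) (hasSum_c2 _ p),
      ← hb.symm_eq hπ e (fun α => Equiv.prod_comp π fun i => (1 - ε) ^ α i)
      (hasSum_c1 e hε hε1) (hasSum_c1 _ hε hε1)]
  simp only [h1, Finset.sum_const, Finset.card_univ, nsmul_eq_mul] at h
  have h2 : (0 : ℝ) < Fintype.card ι := by
    have : Nonempty ι := ⟨e⟩
    exact_mod_cast Fintype.card_pos
  have := le_of_mul_le_mul_left h h2
  linarith

end Pool.Agent.Lib.MP_a964b6_mp
end
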