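import Mathlib

/-! The zero-temperature Edwards-Anderson model on a discrete torus. -/

namespace Pool.Agent.Lib.MP_a964b6_mp

open MeasureTheory ProbabilityTheory

/-- Vertices of the discrete torus of side `n` in dimension `d`. -/
abbrev Vtx (d n : ℕ) : Type := Fin d → ZMod n

/-- The edge `(x, k)` joins `x` and `x + e_k`. -/
abbrev Edge (d n : ℕ) : Type := Vtx d n × Fin d

variable {d n : ℕ}

/-- The product `σ_i σ_j` over the two endpoints of an edge. -/
def bond (σ : Vtx d n → ℤˣ) (e : Edge d n) : ℝ :=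
  ((σ e.1 : ℤ) : ℝ) * ((σ (e.1 + Pi.single e.2 1) : ℤ) : ℝ)

variable [NeZero n]

/-- The Hamiltonian. -/
def ham (J : Edge d n → ℝ) (σ : Vtx d n → ℤˣ) : ℝ := -∑ e, J e * bond σ e

/-- A chosen ground state, that is, a minimiser of the Hamiltonian. -/
noncomputable def gs (J : Edge d n → ℝ) : Vtx d n → ℤˣ :=
  Classical.epsilon fun σ => ∀ τ, ham J σ ≤ ham J τ

/-- Independent standard Gaussian couplings. -/
noncomputable def disorder (d n : ℕ) [NeZero n] : Measure (Edge d n → ℝ) :=
  Measure.pi fun _ => gaussianReal 0 1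

/-- Bond overlap correlation for the perturbation of the first kind; `z = (J, J')`. -/
noncomputable def corr1 (e : Edge d n) (p : ℝ) : ℝ :=
  ∫ z, bond (gs z.1) e * bond (gs fun b => (1 - p) * z.1 b + √(2 * p - p ^ 2) * z.2 b) e
    ∂(disorder d n).prod (disorder d n)

/-- Bond overlap correlation for the perturbation of the second kind; `R` is the random set of
resampled edges. -/
noncomputable def corr2 (e : Edge d n) (p : ℝ) : ℝ :=
  ∑ R : Finset (Edge d n), p ^ R.card * (1 - p) ^ Rᶜ.card *
    ∫ z, bond (gs z.1) e * bond (gs fun b => if b ∈ R then z.2 b else z.1 b) e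
      ∂(disorder d n).prod (disorder d n)

/-- The edge of the torus of side `2 (L + 1)` joining the sites `x` and `x + e_k` of `ℤ ^ d`. -/
def edgeAt (L : ℕ) (x : Fin d → ℤ) (k : Fin d) : Edge d (2 * (L + 1)) := (fun i => x i, k)

end Pool.Agent.Lib.MP_a964b6_mp
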