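import Pool.Agent.Lib.MP_a964b6_mp.Torus
import Pool.Agent.Lib.MP_a964b6_mp.Compare

-- part Pool.Agent.Lib.MP_a964b6_mp.HiB
section

/-! Walks on the torus: a power mean inequality for a weighted adjacency operator. -/

namespace Pool.Agent.Lib.MP_a964b6_mp

open Finset

set_option linter.unusedSectionVars false

variable {d n : ℕ}

/-- Signed steps. -/
abbrev Step (d : ℕ) : Type := Fin d × Bool

/-- The displacement of a step. -/
def vec (n : ℕ) (s : Step d) : Vtx d n := if s.2 then Pi.single s.1 1 else -Pi.single s.1 1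

/-- The edge used by a step. -/
def edg (x : Vtx d n) (s : Step d) : Edge d n := (if s.2 then x else x - Pi.single s.1 1, s.1)

/-- The position of a walk before its `i`-th step. -/
def pos {m : ℕ} (x : Vtx d n) (s : Fin m → Step d) (i : Fin m) : Vtx d n :=
  x + ∑ j, if j < i then vec n (s j) else 0

/-- The weight of a walk. -/
def wgt {m : ℕ} (A : Edge d n → ℝ) (x : Vtx d n) (s : Fin m → Step d) : ℝ :=
  ∏ i, A (edg (pos x s i) (s i))

lemma bond_edg (σ : Vtx d n → ℤˣ) (x : Vtx d n) (s : Step d) :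
    bond σ (edg x s) = ((σ x : ℤ) : ℝ) * ((σ (x + vec n s) : ℤ) : ℝ) := by
  obtain ⟨a, _ | _⟩ := s <;> simp [bond, edg, vec, mul_comm, sub_eq_add_neg]

lemma edg_rev (x : Vtx d n) (s : Step d) : edg (x + vec n s) (s.1, !s.2) = edg x s := by
  obtain ⟨a, _ | _⟩ := s <;> simp [edg, vec, sub_eq_add_neg]

lemma vec_rev (s : Step d) : vec n (s.1, !s.2) = -vec n s := by
  obtain ⟨a, _ | _⟩ := s <;> simp [vec]

lemma wgt_cons {m : ℕ} (A : Edge d n → ℝ) (x : Vtx d n) (t : Step d) (s : Fin m → Step d) :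
    wgt A x (Fin.cons t s : Fin (m + 1) → Step d) = A (edg x t) * wgt A (x + vec n t) s := by
  simp [wgt, pos, Fin.prod_univ_succ, Fin.sum_univ_succ, add_assoc]

variable [NeZero n] (A : Edge d n → ℝ)

/-- The weighted adjacency operator. -/
def adj (h : Vtx d n → ℝ) (x : Vtx d n) : ℝ := ∑ s : Step d, A (edg x s) * h (x + vec n s)

lemma adj_symm (g h : Vtx d n → ℝ) : ∑ x, g x * adj A h x = ∑ x, adj A g x * h x := by
  simp only [adj, mul_sum, sum_mul]
  rw [← Fintype.sum_prod_type', ← Fintype.sum_prod_type']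
  refine Fintype.sum_bijective (fun z => (z.1 + vec n z.2, z.2.1, !z.2.2))
    (Function.Involutive.bijective fun z => ?_) _ _ fun z => ?_
  · simp [vec_rev]
  · simp only [edg_rev, vec_rev, add_neg_cancel_right]; ring

lemma iter_symm (m : ℕ) (g h : Vtx d n → ℝ) :
    ∑ x, g x * (adj A)^[m] h x = ∑ x, (adj A)^[m] g x * h x := by
  induction m generalizing g with
  | zero => rfl
  | succ m ih => rw [Function.iterate_succ_apply', adj_symm, ih, Function.iterate_succ_apply]

lemma iter_eq (m : ℕ) (h : Vtx d n → ℝ) (x : Vtx d n) :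
    (adj A)^[m] h x = ∑ s : Fin m → Step d, wgt A x s * h (x + ∑ j, vec n (s j)) := by
  induction m generalizing x with
  | zero => simp [wgt]
  | succ m ih =>
    rw [Function.iterate_succ_apply', adj, ← (Fin.consEquiv fun _ : Fin (m + 1) => Step d).sum_comp
      fun s => wgt A x s * h (x + ∑ j, vec n (s j)), eq_comm, Fintype.sum_prod_type]
    refine sum_congr rfl fun t _ => ?_
    rw [ih, mul_sum]
    refine sum_congr rfl fun s _ => ?_
    simp [Fin.consEquiv, wgt_cons, Fin.sum_univ_succ, add_assoc, mul_assoc]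

lemma pow_le_iter {u : Vtx d n → ℝ} (hu : ∀ x, u x ^ 2 = 1) (j : ℕ) :
    |(∑ x, u x * adj A u x) / Fintype.card (Vtx d n)| ^ 2 ^ j ≤
      |(∑ x, u x * (adj A)^[2 ^ j] u x) / Fintype.card (Vtx d n)| := by
  have hN : (0 : ℝ) < Fintype.card (Vtx d n) := by exact_mod_cast Fintype.card_pos
  have key (m : ℕ) : ((∑ x, u x * (adj A)^[m] u x) / Fintype.card (Vtx d n)) ^ 2 ≤
      (∑ x, u x * (adj A)^[m + m] u x) / Fintype.card (Vtx d n) := by
    have h1 := sum_mul_sq_le_sq_mul_sq univ u ((adj A)^[m] u)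
    simp only [hu, sum_const, card_univ, nsmul_eq_mul, mul_one] at h1
    rw [Function.iterate_add_apply, iter_symm A m u ((adj A)^[m] u), div_pow,
      div_le_div_iff₀ (by positivity) hN]
    simp only [← sq]
    nlinarith
  induction j with
  | zero => simp
  | succ j ih =>
    rw [pow_succ, pow_mul, mul_two]
    exact (pow_le_pow_left₀ (by positivity) ih 2).trans
      ((sq_abs _).trans_le ((key _).trans (le_abs_self _)))

lemma sum_adj (σ : Vtx d n → ℤˣ) :
    ∑ x, ((σ x : ℤ) : ℝ) * adj A (fun y => ((σ y : ℤ) : ℝ)) x = 2 * ∑ e, A e * bond σ e := by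
  have h1 : ∑ x, ((σ x : ℤ) : ℝ) * adj A (fun y => ((σ y : ℤ) : ℝ)) x =
      ∑ x, ∑ s : Step d, A (edg x s) * bond σ (edg x s) := by
    simp only [adj, mul_sum, bond_edg, mul_left_comm]
  rw [h1, sum_comm, Fintype.sum_prod_type, Fintype.sum_prod_type_right, mul_sum]
  refine sum_congr rfl fun a _ => ?_
  rw [Fintype.sum_bool, two_mul]
  congr 1
  exact (Equiv.subRight (Pi.single a 1 : Vtx d n)).sum_comp fun y => A (y, a) * bond σ (y, a)

/-- The mean of the weights of the reorderings of a walk. -/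
noncomputable def avw {m : ℕ} (x : Vtx d n) (s : Fin m → Step d) : ℝ :=
  (∑ π : Equiv.Perm (Fin m), wgt A x (s ∘ π)) / m.factorial

lemma walk_bound (hd : 0 < d) (σ : Vtx d n → ℤˣ) (j : ℕ) :
    |(∑ e, A e * bond σ e) / Fintype.card (Edge d n)| ^ 2 ^ j ≤
      (∑ x, ∑ s : Fin (2 ^ j) → Step d, |avw A x s|) /
        (Fintype.card (Vtx d n) * (2 * d) ^ 2 ^ j) := by
  have hN : (0 : ℝ) < Fintype.card (Vtx d n) := by exact_mod_cast Fintype.card_pos
  have hd' : (0 : ℝ) < d := by exact_mod_cast hd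
  have hu (x) : ((σ x : ℤ) : ℝ) ^ 2 = 1 := by rcases unit_cases (σ x) with h | h <;> simp [h]
  have hu' (x) : |((σ x : ℤ) : ℝ)| = 1 := by rcases unit_cases (σ x) with h | h <;> simp [h]
  have h1 := pow_le_iter A hu j
  have h2 : (∑ e, A e * bond σ e) / Fintype.card (Edge d n) =
      2 * (∑ e, A e * bond σ e) / Fintype.card (Vtx d n) / (2 * d) := by
    rw [Fintype.card_prod, Fintype.card_fin]; push_cast; field_simp
  rw [sum_adj] at h1
  rw [h2, abs_div, div_pow, abs_of_pos (by positivity : (0 : ℝ) < 2 * d), ← div_div]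
  refine div_le_div_of_nonneg_right (h1.trans ?_) (by positivity)
  rw [abs_div, abs_of_pos hN]
  refine div_le_div_of_nonneg_right ((abs_sum_le_sum_abs _ _).trans
    (sum_le_sum fun x _ => ?_)) hN.le
  have hf : (0 : ℝ) < (2 ^ j).factorial := by exact_mod_cast Nat.factorial_pos _
  have h3 : ∑ s : Fin (2 ^ j) → Step d, wgt A x s * ((σ (x + ∑ i, vec n (s i)) : ℤ) : ℝ) =
      ∑ s : Fin (2 ^ j) → Step d, avw A x s * ((σ (x + ∑ i, vec n (s i)) : ℤ) : ℝ) := by
    simp only [avw, div_mul_eq_mul_div, sum_mul]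
    have h4 (π : Equiv.Perm (Fin (2 ^ j))) : ∑ s : Fin (2 ^ j) → Step d,
        wgt A x (s ∘ π) * ((σ (x + ∑ i, vec n (s i)) : ℤ) : ℝ) =
        ∑ s : Fin (2 ^ j) → Step d, wgt A x s * ((σ (x + ∑ i, vec n (s i)) : ℤ) : ℝ) := by
      refine Fintype.sum_equiv (Equiv.arrowCongr π.symm (Equiv.refl _)) _ _ fun s => ?_
      rw [← Equiv.sum_comp π fun i => vec n (s i)]
      rfl
    rw [← sum_div, sum_comm, eq_div_iff hf.ne']
    simp only [h4, sum_const, card_univ, Fintype.card_perm, Fintype.card_fin, nsmul_eq_mul]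
    ring
  rw [abs_mul, hu', one_mul, iter_eq, h3]
  exact (abs_sum_le_sum_abs _ _).trans (sum_le_sum fun s _ => by rw [abs_mul, hu', mul_one])

/-- Most walks of bounded length use distinct directions. -/
lemma card_noninj (hd : 0 < d) (m : ℕ) :
    ((univ.filter fun s : Fin m → Step d => ¬ Function.Injective fun i => (s i).1).card : ℝ) ≤
      (m : ℝ) ^ 2 / d * (2 * d) ^ m := by
  have hd' : (0 : ℝ) < d := by exact_mod_cast hd
  have h1 : (univ.filter fun s : Fin m → Step d => Function.Injective fun i => (s i).1).card =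
      d.descFactorial m * 2 ^ m := by
    rw [← Fintype.card_subtype]
    refine (Fintype.card_congr
      (((Equiv.arrowProdEquivProdArrow _ _ _).subtypeEquiv
        (q := fun z : (Fin m → Fin d) × (Fin m → Bool) => Function.Injective z.1)
        fun _ => Iff.rfl).trans (Equiv.prodSubtypeFstEquivSubtypeProd.trans
          ((Equiv.subtypeInjectiveEquivEmbedding _ _).prodCongr (Equiv.refl _))))).trans ?_
    simp
  have h2 := card_filter_add_card_filter_not (s := univ)
    fun s : Fin m → Step d => Function.Injective fun i => (s i).1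
  rw [h1, card_univ, Fintype.card_fun, Fintype.card_prod, Fintype.card_fin, Fintype.card_fin,
    Fintype.card_bool] at h2
  have h3 : (d : ℝ) ^ m * (1 - m ^ 2 / d) ≤ d.descFactorial m := by
    rcases le_or_gt m d with h | h
    · have h4 : (((d - m : ℕ) : ℝ)) ^ m ≤ d.descFactorial m := by
        exact_mod_cast (Nat.pow_le_pow_left (by omega) m).trans (Nat.pow_sub_le_descFactorial d m)
      have h5 : (m : ℝ) / d ≤ 1 := (div_le_one hd').2 (by exact_mod_cast h)
      have h6 := one_add_mul_le_pow (show (-2 : ℝ) ≤ -(m / d) by linarith) m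
      rw [Nat.cast_sub h, show (d : ℝ) - m = d * (1 + -(m / d)) by field_simp; ring, mul_pow] at h4
      refine le_trans (mul_le_mul_of_nonneg_left (le_of_eq_of_le (by ring) h6) (by positivity)) h4
    · refine le_trans (mul_nonpos_of_nonneg_of_nonpos (by positivity) ?_) (Nat.cast_nonneg _)
      rw [sub_nonpos, one_le_div hd']
      exact_mod_cast h.le.trans (Nat.le_self_pow two_ne_zero m)
  have h4 := congrArg (Nat.cast : ℕ → ℝ) h2
  push_cast at h4
  have h5 := mul_le_mul_of_nonneg_right h3 (show (0 : ℝ) ≤ 2 ^ m by positivity)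
  rw [mul_pow] at h4 ⊢
  linarith

end Pool.Agent.Lib.MP_a964b6_mp
end

-- part Pool.Agent.Lib.MP_a964b6_mp.HiA
section

/-! Smoothed bond variables, their conditional expectations, and gauge symmetry. -/

namespace Pool.Agent.Lib.MP_a964b6_mp

open MeasureTheory ProbabilityTheory Set Filter Topology

set_option linter.unusedSectionVars false

variable {ι : Type} [Fintype ι] [DecidableEq ι]

/-- Resampling the coordinates in `U`. -/
def res (U : Finset ι) : (ι → ℝ) × (ι → ℝ) → ι → ℝ :=
  mix (fun i => if i ∈ U then 0 else 1) (fun i => if i ∈ U then 1 else 0)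

/-- Conditional expectation given the coordinates outside `U`. -/
noncomputable def cnd (U : Finset ι) (f : (ι → ℝ) → ℝ) (x : ι → ℝ) : ℝ :=
  ∫ y, f (res U (x, y)) ∂gm ι

/-- The indicator that the multi-index vanishes on `U`. -/
def ind (U : Finset ι) (α : ι → ℕ) : ℝ := if ∀ i ∈ U, α i = 0 then 1 else 0

section
variable {f : (ι → ℝ) → ℝ} (hf : Measurable f) (hb : ∀ x, |f x| ≤ 1)

include hf in
lemma meas_cnd (U : Finset ι) : Measurable (cnd U f) :=
  ((hf.comp (meas_mix _ _)).stronglyMeasurable.integral_prod_right').measurable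

include hb in
lemma abs_cnd (U : Finset ι) (x : ι → ℝ) : |cnd U f x| ≤ 1 := by
  simpa [cnd] using norm_integral_le_of_norm_le_const (μ := gm ι) (f := fun y => f (res U (x, y)))
    (C := 1) (Eventually.of_forall fun y => hb _)

include hf hb in
lemma co_cnd (U : Finset ι) (α : ι → ℕ) : co (cnd U f) α = co f α * ind U α := by
  have h : ∀ i, (if i ∈ U then (0 : ℝ) else 1) ^ 2 + (if i ∈ U then (1 : ℝ) else 0) ^ 2 = 1 :=
    fun i => by split_ifs <;> simp
  have hσ : ∀ i, (0 : ℝ) ≤ if i ∈ U then 1 else 0 := fun i => by split_ifs <;> simp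
  have hfm : Measurable fun z => f (res U z) := hf.comp (meas_mix _ _)
  have e1 : co (cnd U f) α = ∫ z, HeM α z.1 * f (res U z) ∂(gm ι).prod (gm ι) := by
    rw [integral_prod _ (((int_HeM α).comp_fst _).mul_bdd (c := 1) hfm.aestronglyMeasurable
      (Eventually.of_forall fun z => hb _)), co]
    simp only [integral_const_mul, cnd, mul_comm]
  have hm : Measurable fun z : (ι → ℝ) × (ι → ℝ) => HeM α z.1 * f (res U z) :=
    ((cont_HeM α).measurable.comp measurable_fst).mul hfm
  rw [e1, ← (reflM h hσ).map_eq, integral_map (reflM h hσ).measurable.aemeasurable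
    hm.aestronglyMeasurable]
  simp only [res, mix_mix h]
  have hi := ((mixP h hσ).integrable_comp (cont_HeM α).aestronglyMeasurable).2 (int_HeM α)
  have hi2 : Integrable (fun z => HeM α (mix (fun i => if i ∈ U then 0 else 1)
      (fun i => if i ∈ U then 1 else 0) z) * f z.1) ((gm ι).prod (gm ι)) :=
    hi.mul_bdd (c := 1) (hf.comp measurable_fst).aestronglyMeasurable
      (Eventually.of_forall fun z => hb _)
  rw [integral_prod _ hi2, co, ← integral_mul_const]
  congr 1
  funext x
  simp only [integral_mul_const, HeM, mix]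
  rw [integral_fintype_prod_eq_prod (fun i y => (He (α i)).eval
    ((if i ∈ U then 0 else 1) * x i + (if i ∈ U then 1 else 0) * y))]
  simp_rw [He_noise (h _)]
  rw [Finset.prod_mul_distrib]
  have : ∏ i, (if i ∈ U then (0 : ℝ) else 1) ^ α i = ind U α := by
    unfold ind
    split_ifs with h1
    · exact Finset.prod_eq_one fun i _ => by
        split_ifs with h2
        exacts [by simp [h1 i h2], one_pow _]
    · push Not at h1
      obtain ⟨i, h2, h3⟩ := h1
      exact Finset.prod_eq_zero (Finset.mem_univ i) (by simp [h2, h3])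
  rw [this]
  ring

/-- The noise operator of the second kind, followed by resampling `U`. -/
noncomputable def smo (p : ℝ) (U : Finset ι) (f : (ι → ℝ) → ℝ) (x : ι → ℝ) : ℝ :=
  ∑ R : Finset ι, p ^ R.card * (1 - p) ^ Rᶜ.card * cnd (R ∪ U) f x

include hf in
lemma meas_smo (p : ℝ) (U : Finset ι) : Measurable (smo p U f) :=
  Finset.measurable_sum _ fun _ _ => (meas_cnd hf _).const_mul _

lemma sum_wts (p : ℝ) (u : ι → ℝ) :
    ∑ R : Finset ι, p ^ R.card * (1 - p) ^ Rᶜ.card * ∏ i ∈ R, u i = ∏ i, (p * u i + (1 - p)) := by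
  rw [Finset.prod_add, Finset.powerset_univ]
  refine Finset.sum_congr rfl fun R _ => ?_
  rw [Finset.prod_mul_distrib, Finset.prod_const, Finset.prod_const, Finset.compl_eq_univ_sdiff]
  ring

include hb in
lemma abs_smo {p : ℝ} (hp : 0 < p) (hp1 : p < 1) (U : Finset ι) (x : ι → ℝ) :
    |smo p U f x| ≤ 1 := by
  have h1 : 0 ≤ 1 - p := by linarith
  refine (Finset.abs_sum_le_sum_abs _ _).trans ((Finset.sum_le_sum fun R _ => ?_).trans
    (le_of_eq ((sum_wts p fun _ => 1).trans (by simp))))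
  rw [abs_mul, abs_of_nonneg (by positivity), Finset.prod_const_one]
  exact mul_le_mul_of_nonneg_left (abs_cnd hb _ x) (by positivity)

include hf hb in
lemma co_smo (p : ℝ) (U : Finset ι) (α : ι → ℕ) :
    co (smo p U f) α = co f α * (m2 (1 - p) α * ind U α) := by
  have h1 : co (smo p U f) α =
      ∑ R : Finset ι, p ^ R.card * (1 - p) ^ Rᶜ.card * co (cnd (R ∪ U) f) α := by
    simp only [co, smo, Finset.sum_mul]
    rw [integral_finsetSum _ fun R _ => ?_]
    · simp only [mul_assoc, integral_const_mul]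
    · simp only [mul_assoc]
      exact (((int_HeM α).bdd_mul (c := 1) (meas_cnd hf _).aestronglyMeasurable
        (Eventually.of_forall (abs_cnd hb _))).const_mul _).const_mul _
  have h2 (R : Finset ι) : ind (R ∪ U) α = (∏ i ∈ R, (0 : ℝ) ^ α i) * ind U α := by
    by_cases h : ∀ i ∈ R, α i = 0
    · rw [Finset.prod_eq_one fun i hi => by simp [h i hi], one_mul]
      simp only [ind, Finset.mem_union, or_imp, forall_and, and_iff_right h]
    · push Not at h
      obtain ⟨i, h2, h3⟩ := h
      rw [Finset.prod_eq_zero h2 (by simp [h3]), zero_mul, ind,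
        if_neg fun h => h3 (h i (Finset.mem_union_left _ h2))]
  have h3 : m2 (1 - p) α = ∏ i, (p * (0 : ℝ) ^ α i + (1 - p)) :=
    Finset.prod_congr rfl fun i _ => by split_ifs with h <;> simp [h]
  rw [h1, h3, ← sum_wts, Finset.sum_mul, Finset.mul_sum]
  exact Finset.sum_congr rfl fun R _ => by rw [co_cnd hf hb, h2]; ring

end

/-- Changing the signs of the coordinates in `Φ`. -/
def flp (Φ : Finset ι) (x : ι → ℝ) : ι → ℝ := fun i => if i ∈ Φ then -x i else x i

lemma flpP (Φ : Finset ι) : MeasurePreserving (flp Φ) (gm ι) (gm ι) :=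
  measurePreserving_pi (fun _ : ι => g1) (fun _ : ι => g1)
    (f := fun i (t : ℝ) => if i ∈ Φ then -t else t) fun i => by
    split_ifs
    · exact ⟨by fun_prop, by rw [gaussianReal_map_neg]; simp⟩
    · exact MeasurePreserving.id _

lemma int_flp (Φ : Finset ι) {g : (ι → ℝ) → ℝ} (hg : Measurable g) :
    ∫ x, g (flp Φ x) ∂gm ι = ∫ x, g x ∂gm ι := by
  rw [← integral_map (flpP Φ).measurable.aemeasurable hg.aestronglyMeasurable, (flpP Φ).map_eq]

lemma smo_flp {f : (ι → ℝ) → ℝ} (hf : Measurable f) {Φ Ψ U : Finset ι} {s : ℝ}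
    (h : ∀ x, f (flp Ψ x) = s * f x) (hU : ∀ i ∉ U, (i ∈ Φ ↔ i ∈ Ψ)) (p : ℝ) (x : ι → ℝ) :
    smo p U f (flp Φ x) = s * smo p U f x := by
  rw [smo, smo, Finset.mul_sum]
  refine Finset.sum_congr rfl fun R _ => ?_
  rw [mul_left_comm s]
  congr 1
  have hm : Measurable fun y => f (res (R ∪ U) (flp Φ x, y)) :=
    hf.comp ((meas_mix _ _).comp measurable_prodMk_left)
  rw [cnd, cnd, ← int_flp Ψ hm, ← integral_const_mul]
  congr 1
  funext y
  rw [← h]
  congr 1
  funext i
  by_cases hi : i ∈ R ∪ U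
  · simp [res, mix, flp, hi]
  · simp [res, mix, flp, hi, hU i fun h => hi (Finset.mem_union_right _ h)]

lemma abs_prod_sub_le {K : Type} (T : Finset K) {u v : K → ℝ} (hu : ∀ k, |u k| ≤ 1)
    (hv : ∀ k, |v k| ≤ 1) : |∏ k ∈ T, u k - ∏ k ∈ T, v k| ≤ ∑ k ∈ T, |u k - v k| := by
  classical
  induction T using Finset.induction_on with
  | empty => simp
  | insert a T ha ih =>
    rw [Finset.prod_insert ha, Finset.prod_insert ha, Finset.sum_insert ha]
    have h1 : |∏ k ∈ T, u k| ≤ 1 := by
      rw [Finset.abs_prod]; exact Finset.prod_le_one (fun _ _ => abs_nonneg _) fun k _ => hu k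
    calc _ = |(u a - v a) * ∏ k ∈ T, u k + v a * (∏ k ∈ T, u k - ∏ k ∈ T, v k)| := by ring_nf
      _ ≤ _ := (abs_add_le _ _).trans (add_le_add
        (by rw [abs_mul]; exact mul_le_of_le_one_right (abs_nonneg _) h1)
        (by rw [abs_mul]; exact (mul_le_of_le_one_left (abs_nonneg _) (hv a)).trans ih))

lemma int_bdd {g : (ι → ℝ) → ℝ} (hg : Measurable g) {c : ℝ} (h : ∀ x, |g x| ≤ c) :
    Integrable g (gm ι) := Integrable.of_bound hg.aestronglyMeasurable c (Eventually.of_forall h)

lemma int_abs_le {g : (ι → ℝ) → ℝ} (hg : Measurable g) {c : ℝ} (h : ∀ x, |g x| ≤ c) {t : ℝ}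
    (ht : 0 < t) (h2 : ∫ x, g x ^ 2 ∂gm ι ≤ t ^ 2) : ∫ x, |g x| ∂gm ι ≤ t := by
  have hi : Integrable (fun x => g x ^ 2) (gm ι) := int_bdd (hg.pow_const 2) (c := c ^ 2)
    fun x => by rw [abs_pow]; exact pow_le_pow_left₀ (abs_nonneg _) (h x) 2
  calc _ ≤ ∫ x, (t / 2 + (2 * t)⁻¹ * g x ^ 2) ∂gm ι :=
        integral_mono (int_bdd hg h).abs ((integrable_const _).add (hi.const_mul _)) fun x => by
          have : 0 ≤ (2 * t)⁻¹ * (|g x| - t) ^ 2 := by positivity
          have e : (2 * t)⁻¹ * (|g x| - t) ^ 2 = t / 2 + (2 * t)⁻¹ * |g x| ^ 2 - |g x| := by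
            field_simp; ring
          rw [e, sq_abs] at this
          simp only; linarith
    _ ≤ t / 2 + (2 * t)⁻¹ * t ^ 2 := by
        rw [integral_add (integrable_const _) (hi.const_mul _), integral_const_mul]
        simp only [integral_const, probReal_univ, smul_eq_mul, one_mul]
        gcongr
    _ = t := by field_simp; ring

variable {S : Type} [Fintype S] (b : S → ι → ℝ)

/-- The loss in the smoothed bond variable when `U` is resampled. -/
noncomputable def loss (p : ℝ) (e : ι) (U : Finset ι) : ℝ :=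
  ∫ x, (smo p ∅ (sg b e) x - smo p U (sg b e) x) ^ 2 ∂gm ι

variable {p : ℝ} (hp : 0 < p) (hp1 : p < 1)
include hp hp1

lemma memLp_smo (e : ι) (U : Finset ι) : MemLp (smo p U (sg b e)) 2 (gm ι) :=
  MemLp.of_bound (meas_smo (meas_sg b e) p U).aestronglyMeasurable 1
    (Eventually.of_forall (abs_smo (abs_sg b e) hp hp1 U))

lemma int_smo (e : ι) : ∫ x, sg b e x * smo p ∅ (sg b e) x ∂gm ι = c2 b e p := by
  refine (parseval (memLp_sg b e) (memLp_smo b hp hp1 e ∅)).unique
    ((hasSum_c2 e p).congr_fun fun α => ?_)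
  rw [co_smo (meas_sg b e) (abs_sg b e), ind, if_pos (by simp)]
  ring

lemma hasSum_loss (e : ι) (U : Finset ι) :
    HasSum (fun α => co (sg b e) α ^ 2 / fac α * (m2 (1 - p) α ^ 2 * (1 - ind U α)))
      (loss b p e U) := by
  have h := (memLp_smo b hp hp1 e ∅).sub (memLp_smo b hp hp1 e U)
  have h1 (α : ι → ℕ) : co (smo p ∅ (sg b e) - smo p U (sg b e)) α =
      co (smo p ∅ (sg b e)) α - co (smo p U (sg b e)) α := by
    simp only [co, Pi.sub_apply, sub_mul]
    exact integral_sub ((memLp_smo b hp hp1 e ∅).integrable_mul (memLp_HeM α))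
      ((memLp_smo b hp hp1 e U).integrable_mul (memLp_HeM α))
  have h2 := parseval h h
  simp only [Pi.sub_apply, ← sq] at h2
  refine h2.congr_fun fun α => ?_
  rw [h1, co_smo (meas_sg b e) (abs_sg b e), co_smo (meas_sg b e) (abs_sg b e),
    show ind ∅ α = 1 by simp [ind], ind]
  split_ifs <;> ring

lemma sum_loss_le (e : ι) {K : Type} (C : Finset K) (U : K → Finset ι)
    (hU : ∀ c ∈ C, ∀ c' ∈ C, ∀ i, i ∈ U c → i ∈ U c' → c = c') :
    ∑ c ∈ C, loss b p e (U c) ≤ 1 / p := by
  classical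
  refine (hasSum_le (fun α => ?_) (hasSum_sum fun c _ => hasSum_loss b hp hp1 e (U c))
    ((hasSum_one (b := b) e).mul_right (1 / p))).trans_eq (one_mul _)
  rw [← Finset.mul_sum, ← Finset.mul_sum]
  refine mul_le_mul_of_nonneg_left ?_ (div_nonneg (sq_nonneg _) (fac_pos α).le)
  set T := Finset.univ.filter fun i => α i ≠ 0 with hT
  have hq : 0 ≤ 1 - p := by linarith
  have h1 : m2 (1 - p) α = (1 - p) ^ T.card := by
    rw [m2, Finset.prod_ite, Finset.prod_const_one, one_mul, Finset.prod_const]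
  have h2 : ∑ c ∈ C, (1 - ind (U c) α) ≤ T.card := by
    have h3 : ∑ c ∈ C, (1 - ind (U c) α) =
        ((C.filter fun c => ¬ ∀ i ∈ U c, α i = 0).card : ℝ) := by
      rw [Finset.card_filter]
      push_cast
      exact Finset.sum_congr rfl fun c _ => by unfold ind; split_ifs <;> simp_all
    rw [h3, Nat.cast_le]
    refine Finset.card_le_card_of_forall_subsingleton (fun c i => i ∈ U c) (fun c hc => ?_)
      fun i _ c hc c' hc' => hU c (Finset.mem_filter.1 hc.1).1 c' (Finset.mem_filter.1 hc'.1).1 i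
        hc.2 hc'.2
    have h4 := (Finset.mem_filter.1 hc).2
    push Not at h4
    obtain ⟨i, h5, h6⟩ := h4
    exact ⟨i, by simpa [hT] using h6, h5⟩
  refine le_trans ?_ (card_mul_pow_le hp hp1 T.card)
  rw [h1, mul_comm, ← pow_mul]
  exact mul_le_mul h2 (pow_le_pow_of_le_one hq (by linarith) (by omega)) (by positivity)
    (Nat.cast_nonneg _)

variable {b}

lemma Good.loss_perm (hb : Good b) {π : ι ≃ ι} (hπ : ∀ J, opt b (J ∘ π) = opt b J) {e : ι}
    {U V : Finset ι} (h : ∀ i, i ∈ U ↔ π i ∈ V) : loss b p e U = loss b p (π e) V := by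
  have h1 := hb.hasSum_shift e (hasSum_loss b hp hp1 e U)
  have h2 := hb.hasSum_shift (π e) (hasSum_loss b hp hp1 (π e) V)
  rw [← (Equiv.arrowCongr π.symm (Equiv.refl ℕ)).hasSum_iff] at h1
  refine h1.unique (h2.congr_fun fun β => ?_)
  have h3 : β ∘ π - Pi.single e 1 = (β - Pi.single (π e) 1 : ι → ℕ) ∘ π := by
    funext i
    simp [Pi.single_apply]
  have h4 (α : ι → ℕ) : ind U (α ∘ π) = ind V α := by
    unfold ind
    refine if_congr ⟨fun h5 i hi => ?_, fun h5 i hi => h5 _ ((h i).1 hi)⟩ rfl rfl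
    simpa using h5 (π.symm i) ((h _).2 (by simpa using hi))
  have h5 (α : ι → ℕ) : m2 (1 - p) (α ∘ π) = m2 (1 - p) α :=
    Equiv.prod_comp π fun i => if α i = 0 then 1 else 1 - p
  change wt b (β ∘ π) * ((β (π e) : ℝ) * (m2 (1 - p) (β ∘ π - Pi.single e 1) ^ 2 *
    (1 - ind U (β ∘ π - Pi.single e 1)))) = _
  rw [wt_perm hπ, h3, h4, h5]

/-- A product of smoothed bond variables nearly vanishes in the mean if a sign change acts almost
as a gauge transformation on each factor, with total sign `-1`. -/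
lemma loop_small {K : Type} [Fintype K] (e : K → ι) (Φ : Finset ι) (Ψ U : K → Finset ι)
    (s : K → ℝ) (hΨ : ∀ k x, sg b (e k) (flp (Ψ k) x) = s k * sg b (e k) x)
    (hU : ∀ k, ∀ i ∉ U k, (i ∈ Φ ↔ i ∈ Ψ k)) (hs : ∏ k, s k = -1) {t : ℝ} (ht : 0 < t)
    (h : ∀ k, loss b p (e k) (U k) ≤ t ^ 2) :
    ∫ x, ∏ k, smo p ∅ (sg b (e k)) x ∂gm ι ≤ Fintype.card K * t := by
  have mA (k) (V) := meas_smo (meas_sg b (e k)) p V
  have bA (k) (V) := abs_smo (abs_sg b (e k)) hp hp1 V
  have mP (V : K → Finset ι) : Measurable fun x => ∏ k, smo p (V k) (sg b (e k)) x :=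
    Finset.measurable_prod _ fun k _ => mA k _
  have iP (V : K → Finset ι) : Integrable (fun x => ∏ k, smo p (V k) (sg b (e k)) x) (gm ι) :=
    int_bdd (mP V) (c := 1) fun x => by
      rw [Finset.abs_prod]; exact Finset.prod_le_one (fun _ _ => abs_nonneg _) fun k _ => bA k _ x
  have h1 : ∫ x, ∏ k, smo p (U k) (sg b (e k)) x ∂gm ι = 0 := by
    have h2 := int_flp Φ (mP U)
    simp only [fun k => smo_flp (meas_sg b _) (hΨ k) (hU k), Finset.prod_mul_distrib, hs,
      neg_one_mul, integral_neg] at h2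
    linarith
  have b2 (k) (x) : |smo p ∅ (sg b (e k)) x - smo p (U k) (sg b (e k)) x| ≤ 2 :=
    (abs_sub _ _).trans (by linarith [bA k ∅ x, bA k (U k) x])
  have mD (k) : Measurable fun x => smo p ∅ (sg b (e k)) x - smo p (U k) (sg b (e k)) x :=
    (mA k _).sub (mA k _)
  have iD (k) : Integrable (fun x => |smo p ∅ (sg b (e k)) x - smo p (U k) (sg b (e k)) x|)
    (gm ι) := (int_bdd (mD k) (b2 k)).abs
  rw [← sub_zero (∫ x, _ ∂gm ι), ← h1, ← integral_sub (iP fun _ => ∅) (iP U)]
  calc _ ≤ ∫ x, ∑ k, |smo p ∅ (sg b (e k)) x - smo p (U k) (sg b (e k)) x| ∂gm ι :=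
        integral_mono ((iP fun _ => ∅).sub (iP U)) (integrable_finsetSum _ fun k _ => iD k) fun x =>
          (le_abs_self _).trans (abs_prod_sub_le _ (fun k => bA k _ x) fun k => bA k _ x)
    _ ≤ ∑ _k : K, t := by
        rw [integral_finsetSum _ fun k _ => iD k]
        exact Finset.sum_le_sum fun k _ => int_abs_le (mD k) (b2 k) ht (h k)
    _ = _ := by simp

end Pool.Agent.Lib.MP_a964b6_mp
end

-- part Pool.Agent.Lib.MP_a964b6_mp.HiC
section

/-! Two different orderings of the same steps have nearly orthogonal weights. -/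

namespace Pool.Agent.Lib.MP_a964b6_mp

open MeasureTheory ProbabilityTheory Finset

set_option linter.unusedSectionVars false

lemma sg_flp {ι : Type} [Fintype ι] [DecidableEq ι] {S : Type} [Fintype S] {b : S → ι → ℝ}
    {Ψ : Finset ι} (τ : S ≃ S) (h : ∀ σ i, b (τ σ) i = if i ∈ Ψ then -b σ i else b σ i) (e : ι)
    (J : ι → ℝ) : sg b e (flp Ψ J) = (if e ∈ Ψ then -1 else 1) * sg b e J := by
  have h1 (s : ℝ) : side b e s (flp Ψ J) = side b e (if e ∈ Ψ then -s else s) J := by
    refine Equiv.iSup_congr (τ.subtypeEquiv fun σ => by rw [h]; split_ifs <;> simp) fun σ => ?_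
    refine sum_congr rfl fun i _ => ?_
    simp only [Equiv.subtypeEquiv_apply, h, flp]
    split_ifs <;> ring
  rw [sg, sg, h1, h1, flp]
  split_ifs
  · rw [neg_neg, neg_one_mul, ← SignType.coe_neg, ← Left.sign_neg]
    congr 2
    ring
  · rw [one_mul]

variable {d n : ℕ} [NeZero n] [Fact (1 < n)]

/-- The edge boundary of a set of vertices. -/
def cut (S : Finset (Vtx d n)) : Finset (Edge d n) :=
  univ.filter fun e => ¬ (e.1 ∈ S ↔ e.1 + Pi.single e.2 1 ∈ S)

lemma sg_cut (S : Finset (Vtx d n)) (e : Edge d n) (J : Edge d n → ℝ) :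
    sg bond e (flp (cut S) J) = (if e ∈ cut S then -1 else 1) * sg bond e J := by
  refine sg_flp (Function.Involutive.toPerm (fun σ x => if x ∈ S then -σ x else σ x)
    fun σ => by funext x; by_cases h : x ∈ S <;> simp [h]) (fun σ i => ?_) e J
  by_cases h1 : i.1 ∈ S <;> by_cases h2 : i.1 + Pi.single i.2 1 ∈ S <;> simp [bond, cut, h1, h2]

variable {p : ℝ} (hp : 0 < p) (hp1 : p < 1)
include hp hp1

lemma loss_dir (e : Edge d n) {c : Fin d} (hc : c ≠ e.2) :
    loss bond p e (univ.filter fun f => f.2 = c) ≤ 1 / (p * (d - 1)) := by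
  have h1 := sum_loss_le bond hp hp1 e (univ.erase e.2) (fun c => univ.filter fun f => f.2 = c)
    fun c _ c' _ i h1 h2 => by simp_all
  have h2 : ∀ c' ∈ univ.erase e.2, loss bond p e (univ.filter fun f => f.2 = c') =
      loss bond p e (univ.filter fun f => f.2 = c) := by
    intro c' hc'
    let κ := Equiv.swap c c'
    let a : Vtx d n ≃ Vtx d n := (Equiv.subRight e.1).trans
      ((Equiv.arrowCongr κ (Equiv.refl (ZMod n))).trans (Equiv.addRight e.1))
    have ha : ∀ y, a y = (y - e.1) ∘ κ + e.1 := fun y => rfl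
    have h3 : a.prodCongr κ e = e := Prod.ext (by ext i; simp [ha])
      (Equiv.swap_apply_of_ne_of_ne hc.symm (ne_of_mem_erase hc').symm)
    rw [good.loss_perm hp hp1 (π := a.prodCongr κ) (opt_aut a _ fun σ f => ?_) (e := e)
      (U := univ.filter fun f => f.2 = c) (V := univ.filter fun f => f.2 = c')
      fun i => by simp [κ, Equiv.swap_apply_eq_iff], h3]
    have : a (f.1 + Pi.single f.2 1) = a f.1 + Pi.single (κ f.2) 1 := by
      funext i
      simp only [ha, Pi.add_apply, Function.comp, Pi.sub_apply, Pi.single_apply,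
        show κ i = f.2 ↔ i = κ f.2 from Equiv.swap_apply_eq_iff]
      ring
    simp [bond, this]
  rw [sum_congr rfl h2, sum_const, nsmul_eq_mul, card_erase_of_mem (mem_univ _), card_univ,
    Fintype.card_fin, Nat.cast_pred c.pos] at h1
  have h4 : (0 : ℝ) < d - 1 := by
    have : 1 < d := by have := c.2; have := e.2.2; have := Fin.val_ne_of_ne hc; omega
    rw [sub_pos]; exact_mod_cast this
  rw [← div_div, le_div_iff₀ h4, mul_comm]
  exact h1

omit hp hp1 in
lemma edg_pos_apply {m : ℕ} (x : Vtx d n) (s : Fin m → Step d) (i : Fin m) {c : Fin d}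
    (hc : c ≠ (s i).1) : (edg (pos x s i) (s i)).1 c =
      x c + ∑ j, if j < i then vec n (s j) c else 0 := by
  have : (edg (pos x s i) (s i)).1 c = pos x s i c := by
    simp only [edg]; split_ifs <;> simp [hc]
  rw [this]
  simp [pos, Finset.sum_apply, ite_apply]

omit hp hp1 in
lemma vec_ne {s : Step d} {c : Fin d} (hc : c ≠ s.1) : vec n s c = 0 := by
  unfold vec; split_ifs <;> simp [hc]

omit hp hp1 in
lemma vec_self (s : Step d) : vec n s s.1 ≠ 0 := by
  unfold vec; split_ifs <;> simp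

lemma two_walks {m : ℕ} {t : ℝ} (ht : 0 < t) (h1 : 1 / (p * (d - 1)) ≤ t ^ 2) (x : Vtx d n)
    {s : Fin m → Step d} (hs : Function.Injective fun i => (s i).1) {τ : Equiv.Perm (Fin m)}
    (hτ : τ ≠ 1) :
    ∫ J, wgt (fun e => smo p ∅ (sg bond e) J) x s * wgt (fun e => smo p ∅ (sg bond e) J) x (s ∘ τ)
      ∂gm (Edge d n) ≤ 2 * m * t := by
  obtain ⟨u, v, huv, hlt⟩ : ∃ u v, u < v ∧ τ v < τ u := by
    by_contra h
    push Not at h
    exact hτ ((Equiv.Perm.monotone_iff τ).1 (monotone_iff_forall_lt.2 h))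
  let e : Fin m ⊕ Fin m → Edge d n :=
    Sum.elim (fun i => edg (pos x s i) (s i)) fun i => edg (pos x (s ∘ τ) i) (s (τ i))
  set a := (s (τ v)).1 with ha
  set b := (s (τ u)).1 with hb
  have hab : b ≠ a := fun h => hlt.ne' (hs h)
  let y := (e (.inl (τ v))).1
  let y' := (e (.inr v)).1
  have hy : y' b ≠ y b := by
    have e1 : y b = x b := (edg_pos_apply x s _ hab).trans (by
      rw [sum_eq_zero fun j _ => ?_, add_zero]
      split_ifs with h
      exacts [vec_ne fun h' => (h.trans hlt).ne' (hs h'), rfl])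
    have e2 : y' b = x b + vec n (s (τ u)) b := (edg_pos_apply x (s ∘ τ) v hab).trans (by
      rw [sum_eq_single u (fun j _ hj => ?_) (by simp), if_pos huv]
      · rfl
      · split_ifs
        exacts [vec_ne fun h' => hj (τ.injective (hs h')).symm, rfl])
    rw [e1, e2, ne_eq, add_eq_left]
    exact vec_self _
  let S : Finset (Vtx d n) := univ.filter fun z => z a = y a ∧ z b = y b
  have h := loop_small hp hp1 e ((cut S).filter fun f => f.2 = a)
    (fun k => cut (if (e k).2 = a then S else ∅))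
    (fun k => univ.filter fun f => f.2 = if (e k).2 = a then b else a) _
    (fun k => sg_cut _ (e k)) (fun k f hf => ?_) ?_ ht
    fun k => (loss_dir hp hp1 _ (by split_ifs with h; exacts [h ▸ hab, Ne.symm h])).trans h1
  · simpa [Fintype.prod_sum_type, e, wgt, two_mul, add_mul] using h
  · split_ifs at hf ⊢ with h
    · refine mem_filter.trans (and_iff_left_of_imp fun h3 => by_contra fun h4 => ?_)
      have h5 : b ≠ f.2 := fun h => hf (by simp [h])
      simp [cut, S, Pi.single_eq_of_ne h5, Pi.single_eq_of_ne (Ne.symm h4)] at h3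
    · simpa [cut] using fun _ => by simpa using hf
  · rw [prod_eq_single (.inl (τ v)) (fun k _ hk => if_neg ?_) (by simp), if_pos]
    · change (y, a) ∈ cut (if a = a then S else ∅)
      simp [cut, S]
    · split_ifs with hka
      · obtain rfl : k = .inr v := by
          rcases k with i | i
          · exact (hk (congrArg _ (hs hka))).elim
          · exact congrArg _ (τ.injective (hs hka))
        change (y', a) ∉ cut S
        simp [cut, S, hy, Pi.single_eq_of_ne hab]
      · simp [cut]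

lemma int_avw {m : ℕ} {t : ℝ} (ht : 0 < t) (h1 : 1 / (p * (d - 1)) ≤ t ^ 2) (x : Vtx d n)
    {s : Fin m → Step d} (hs : Function.Injective fun i => (s i).1) :
    ∫ J, avw (fun e => smo p ∅ (sg bond e) J) x s ^ 2 ∂gm (Edge d n) ≤
      1 / m.factorial + 2 * m * t := by
  have mW (s : Fin m → Step d) : Measurable fun J => wgt (fun e => smo p ∅ (sg bond e) J) x s :=
    Finset.measurable_prod _ fun _ _ => meas_smo (meas_sg _ _) _ _
  have bW (s : Fin m → Step d) (J) : |wgt (fun e => smo p ∅ (sg bond e) J) x s| ≤ 1 := by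
    rw [wgt, abs_prod]
    exact prod_le_one (fun _ _ => abs_nonneg _) fun _ _ => abs_smo (abs_sg _ _) hp hp1 _ _
  have bW2 (s s' : Fin m → Step d) (J) : |wgt (fun e => smo p ∅ (sg bond e) J) x s *
      wgt (fun e => smo p ∅ (sg bond e) J) x s'| ≤ 1 := by
    rw [abs_mul]; exact mul_le_one₀ (bW _ _) (abs_nonneg _) (bW _ _)
  have iW (s s' : Fin m → Step d) : Integrable (fun J => wgt (fun e => smo p ∅ (sg bond e) J) x s *
      wgt (fun e => smo p ∅ (sg bond e) J) x s') (gm (Edge d n)) :=
    int_bdd ((mW s).mul (mW s')) (bW2 s s')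
  have hf : (0 : ℝ) < m.factorial := by exact_mod_cast Nat.factorial_pos _
  simp only [avw, div_pow, sq (∑ _, _), sum_mul_sum]
  rw [integral_div, integral_finsetSum _ fun π _ => integrable_finsetSum _ fun π' _ => iW _ _,
    div_le_iff₀ (by positivity)]
  refine (sum_le_sum (g := fun _ => 1 + m.factorial * (2 * m * t)) fun π _ => ?_).trans_eq (by
    rw [sum_const, card_univ, Fintype.card_perm, Fintype.card_fin, nsmul_eq_mul]; field_simp)
  rw [integral_finsetSum _ fun π' _ => iW _ _]
  refine (sum_le_sum (g := fun π' => (if π' = π then 1 else 0) + 2 * m * t)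
    fun π' _ => ?_).trans_eq (by simp [sum_add_distrib, Fintype.card_perm])
  split_ifs with h
  · refine le_trans ?_ (le_add_of_nonneg_right (by positivity))
    simpa using integral_mono (iW _ _) (integrable_const 1) fun J =>
      (le_abs_self _).trans (bW2 _ _ J)
  · have := two_walks hp hp1 ht h1 x (s := s ∘ π) (hs.comp π.injective) (τ := π⁻¹ * π')
      fun h' => h (inv_mul_eq_one.1 h').symm
    rw [show (s ∘ π) ∘ (π⁻¹ * π' : Equiv.Perm (Fin m)) = s ∘ π' by funext i; simp] at this
    rwa [zero_add]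

lemma c2_eq (e e' : Edge d n) : c2 bond e p = c2 bond e' p := by
  obtain ⟨π, rfl, hπ⟩ := transitive e e'
  exact good.symm_eq hπ e (fun α => Equiv.prod_comp π fun i => if α i = 0 then 1 else 1 - p)
    (hasSum_c2 e p) (hasSum_c2 _ p)

lemma c2_pow_le {j : ℕ} {t r : ℝ} (ht : 0 < t) (hr : 0 < r) (h1 : 1 / (p * (d - 1)) ≤ t ^ 2)
    (h3 : 1 / (2 ^ j).factorial + 2 * (2 ^ j : ℕ) * t ≤ r ^ 2) (e : Edge d n) :
    c2 bond e p ^ 2 ^ j ≤ ((2 ^ j : ℕ) : ℝ) ^ 2 / d + r := by
  have hd0 : 0 < d := e.2.pos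
  have hd' : (0 : ℝ) < d := by exact_mod_cast hd0
  have hN : (0 : ℝ) < Fintype.card (Vtx d n) := by exact_mod_cast Fintype.card_pos
  have hE : (0 : ℝ) < Fintype.card (Edge d n) := by exact_mod_cast Fintype.card_pos_iff.2 ⟨e⟩
  let A : (Edge d n → ℝ) → Edge d n → ℝ := fun J f => smo p ∅ (sg bond f) J
  have mA (f) : Measurable fun J => A J f := meas_smo (meas_sg _ _) _ _
  have bA (J f) : |A J f| ≤ 1 := abs_smo (abs_sg _ _) hp hp1 _ _
  have b1 (f J) : |sg bond f J * A J f| ≤ 1 := by
    rw [abs_mul]; exact mul_le_one₀ (abs_sg _ _ _) (abs_nonneg _) (bA _ _)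
  let g : (Edge d n → ℝ) → ℝ := fun J => (∑ f, sg bond f J * A J f) / Fintype.card (Edge d n)
  have mg : Measurable g :=
    (Finset.measurable_sum _ fun f _ => (meas_sg _ _).mul (mA f)).div_const _
  have bg (J) : |g J| ≤ 1 := by
    rw [abs_div, abs_of_pos hE, div_le_one hE]
    exact (abs_sum_le_sum_abs _ _).trans ((sum_le_sum fun f _ => b1 f J).trans_eq (by simp))
  have e1 : ∫ J, g J ∂gm (Edge d n) = c2 bond e p := by
    have i1 (f) : Integrable (fun J => sg bond f J * A J f) (gm (Edge d n)) :=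
      int_bdd ((meas_sg _ _).mul (mA f)) (b1 f)
    rw [integral_div, integral_finsetSum _ fun f _ => i1 f,
      sum_congr rfl fun f _ => (int_smo bond hp hp1 f).trans (c2_eq hp hp1 f e), sum_const,
      card_univ, nsmul_eq_mul, mul_div_cancel_left₀ _ hE.ne']
  have mW (x) (s : Fin (2 ^ j) → Step d) : Measurable fun J => avw (A J) x s :=
    (Finset.measurable_sum _ fun π _ => Finset.measurable_prod _ fun _ _ => mA _).div_const _
  have bW (x) (s : Fin (2 ^ j) → Step d) (J) : |avw (A J) x s| ≤ 1 := by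
    have hf : (0 : ℝ) < (2 ^ j).factorial := by exact_mod_cast Nat.factorial_pos _
    rw [avw, abs_div, abs_of_pos hf, div_le_one hf]
    refine (abs_sum_le_sum_abs _ _).trans ((sum_le_sum (g := fun _ => 1) fun π _ => ?_).trans_eq
      (by simp [Fintype.card_perm]))
    rw [wgt, abs_prod]
    exact prod_le_one (fun _ _ => abs_nonneg _) fun _ _ => bA _ _
  have iW (x) (s : Fin (2 ^ j) → Step d) : Integrable (fun J => |avw (A J) x s|) (gm (Edge d n)) :=
    (int_bdd (mW x s) (bW x s)).abs
  have ig : Integrable (fun J => |g J| ^ 2 ^ j) (gm (Edge d n)) :=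
    int_bdd (mg.abs.pow_const _) (c := 1) fun J => by
      rw [abs_pow, abs_abs]; exact pow_le_one₀ (abs_nonneg _) (bg J)
  calc c2 bond e p ^ 2 ^ j ≤ (∫ J, |g J| ∂gm (Edge d n)) ^ 2 ^ j :=
        pow_le_pow_left₀ ((c1_nonneg e hp hp1).trans (c1_le_c2 e hp hp1))
          (e1 ▸ (le_abs_self _).trans abs_integral_le_integral_abs) _
    _ ≤ ∫ J, |g J| ^ 2 ^ j ∂gm (Edge d n) :=
        (convexOn_pow (2 ^ j)).map_integral_le (continuous_pow _).continuousOn isClosed_Ici
          (Filter.Eventually.of_forall fun J => abs_nonneg (g J)) (int_bdd mg bg).abs ig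
    _ ≤ ∫ J, (∑ x, ∑ s : Fin (2 ^ j) → Step d, |avw (A J) x s|) /
          (Fintype.card (Vtx d n) * (2 * d) ^ 2 ^ j) ∂gm (Edge d n) := by
        refine integral_mono_ae ig ((integrable_finsetSum _ fun x _ =>
          integrable_finsetSum _ fun s _ => iW x s).div_const _) ?_
        filter_upwards [ae_all_iff.2 (gs_ae (d := d) (n := n))] with J hJ
        simpa only [g, hJ, mul_comm (A J _)] using walk_bound (A J) hd0 (gs J) j
    _ ≤ _ := by
        rw [integral_div, integral_finsetSum _ fun x _ => integrable_finsetSum _ fun s _ => iW x s,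
          div_le_iff₀ (by positivity), mul_left_comm, ← nsmul_eq_mul, ← card_univ, ← sum_const]
        refine sum_le_sum fun x _ => ?_
        rw [integral_finsetSum _ fun s _ => iW x s]
        refine (sum_le_sum (g := fun s => (if ¬ Function.Injective fun i => (s i).1 then 1 else 0)
          + r) fun s _ => ?_).trans ?_
        · split_ifs with h
          · rw [zero_add]
            exact int_abs_le (mW x s) (bW x s) hr ((int_avw hp hp1 ht h1 x h).trans h3)
          · refine le_trans ?_ (le_add_of_nonneg_right hr.le)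
            simpa using integral_mono (iW x s) (integrable_const 1) (bW x s)
        · rw [sum_add_distrib, sum_boole, add_mul]
          refine add_le_add (card_noninj hd0 _) (le_of_eq ?_)
          simp [mul_comm]

omit hp hp1 in
theorem c2_small {ε : ℝ} (hε : 0 < ε) : ∃ C : ℝ, ∀ (d n : ℕ) [NeZero n] [Fact (1 < n)]
    (e : Edge d n) (p : ℝ), 0 < p → p < 1 → C ≤ p * d → c2 bond e p ≤ ε := by
  obtain ⟨j, hj⟩ := (((FloorSemiring.tendsto_pow_div_factorial_atTop (ε ^ 2)⁻¹).comp
    (tendsto_pow_atTop_atTop_of_one_lt (one_lt_two : 1 < 2))).eventually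
      (ge_mem_nhds (show (0 : ℝ) < 1 / 8 by norm_num))).exists
  set m : ℕ := 2 ^ j with hm
  have hm0 : (0 : ℝ) < m := by positivity
  have hf : (0 : ℝ) < m.factorial := by exact_mod_cast Nat.factorial_pos _
  set r := ε ^ m / 2 with hr
  have hr0 : 0 < r := by positivity
  set t := r ^ 2 / (4 * m) with ht
  have ht0 : 0 < t := by positivity
  refine ⟨1 / t ^ 2 + 1 + m ^ 2 / r, fun d n _ _ e p hp hp1 hC => ?_⟩
  have a1 : 0 < 1 / t ^ 2 := by positivity
  have a2 : 0 < m ^ 2 / r := by positivity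
  have hC' : p * d ≤ d := mul_le_of_le_one_left (Nat.cast_nonneg _) hp1.le
  have h := c2_pow_le hp hp1 (j := j) ht0 hr0
    ((one_div_le (by positivity) (by linarith)).1 (by linarith))
    (by
      have h1 : 1 / (m.factorial : ℝ) ≤ r ^ 2 / 2 := by
        simp only [Function.comp, ← hm, inv_pow] at hj
        rw [div_le_iff₀ hf, inv_le_iff_one_le_mul₀ (by positivity)] at hj
        rw [div_le_iff₀ hf, hr, div_pow, ← pow_mul, mul_comm m 2, pow_mul]
        linarith
      have h2 : 2 * m * t = r ^ 2 / 2 := by rw [ht]; field_simp; ring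
      rw [← hm]
      linarith) e
  have h3 : (m : ℝ) ^ 2 / d ≤ r := by
    have : m ^ 2 / r ≤ d := by linarith
    rw [div_le_iff₀ hr0] at this
    rw [div_le_iff₀ (by linarith)]
    linarith
  exact le_of_pow_le_pow_left₀ (by positivity : m ≠ 0) hε.le (by rw [← hm] at h; linarith)

end Pool.Agent.Lib.MP_a964b6_mp
end
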