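import Pool.Agent.Lib.MP_a964b6_mp.HiC

-- part Pool.Agent.Lib.MP_a964b6_mp.LogA
section

/-! The spectral sample of a bond variable: a loop inequality. -/

namespace Pool.Agent.Lib.MP_a964b6_mp

open MeasureTheory ProbabilityTheory Set Filter Topology

set_option linter.unusedSectionVars false

variable {ι : Type} [Fintype ι] [DecidableEq ι]

lemma cnd_flp {f : (ι → ℝ) → ℝ} (hf : Measurable f) {Φ Ψ U : Finset ι} {s : ℝ}
    (h : ∀ x, f (flp Ψ x) = s * f x) (hU : ∀ i ∉ U, (i ∈ Φ ↔ i ∈ Ψ)) (x : ι → ℝ) :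
    cnd U f (flp Φ x) = s * cnd U f x := by
  have hm : Measurable fun y => f (res U (flp Φ x, y)) :=
    hf.comp ((meas_mix _ _).comp measurable_prodMk_left)
  rw [cnd, cnd, ← int_flp Ψ hm, ← integral_const_mul]
  congr 1
  funext y
  rw [← h]
  congr 1
  funext i
  by_cases hi : i ∈ U
  · simp [res, mix, flp, hi]
  · simp [res, mix, flp, hi, hU i hi]

variable {S : Type} [Fintype S] (b : S → ι → ℝ)

/-- The mean of `G` under the spectral measure of the bond variable. -/
noncomputable def ex (e : ι) (G : (ι → ℕ) → ℝ) : ℝ := ∑' α, co (sg b e) α ^ 2 / fac α * G α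

lemma hasSum_ex (e : ι) {G : (ι → ℕ) → ℝ} {M : ℝ} (h0 : ∀ α, 0 ≤ G α) (h1 : ∀ α, G α ≤ M) :
    HasSum (fun α => co (sg b e) α ^ 2 / fac α * G α) (ex b e G) :=
  (Summable.of_nonneg_of_le
    (fun α => mul_nonneg (div_nonneg (sq_nonneg _) (fac_pos α).le) (h0 α))
    (fun α => mul_le_mul_of_nonneg_left (h1 α) (div_nonneg (sq_nonneg _) (fac_pos α).le))
    ((hasSum_one (b := b) e).summable.mul_right M)).hasSum

lemma hasSum_miss (e : ι) (U : Finset ι) :
    HasSum (fun α => co (sg b e) α ^ 2 / fac α * (1 - ind U α))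
      (1 - ∫ x, sg b e x * cnd U (sg b e) x ∂gm ι) := by
  refine ((hasSum_one (b := b) e).sub (parseval (memLp_sg b e) (MemLp.of_bound
    (meas_cnd (meas_sg b e) U).aestronglyMeasurable 1
    (Eventually.of_forall (abs_cnd (abs_sg b e) U))))).congr_fun fun α => ?_
  rw [co_cnd (meas_sg b e) (abs_sg b e)]
  ring

/-- The loop inequality. -/
lemma loop_ineq {K : Type} [Fintype K] (e : K → ι) (Φ : Finset ι) (Ψ U : K → Finset ι)
    (s : K → ℝ) (hΨ : ∀ k x, sg b (e k) (flp (Ψ k) x) = s k * sg b (e k) x)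
    (hU : ∀ k, ∀ i ∉ U k, (i ∈ Φ ↔ i ∈ Ψ k)) (hs : ∏ k, s k = -1)
    (hl : ∀ᵐ x ∂gm ι, ∏ k, sg b (e k) x = 1) :
    1 ≤ ∑ k, (1 - ∫ x, sg b (e k) x * cnd (U k) (sg b (e k)) x ∂gm ι) := by
  have mA (k) := meas_cnd (meas_sg b (e k)) (U k)
  have bA (k) := abs_cnd (abs_sg b (e k)) (U k)
  have mP : Measurable fun x => ∏ k, cnd (U k) (sg b (e k)) x :=
    Finset.measurable_prod _ fun k _ => mA k
  have iP : Integrable (fun x => ∏ k, cnd (U k) (sg b (e k)) x) (gm ι) :=
    int_bdd mP (c := 1) fun x => by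
      rw [Finset.abs_prod]; exact Finset.prod_le_one (fun _ _ => abs_nonneg _) fun k _ => bA k x
  have h1 : ∫ x, ∏ k, cnd (U k) (sg b (e k)) x ∂gm ι = 0 := by
    have h2 := int_flp Φ mP
    simp only [fun k => cnd_flp (meas_sg b _) (hΨ k) (hU k), Finset.prod_mul_distrib, hs,
      neg_one_mul, integral_neg] at h2
    linarith
  have b1 (k) (x) : |sg b (e k) x * cnd (U k) (sg b (e k)) x| ≤ 1 := by
    rw [abs_mul]; exact mul_le_one₀ (abs_sg _ _ _) (abs_nonneg _) (bA k x)
  have i1 (k) : Integrable (fun x => sg b (e k) x * cnd (U k) (sg b (e k)) x) (gm ι) :=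
    int_bdd ((meas_sg _ _).mul (mA k)) (b1 k)
  have i2 (k) : Integrable (fun x => 1 - sg b (e k) x * cnd (U k) (sg b (e k)) x) (gm ι) :=
    (integrable_const _).sub (i1 k)
  calc (1 : ℝ) = ∫ x, (1 - ∏ k, cnd (U k) (sg b (e k)) x) ∂gm ι := by
        rw [integral_sub (integrable_const _) iP, h1]; simp
    _ ≤ ∫ x, ∑ k, (1 - sg b (e k) x * cnd (U k) (sg b (e k)) x) ∂gm ι := by
        refine integral_mono_ae ((integrable_const _).sub iP)
          (integrable_finsetSum _ fun k _ => i2 k) ?_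
        filter_upwards [hl] with x hx
        have h := abs_prod_sub_le Finset.univ (u := fun _ => 1) (fun _ => by simp) fun k => b1 k x
        rw [Finset.prod_const_one, Finset.prod_mul_distrib, hx, one_mul] at h
        exact (le_abs_self _).trans (h.trans_eq (Finset.sum_congr rfl fun k _ =>
          abs_of_nonneg (sub_nonneg.2 ((le_abs_self _).trans (b1 k x)))))
    _ = _ := by
        rw [integral_finsetSum _ fun k _ => i2 k]
        exact Finset.sum_congr rfl fun k _ => by
          rw [integral_sub (integrable_const _) (i1 k)]; simp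

/-- The number of points of the support in `W`, truncated at `w`. -/
def cnt (w : ℕ) (W : Finset ι) (α : ι → ℕ) : ℝ := (min w (W.filter fun i => α i ≠ 0).card : ℕ)

lemma hasSum_cnt (e : ι) (w : ℕ) (W : Finset ι) :
    HasSum (fun α => co (sg b e) α ^ 2 / fac α * cnt w W α) (ex b e (cnt w W)) :=
  hasSum_ex b e (M := w) (fun _ => Nat.cast_nonneg _) fun _ => Nat.cast_le.2 (min_le_left _ _)

lemma sum_miss_le (e : ι) {w : ℕ} (U : Fin w → Finset ι) {W : Finset ι} (hW : ∀ t, U t ⊆ W)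
    (hU : ∀ t t' i, i ∈ U t → i ∈ U t' → t = t') :
    ∑ t, (1 - ∫ x, sg b e x * cnd (U t) (sg b e) x ∂gm ι) ≤ ex b e (cnt w W) := by
  refine hasSum_le (fun α => ?_) (hasSum_sum fun t _ => hasSum_miss b e (U t))
    (hasSum_cnt b e w W)
  rw [← Finset.mul_sum]
  refine mul_le_mul_of_nonneg_left ?_ (div_nonneg (sq_nonneg _) (fac_pos α).le)
  have h3 : ∑ t, (1 - ind (U t) α) =
      ((Finset.univ.filter fun t => ¬ ∀ i ∈ U t, α i = 0).card : ℝ) := by
    rw [Finset.card_filter]
    push_cast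
    exact Finset.sum_congr rfl fun c _ => by unfold ind; split_ifs <;> simp_all
  rw [h3, cnt, Nat.cast_le]
  refine le_min ((Finset.card_filter_le _ _).trans (by simp))
    (Finset.card_le_card_of_forall_subsingleton (fun t i => i ∈ U t) (fun t ht => ?_)
      fun i _ t ht t' ht' => hU t t' i ht.2 ht'.2)
  have h4 := (Finset.mem_filter.1 ht).2
  push Not at h4
  obtain ⟨i, h5, h6⟩ := h4
  exact ⟨i, Finset.mem_filter.2 ⟨hW t h5, h6⟩, h5⟩

lemma half_le_one_sub_pow {p : ℝ} (hp : 0 < p) (hp1 : p < 1) {s t : ℕ} (h2 : s ≤ t)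
    (h3 : p * s ≤ 1) : p / 2 * s ≤ 1 - (1 - p) ^ t := by
  have h4 : (1 - p) ^ t ≤ (1 - p) ^ s := pow_le_pow_of_le_one (by linarith) (by linarith) h2
  have h5 : (1 - p) ^ s * (1 + s * p) ≤ 1 :=
    (mul_le_mul_of_nonneg_left (one_add_mul_le_pow (by linarith) s)
      (pow_nonneg (by linarith) _)).trans (by
        rw [← mul_pow]; exact pow_le_one₀ (by nlinarith) (by nlinarith))
  have h7 : 0 ≤ p * s := by positivity
  have h8 : 0 ≤ (1 - p) ^ s := pow_nonneg (by linarith) _
  rw [mul_comm _ p] at h5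
  rw [div_mul_eq_mul_div]
  generalize (1 - p) ^ s = u at *
  generalize p * s = q at *
  nlinarith

lemma sum_cnt_le (e : ι) {p : ℝ} (hp : 0 < p) (hp1 : p < 1) {K : ℕ} (w : ℕ → ℕ)
    (W : ℕ → Finset ι) (hw : p * (∑ i ∈ Finset.range K, w i : ℕ) ≤ 1)
    (hW : (Finset.range K : Set ℕ).PairwiseDisjoint W) :
    p / 2 * ∑ i ∈ Finset.range K, ex b e (cnt (w i) (W i)) ≤ 1 - c2 b e p := by
  refine hasSum_le (fun α => ?_) ((hasSum_sum fun i _ => hasSum_cnt b e (w i) (W i)).mul_left _)
    ((hasSum_one (b := b) e).sub (hasSum_c2 e p))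
  rw [← Finset.mul_sum, mul_left_comm, ← mul_one_sub]
  refine mul_le_mul_of_nonneg_left ?_ (div_nonneg (sq_nonneg _) (fac_pos α).le)
  set T := Finset.univ.filter fun i => α i ≠ 0 with hT
  have h1 : m2 (1 - p) α = (1 - p) ^ T.card := by
    rw [m2, Finset.prod_ite, Finset.prod_const_one, one_mul, Finset.prod_const]
  set s := ∑ i ∈ Finset.range K, min (w i) ((W i).filter fun j => α j ≠ 0).card with hs
  have h2 : s ≤ T.card := by
    refine (Finset.sum_le_sum fun i _ => min_le_right _ _).trans ?_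
    rw [← Finset.card_biUnion fun i hi j hj h => Finset.disjoint_filter_filter (hW hi hj h)]
    exact Finset.card_le_card (Finset.biUnion_subset.2 fun i _ =>
      Finset.monotone_filter_left _ (Finset.subset_univ _))
  have h3 : p * s ≤ 1 := le_trans (mul_le_mul_of_nonneg_left
    (Nat.cast_le.2 (Finset.sum_le_sum fun i _ => min_le_left _ _)) hp.le) hw
  have h6 : ∑ i ∈ Finset.range K, cnt (w i) (W i) α = s := (Nat.cast_sum _ _).symm
  rw [h1, h6]
  exact half_le_one_sub_pow hp hp1 h2 h3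

end Pool.Agent.Lib.MP_a964b6_mp
end

-- part Pool.Agent.Lib.MP_a964b6_mp.LogB
section

/-! Square loops at every scale give a logarithmic gain. -/

namespace Pool.Agent.Lib.MP_a964b6_mp

open MeasureTheory ProbabilityTheory Finset

set_option linter.unusedSectionVars false

variable {d n : ℕ} [NeZero n] [Fact (1 < n)] (a b : Fin d)

/-- Points of a plane through `x`. -/
def pt (x : Vtx d n) (i j : ℕ) : Vtx d n := x + Pi.single a (i : ZMod n) + Pi.single b (j : ZMod n)

/-- A cylinder over a square. -/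
def sqr (x : Vtx d n) (lo hi : ℕ) : Finset (Vtx d n) := univ.filter fun z =>
  (lo ≤ (z a - x a).val ∧ (z a - x a).val ≤ hi) ∧ lo ≤ (z b - x b).val ∧ (z b - x b).val ≤ hi

open Classical in
/-- A cylinder over a square annulus. -/
noncomputable def ann (w : ℕ) (y : Vtx d n) : Finset (Edge d n) := univ.filter fun f =>
  ∃ i j : ℤ, f.1 a = y a + i ∧ f.1 b = y b + j ∧ w ≤ max |i| |j| ∧ max |i| |j| < 5 * w

/-- The edges of a square loop. -/
def lp (x : Vtx d n) (w : ℕ) (k : Fin (3 * w) × Bool × Bool) : Edge d n :=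
  if k.2.1 then (pt a b x k.1 (if k.2.2 then 3 * w else 0), a)
  else (pt a b x (if k.2.2 then 3 * w else 0) k.1, b)

lemma val_succ (u : ZMod n) : (u + 1).val = u.val + 1 ∨ u.val + 1 = n ∧ (u + 1).val = 0 := by
  have := u.val_lt
  rw [ZMod.val_add, ZMod.val_one]
  rcases (show u.val + 1 ≤ n from this).lt_or_eq with h | h
  exacts [.inl (Nat.mod_eq_of_lt h), .inr ⟨h, by rw [h, Nat.mod_self]⟩]

variable {a b} (hab : a ≠ b)
include hab

lemma pt_a (x : Vtx d n) (i j : ℕ) : pt a b x i j a = x a + i := by simp [pt, hab]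
lemma pt_b (x : Vtx d n) (i j : ℕ) : pt a b x i j b = x b + j := by simp [pt, hab.symm]

lemma mem_cut_sqr {x : Vtx d n} {lo hi : ℕ} (h0 : 0 < lo) (h1 : hi + 1 < n) {f : Edge d n}
    (hf : f ∈ cut (sqr a b x lo hi)) :
    (f.2 = a ∧ ((f.1 a - x a).val + 1 = lo ∨ (f.1 a - x a).val = hi) ∧
      lo ≤ (f.1 b - x b).val ∧ (f.1 b - x b).val ≤ hi) ∨
    (f.2 = b ∧ ((f.1 b - x b).val + 1 = lo ∨ (f.1 b - x b).val = hi) ∧
      lo ≤ (f.1 a - x a).val ∧ (f.1 a - x a).val ≤ hi) := by
  obtain ⟨z, k⟩ := f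
  simp only [cut, sqr, mem_filter, mem_univ, true_and, Pi.add_apply] at hf ⊢
  by_cases ha : k = a
  · subst ha
    rw [Pi.single_eq_same, Pi.single_eq_of_ne hab.symm, add_zero, add_sub_right_comm] at hf
    have := val_succ (z k - x k)
    omega
  by_cases hb : k = b
  · subst hb
    rw [Pi.single_eq_same, Pi.single_eq_of_ne hab, add_zero, add_sub_right_comm] at hf
    have := val_succ (z k - x k)
    omega
  simp [Ne.symm ha, Ne.symm hb] at hf

lemma mem_ann {x : Vtx d n} {w i j : ℕ} {f : Edge d n}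
    (h1 : i + w ≤ (f.1 a - x a).val ∨ (f.1 a - x a).val + w ≤ i ∨
      j + w ≤ (f.1 b - x b).val ∨ (f.1 b - x b).val + w ≤ j)
    (h2 : (f.1 a - x a).val < i + 5 * w ∧ i < (f.1 a - x a).val + 5 * w ∧
      (f.1 b - x b).val < j + 5 * w ∧ j < (f.1 b - x b).val + 5 * w) :
    f ∈ ann a b w (pt a b x i j) := by
  simp only [ann, mem_filter, mem_univ, true_and]
  refine ⟨((f.1 a - x a).val : ℤ) - i, ((f.1 b - x b).val : ℤ) - j, by simp [pt_a hab],
    by simp [pt_b hab], ?_, ?_⟩
  · simp only [le_max_iff, le_abs]; omega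
  · simp only [max_lt_iff, abs_lt]; omega

omit hab in
lemma ann_disjoint (y : Vtx d n) {K : ℕ} (hn : 2 * 5 ^ K ≤ n) :
    (range K : Set ℕ).PairwiseDisjoint fun i => ann a b (5 ^ i) y := by
  have key (i i' : ℤ) (h : (i : ZMod n) = i') (h1 : |i| < 5 ^ K) (h2 : |i'| < 5 ^ K) : i = i' := by
    have h3 : (2 * 5 ^ K : ℤ) ≤ n := by exact_mod_cast hn
    refine (sub_eq_zero.1 (Int.eq_zero_of_abs_lt_dvd
      ((ZMod.intCast_eq_intCast_iff_dvd_sub _ _ _).1 h) ?_)).symm
    linarith [abs_sub i' i]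
  have lt (u v : ℕ) (h : u < v) : (5 * (5 ^ u : ℕ) : ℤ) ≤ (5 ^ v : ℕ) := by
    rw [← Nat.cast_ofNat, ← Nat.cast_mul, Nat.cast_le, ← pow_succ']
    exact Nat.pow_le_pow_right (by norm_num) h
  intro u hu v hv huv
  refine disjoint_left.2 fun f h1 h2 => ?_
  simp only [ann, mem_filter, mem_univ, true_and] at h1 h2
  obtain ⟨i, j, e1, e2, h3, h4⟩ := h1
  obtain ⟨i', j', e1', e2', h3', h4'⟩ := h2
  have b1 := h4.trans_le (lt u K (mem_range.1 hu))
  have b2 := h4'.trans_le (lt v K (mem_range.1 hv))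
  push_cast at b1 b2
  rw [max_lt_iff] at b1 b2
  obtain rfl := key i i' (add_left_cancel (e1.symm.trans e1')) b1.1 b2.1
  obtain rfl := key j j' (add_left_cancel (e2.symm.trans e2')) b1.2 b2.2
  rcases lt_or_gt_of_ne huv with h | h
  exacts [(h4.trans_le (lt _ _ h)).not_ge h3', (h4'.trans_le (lt _ _ h)).not_ge h3]

omit hab in
lemma prod_tele (g : ℕ → ℤˣ) (m : ℕ) : ∏ s : Fin m, ((g s : ℤ) : ℝ) * ((g (s + 1) : ℤ) : ℝ) =
    ((g 0 : ℤ) : ℝ) * ((g m : ℤ) : ℝ) := by
  rw [Fin.prod_univ_eq_prod_range fun s => ((g s : ℤ) : ℝ) * ((g (s + 1) : ℤ) : ℝ)]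
  induction m with
  | zero => rcases unit_cases (g 0) with h | h <;> simp [h]
  | succ m ih => rw [prod_range_succ, ih]; rcases unit_cases (g m) with h | h <;> simp [h]

omit hab in
lemma prod_lp (σ : Vtx d n → ℤˣ) (x : Vtx d n) (w : ℕ) : ∏ k, bond σ (lp a b x w k) = 1 := by
  have h1 (i j : ℕ) : pt a b x i j + Pi.single a 1 = pt a b x (i + 1) j := by
    simp [pt, Pi.single_add, add_comm, add_left_comm]
  have h2 (i j : ℕ) : pt a b x i j + Pi.single b 1 = pt a b x i (j + 1) := by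
    simp [pt, Pi.single_add, add_assoc]
  rw [Fintype.prod_prod_type_right]
  simp only [Fintype.prod_prod_type, Fintype.prod_bool, lp, bond, if_true, h1, h2, if_false,
    Bool.false_eq_true]
  rw [prod_tele fun s => σ (pt a b x s (3 * w)), prod_tele fun s => σ (pt a b x s 0),
    prod_tele fun s => σ (pt a b x (3 * w) s), prod_tele fun s => σ (pt a b x 0 s)]
  rcases unit_cases (σ (pt a b x 0 0)) with h1 | h1 <;>
    rcases unit_cases (σ (pt a b x 0 (3 * w))) with h2 | h2 <;>
    rcases unit_cases (σ (pt a b x (3 * w) 0)) with h3 | h3 <;>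
    rcases unit_cases (σ (pt a b x (3 * w) (3 * w))) with h4 | h4 <;> simp [h1, h2, h3, h4]

lemma scale_loop (x : Vtx d n) {w : ℕ} (hn : 5 * w < n) :
    (w : ℝ) ≤ ∑ k, ex bond (lp a b x w k) (cnt w (ann a b w (lp a b x w k).1)) := by
  let S : Fin w → Finset (Vtx d n) := fun t => sqr a b x (w + t + 1) (4 * w + t)
  let Φ : Fin w → Finset (Edge d n) := fun t =>
    (cut (S t)).filter fun f => f.2 = b ∧ (f.1 b - x b).val = w + t
  let U : Fin w → Fin (3 * w) × Bool × Bool → Finset (Edge d n) := fun t k =>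
    if k.2 = (false, true) then cut (S t) \ Φ t else Φ t
  have hc (t : Fin w) {f} (hf : f ∈ cut (S t)) :=
    mem_cut_sqr hab (Nat.succ_pos _) (by have := t.2; omega) hf
  have hU (t k) : U t k ⊆ cut (S t) := by
    simp only [U]; split_ifs; exacts [sdiff_subset, filter_subset _ _]
  have h1 (t : Fin w) := loop_ineq bond (lp a b x w) (Φ t)
    (fun k => cut (if k.2 = (false, true) then S t else ∅)) (U t) _
    (fun k => sg_cut _ (lp a b x w k)) (fun k f hf => by
      simp only [U] at hf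
      split_ifs at hf ⊢
      · exact ⟨fun h => filter_subset _ _ h, fun h => by_contra fun h' => hf (mem_sdiff.2 ⟨h, h'⟩)⟩
      · simpa [cut] using hf) (by
      have ht := t.2
      have hm (s : Fin (3 * w)) : lp a b x w (s, false, true) ∈ cut (S t) ↔ s.1 = w + t := by
        have hs := s.2
        have e : pt a b x (3 * w) s + Pi.single b 1 = pt a b x (3 * w) (s + 1) := by
          simp [pt, Pi.single_add, add_assoc]
        simp only [lp, if_true, if_false, Bool.false_eq_true, cut, S, sqr, mem_filter, mem_univ,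
          true_and, e, pt_a hab, pt_b hab, add_sub_cancel_left]
        rw [ZMod.val_natCast_of_lt (by omega), ZMod.val_natCast_of_lt (by omega),
          ZMod.val_natCast_of_lt (by omega)]
        omega
      rw [prod_eq_single (⟨w + t, by omega⟩, false, true) (fun k _ hk => if_neg ?_) (by simp),
        if_pos rfl, if_pos ((hm _).2 rfl)]
      split_ifs with h
      · obtain ⟨s, k⟩ := k
        obtain rfl : k = (false, true) := h
        exact fun h' => hk (Prod.ext (Fin.ext ((hm s).1 h')) rfl)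
      · simp [cut]) (by
      filter_upwards [ae_all_iff.2 (gs_ae (d := d) (n := n))] with J hJ
      simpa only [hJ] using prod_lp (gs J) x w)
  refine le_trans (by simp) ((sum_le_sum (s := univ) fun t _ => h1 t).trans ?_)
  rw [sum_comm]
  refine sum_le_sum fun k _ => sum_miss_le bond _ (fun t => U t k) (fun t f hf => ?_)
    fun t t' f h h' => ?_
  · have h2 := hc t (hU t k hf)
    have ht := t.2
    obtain ⟨s, k₁, k₂⟩ := k
    have hs := s.2
    rcases k₁ with _ | _ <;> rcases k₂ with _ | _ <;>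
      simp only [U, Φ, lp, if_true, if_false, Bool.false_eq_true, Prod.mk.injEq, and_self,
        Bool.true_eq_false, and_false, false_and, mem_sdiff, mem_filter, not_and] at hf ⊢
    · exact mem_ann hab (by omega) (by omega)
    · have := hf.2 hf.1
      exact mem_ann hab (by omega) (by omega)
    · exact mem_ann hab (by omega) (by omega)
    · exact mem_ann hab (by omega) (by omega)
  · have h2 := hc t (hU t k h)
    have h3 := hc t' (hU t' k h')
    have := t.2
    have := t'.2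
    exact Fin.ext (by omega)

lemma scale_sum {w : ℕ} (hw : 0 < w) (hn : 5 * w < n) : (Fintype.card (Vtx d n) : ℝ) / 6 ≤
    ∑ y : Vtx d n, (ex bond (y, a) (cnt w (ann a b w y)) + ex bond (y, b) (cnt w (ann a b w y))) := by
  have h1 := sum_le_sum fun x (_ : x ∈ univ) => scale_loop hab x hn
  have h2 (c : Fin d) (i j : ℕ) : ∑ x : Vtx d n, ex bond (pt a b x i j, c)
      (cnt w (ann a b w (pt a b x i j))) = ∑ y : Vtx d n, ex bond (y, c) (cnt w (ann a b w y)) :=
    ((Equiv.addRight _).trans (Equiv.addRight _)).sum_comp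
      fun y => ex bond (y, c) (cnt w (ann a b w y))
  rw [sum_comm, Fintype.sum_prod_type] at h1
  simp only [Fintype.sum_prod_type, Fintype.sum_bool, lp, if_true, if_false, Bool.false_eq_true,
    h2, sum_const, card_univ, Fintype.card_fin, nsmul_eq_mul] at h1
  have h3 : (0 : ℝ) < w := by exact_mod_cast hw
  rw [sum_add_distrib]
  push_cast at h1
  nlinarith

lemma c2_log {p : ℝ} (hp : 0 < p) (hp1 : p < 1) {K : ℕ} (hK : p * 5 ^ K ≤ 1) (hn : 2 * 5 ^ K ≤ n)
    (e : Edge d n) : c2 bond e p ≤ 1 - p * K / 24 := by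
  have hN : (0 : ℝ) < Fintype.card (Vtx d n) := by exact_mod_cast Fintype.card_pos
  have h0 : p * (∑ i ∈ range K, 5 ^ i : ℕ) ≤ 1 := by
    refine le_trans (mul_le_mul_of_nonneg_left ?_ hp.le) hK
    exact_mod_cast (Nat.geomSum_lt (by norm_num) fun i hi => mem_range.1 hi).le
  have h1 (y : Vtx d n) (c : Fin d) := (sum_cnt_le bond (y, c) hp hp1 (fun i => 5 ^ i)
    (fun i => ann a b (5 ^ i) y) h0 (ann_disjoint y hn)).trans_eq
      (congrArg (1 - ·) (c2_eq hp hp1 (y, c) e))
  have h2 := sum_le_sum fun y (_ : y ∈ univ) => add_le_add (h1 y a) (h1 y b)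
  have h3 := sum_le_sum fun i (hi : i ∈ range K) => scale_sum (n := n) hab
    (pow_pos (by norm_num) i : 0 < 5 ^ i) (by
      have := Nat.pow_le_pow_right (show 0 < 5 by norm_num) (mem_range.1 hi : i + 1 ≤ K)
      have := pow_pos (show 0 < 5 by norm_num) K
      omega)
  simp only [← mul_add, ← mul_sum, ← sum_add_distrib, sum_const, card_univ, nsmul_eq_mul] at h2
  rw [sum_comm, sum_const, card_range, nsmul_eq_mul] at h3
  have h4 := (mul_le_mul_of_nonneg_left h3 (half_pos hp).le).trans h2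
  nlinarith

end Pool.Agent.Lib.MP_a964b6_mp
end
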