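import Pool.Agent.Lib.MP_a964b6_mp.LogB

-- part Pool.Agent.Lib.MP_a964b6_mp.PowA
section

/-! Gibbs averages and the rotation inequality of Maurey and Pisier. -/

namespace Pool.Agent.Lib.MP_a964b6_mp

open MeasureTheory ProbabilityTheory Set Filter Topology

set_option linter.unusedSectionVars false

variable {ι : Type} [Fintype ι] [DecidableEq ι] {S : Type} [Fintype S] [Nonempty S]
  (b : S → ι → ℝ) (β : ℝ)

/-- The Gibbs weight. -/
noncomputable def gb (J : ι → ℝ) (s : S) : ℝ :=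
  Real.exp (β * en b s J) / ∑ t, Real.exp (β * en b t J)

/-- The Gibbs average. -/
noncomputable def av (g : S → ℝ) (J : ι → ℝ) : ℝ := ∑ s, gb b β J s * g s

/-- The Gibbs average over two replicas. -/
noncomputable def pr (w : S → S → ℝ) (J : ι → ℝ) : ℝ :=
  ∑ s, ∑ t, gb b β J s * gb b β J t * w s t

lemma Z_pos (J : ι → ℝ) : 0 < ∑ t, Real.exp (β * en b t J) :=
  Finset.sum_pos (fun _ _ => Real.exp_pos _) Finset.univ_nonempty

lemma gb_pos (J : ι → ℝ) (s : S) : 0 < gb b β J s := div_pos (Real.exp_pos _) (Z_pos b β J)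

lemma sum_gb (J : ι → ℝ) : ∑ s, gb b β J s = 1 := by
  simp only [gb]
  rw [← Finset.sum_div, div_self (Z_pos b β J).ne']

lemma gb_le (J : ι → ℝ) (s : S) : |gb b β J s| ≤ 1 := by
  rw [abs_of_pos (gb_pos b β J s), ← sum_gb b β J]
  exact Finset.single_le_sum (fun t _ => (gb_pos b β J t).le) (Finset.mem_univ s)

lemma cont_gb (s : S) : Continuous fun J => gb b β J s := by
  refine Continuous.div ?_ ?_ fun J => (Z_pos b β J).ne'
  · unfold en; fun_prop
  · unfold en; fun_prop

lemma cont_av (g : S → ℝ) : Continuous (av b β g) :=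
  continuous_finsetSum _ fun s _ => (cont_gb b β s).mul continuous_const

lemma cont_pr (w : S → S → ℝ) : Continuous (pr b β w) :=
  continuous_finsetSum _ fun s _ => continuous_finsetSum _ fun t _ =>
    ((cont_gb b β s).mul (cont_gb b β t)).mul continuous_const

lemma av_mono {g h : S → ℝ} (H : ∀ s, g s ≤ h s) (J : ι → ℝ) : av b β g J ≤ av b β h J :=
  Finset.sum_le_sum fun s _ => mul_le_mul_of_nonneg_left (H s) (gb_pos b β J s).le

lemma av_const (c : ℝ) (J : ι → ℝ) : av b β (fun _ => c) J = c := by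
  rw [av, ← Finset.sum_mul, sum_gb, one_mul]

lemma abs_av {g : S → ℝ} (hg : ∀ s, |g s| ≤ 1) (J : ι → ℝ) : |av b β g J| ≤ 1 :=
  abs_le.2 ⟨(av_const b β (-1) J).ge.trans (av_mono b β (fun s => (abs_le.1 (hg s)).1) J),
    (av_mono b β (fun s => (abs_le.1 (hg s)).2) J).trans_eq (av_const b β 1 J)⟩

lemma pr_mono {w w' : S → S → ℝ} (H : ∀ s t, w s t ≤ w' s t) (J : ι → ℝ) :
    pr b β w J ≤ pr b β w' J :=
  Finset.sum_le_sum fun s _ => Finset.sum_le_sum fun t _ =>
    mul_le_mul_of_nonneg_left (H s t) (mul_pos (gb_pos b β J s) (gb_pos b β J t)).le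

lemma pr_mul (u v : S → ℝ) (J : ι → ℝ) :
    pr b β (fun s t => u s * v t) J = av b β u J * av b β v J := by
  rw [pr, av, av, Finset.sum_mul_sum]
  exact Finset.sum_congr rfl fun s _ => Finset.sum_congr rfl fun t _ => by ring

lemma pr_const (c : ℝ) (J : ι → ℝ) : pr b β (fun _ _ => c) J = c := by
  have := pr_mul b β (fun _ => c) (fun _ => 1) J
  simpa only [mul_one, av_const] using this

lemma pr_add (w w' : S → S → ℝ) (J : ι → ℝ) :
    pr b β (fun s t => w s t + w' s t) J = pr b β w J + pr b β w' J := by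
  simp only [pr, mul_add, Finset.sum_add_distrib]

lemma pr_smul (c : ℝ) (w : S → S → ℝ) (J : ι → ℝ) :
    pr b β (fun s t => c * w s t) J = c * pr b β w J := by
  simp only [pr, Finset.mul_sum]
  exact Finset.sum_congr rfl fun s _ => Finset.sum_congr rfl fun t _ => by ring

lemma pr_sum {K : Type} (T : Finset K) (w : K → S → S → ℝ) (J : ι → ℝ) :
    pr b β (fun s t => ∑ k ∈ T, w k s t) J = ∑ k ∈ T, pr b β (w k) J := by
  simp only [pr, Finset.mul_sum]
  rw [Finset.sum_comm (s := T)]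
  exact Finset.sum_congr rfl fun s _ => Finset.sum_comm

lemma abs_pr (w : S → S → ℝ) (J : ι → ℝ) : |pr b β w J| ≤ pr b β (fun s t => |w s t|) J := by
  refine abs_le.2 ⟨?_, pr_mono b β (fun s t => le_abs_self _) J⟩
  have := pr_mono b β (w := fun s t => -1 * |w s t|) (w' := w)
    (fun s t => by linarith [neg_abs_le (w s t)]) J
  rwa [pr_smul, neg_one_mul] at this

lemma int_pr (w : S → S → ℝ) : Integrable (pr b β w) (gm ι) :=
  int_bdd (cont_pr b β w).measurable (c := ∑ s, ∑ t, |w s t|) fun J => by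
    refine (abs_pr b β w J).trans ((pr_mono b β (fun s t => ?_) J).trans_eq (pr_const b β _ J))
    exact (Finset.single_le_sum (f := fun t => |w s t|) (fun _ _ => abs_nonneg _)
      (Finset.mem_univ t)).trans (Finset.single_le_sum (f := fun s => ∑ t, |w s t|)
        (fun _ _ => Finset.sum_nonneg fun _ _ => abs_nonneg _) (Finset.mem_univ s))

lemma pr_cov (g v : S → ℝ) (J : ι → ℝ) : pr b β (fun s t => (g s - g t) * (v s - v t)) J =
    2 * (av b β (fun s => g s * v s) J - av b β g J * av b β v J) := by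
  have e : (fun s t => (g s - g t) * (v s - v t)) = fun s t =>
      (g s * v s * 1 + 1 * (g t * v t)) + (-1 * (g s * v t) + -1 * (v s * g t)) := by
    funext s t; ring
  rw [e, pr_add, pr_add, pr_add, pr_mul b β (fun _ => 1) fun t => g t * v t,
    pr_mul b β (fun s => g s * v s) fun _ => 1, pr_smul, pr_smul, pr_mul, pr_mul, av_const]
  ring

lemma av_deriv (g : S → ℝ) {γ : ℝ → ι → ℝ} {v : S → ℝ} {θ : ℝ}
    (h : ∀ s, HasDerivAt (fun θ => en b s (γ θ)) (v s) θ) :
    HasDerivAt (fun θ => av b β g (γ θ))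
      (β / 2 * pr b β (fun s t => (g s - g t) * (v s - v t)) (γ θ)) θ := by
  have h1 (u : S → ℝ) : HasDerivAt (fun θ => ∑ s, Real.exp (β * en b s (γ θ)) * u s)
      (∑ s, Real.exp (β * en b s (γ θ)) * (β * v s) * u s) θ :=
    HasDerivAt.fun_sum fun s _ => ((h s).const_mul β).exp.mul_const _
  have h2 := h1 fun _ => 1
  simp only [mul_one] at h2
  have h3 := (h1 g).fun_div h2 (Z_pos b β _).ne'
  have e (u : S → ℝ) (J) : av b β u J =
      (∑ s, Real.exp (β * en b s J) * u s) / ∑ t, Real.exp (β * en b t J) := by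
    simp only [av, gb, Finset.sum_div, div_mul_eq_mul_div]
  simp only [pr_cov, e]
  refine h3.congr_deriv ?_
  have e1 : ∑ s, Real.exp (β * en b s (γ θ)) * (β * v s) * g s =
      β * ∑ s, Real.exp (β * en b s (γ θ)) * (g s * v s) := by
    rw [Finset.mul_sum]; exact Finset.sum_congr rfl fun s _ => by ring
  have e2 : ∑ s, Real.exp (β * en b s (γ θ)) * (β * v s) =
      β * ∑ s, Real.exp (β * en b s (γ θ)) * v s := by
    rw [Finset.mul_sum]; exact Finset.sum_congr rfl fun s _ => by ring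
  have := (Z_pos b β (γ θ)).ne'
  rw [e1, e2]
  field_simp

lemma HeM_single (i : ι) (x : ι → ℝ) : HeM (Pi.single i 1) x = x i := by
  rw [HeM, Finset.prod_eq_single i (fun j _ h => by simp [h, He_zero]) (by simp)]
  simp [He_succ, He_zero]

lemma memLp_lin (R : Finset ι) (c : ι → ℝ) :
    MemLp (fun y : ι → ℝ => ∑ i ∈ R, y i * c i) 2 (gm ι) :=
  memLp_finsetSum _ fun i _ => by
    simpa only [← HeM_single] using (memLp_HeM (Pi.single i 1)).mul_const (c i)

lemma int_lin (R : Finset ι) (c : ι → ℝ) :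
    ∫ y, |∑ i ∈ R, y i * c i| ∂gm ι ≤ √(∑ i ∈ R, c i ^ 2) := by
  have h := (memLp_lin R c).abs
  have h1 := variance_nonneg (μ := gm ι) |fun y : ι → ℝ => ∑ i ∈ R, y i * c i|
  rw [variance_eq_sub h] at h1
  have h2 (i j : ι) : ∫ y, y i * y j ∂gm ι = if i = j then 1 else 0 := by
    have := HeM_orth (Pi.single i 1) (Pi.single j 1)
    simp only [HeM_single] at this
    rw [this]
    by_cases h : i = j
    · rw [if_pos h, if_pos (by rw [h])]
      exact Finset.prod_eq_one fun k _ => by by_cases h : k = i <;> simp [h]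
    · rw [if_neg h, if_neg fun h' => h (by_contra fun _ => by simpa [h] using congrFun h' i)]
  have h3 (i j : ι) : Integrable (fun y : ι → ℝ => y i * y j * (c i * c j)) (gm ι) := by
    refine Integrable.mul_const ?_ _
    simp only [← HeM_single]
    exact (memLp_HeM _).integrable_mul (memLp_HeM _)
  have h4 : ∫ y, (∑ i ∈ R, y i * c i) ^ 2 ∂gm ι = ∑ i ∈ R, c i ^ 2 := by
    have e (y : ι → ℝ) : (∑ i ∈ R, y i * c i) ^ 2 =
        ∑ i ∈ R, ∑ j ∈ R, y i * y j * (c i * c j) := by
      rw [sq, Finset.sum_mul_sum]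
      exact Finset.sum_congr rfl fun s _ => Finset.sum_congr rfl fun t _ => by ring
    simp only [e]
    rw [integral_finsetSum _ fun i _ => integrable_finsetSum _ fun j _ => h3 i j]
    refine Finset.sum_congr rfl fun i hi => ?_
    rw [integral_finsetSum _ fun j _ => h3 i j]
    simp only [integral_mul_const, h2, ite_mul, zero_mul, one_mul, Finset.sum_ite_eq, if_pos hi, sq]
  refine Real.le_sqrt_of_sq_le ?_
  simp only [Pi.pow_apply, Pi.abs_apply, sq_abs] at h1
  linarith

/-- The rotation inequality. -/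
lemma pisier (hβ : 0 ≤ β) (g : S → ℝ) (hg : ∀ s, |g s| ≤ 1) (R : Finset ι)
    (hz : ∫ z, av b β g z.1 * av b β g (res R z) ∂(gm ι).prod (gm ι) = 0) :
    ∫ x, av b β g x ^ 2 ∂gm ι ≤ β * ∫ x,
      pr b β (fun s t => |g s - g t| * √(∑ i ∈ R, (b s i - b t i) ^ 2)) x ∂gm ι := by
  let ρ : ℝ → ι → ℝ := fun θ i => if i ∈ R then Real.cos θ else 1
  let σ : ℝ → ι → ℝ := fun θ i => if i ∈ R then Real.sin θ else 0
  let D : (ι → ℝ) × (ι → ℝ) → ℝ := fun z => β / 2 * pr b β (fun s t => (g s - g t) *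
    (-∑ i ∈ R, z.2 i * b s i - -∑ i ∈ R, z.2 i * b t i)) z.1
  let E : (ι → ℝ) × (ι → ℝ) → ℝ := fun z => β / 2 * ∑ s, ∑ t,
    gb b β z.1 s * gb b β z.1 t * |g s - g t| * |∑ i ∈ R, z.2 i * (b s i - b t i)|
  have cD : Continuous D := by
    have := cont_gb b β
    simp only [D, pr]
    fun_prop
  have DE (z) : |D z| ≤ E z := by
    simp only [D, E]
    rw [abs_mul, abs_of_nonneg (by positivity : 0 ≤ β / 2)]
    refine mul_le_mul_of_nonneg_left ((abs_pr b β _ _).trans_eq ?_) (by positivity)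
    refine Finset.sum_congr rfl fun s _ => Finset.sum_congr rfl fun t _ => ?_
    beta_reduce
    rw [abs_mul, neg_sub_neg, abs_sub_comm (∑ i ∈ R, _), ← Finset.sum_sub_distrib, ← mul_assoc]
    simp only [mul_sub]
  have i1 (s t : S) : Integrable (fun x => gb b β x s * gb b β x t * |g s - g t|) (gm ι) :=
    (int_bdd ((cont_gb b β s).mul (cont_gb b β t)).measurable (c := 1) fun x => by
      rw [Pi.mul_apply, abs_mul]
      exact mul_le_one₀ (gb_le b β x s) (abs_nonneg _) (gb_le b β x t)).mul_const _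
  have i2 (s t : S) : Integrable (fun z : (ι → ℝ) × (ι → ℝ) =>
      gb b β z.1 s * gb b β z.1 t * |g s - g t| * |∑ i ∈ R, z.2 i * (b s i - b t i)|)
      ((gm ι).prod (gm ι)) :=
    (i1 s t).mul_prod ((memLp_lin R fun i => b s i - b t i).integrable (by simp)).abs
  have iE : Integrable E ((gm ι).prod (gm ι)) :=
    (integrable_finsetSum _ fun s _ => integrable_finsetSum _ fun t _ => i2 s t).const_mul _
  have bE : ∫ z, E z ∂(gm ι).prod (gm ι) ≤ β / 2 * ∫ x,
      pr b β (fun s t => |g s - g t| * √(∑ i ∈ R, (b s i - b t i) ^ 2)) x ∂gm ι := by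
    simp only [E, pr, ← mul_assoc]
    rw [integral_const_mul, integral_finsetSum _ fun s _ => integrable_finsetSum _ fun t _ =>
      i2 s t, integral_finsetSum _ fun s _ => integrable_finsetSum _ fun t _ =>
      (i1 s t).mul_const _]
    refine mul_le_mul_of_nonneg_left (Finset.sum_le_sum fun s _ => ?_) (by positivity)
    rw [integral_finsetSum _ fun t _ => i2 s t,
      integral_finsetSum _ fun t _ => (i1 s t).mul_const _]
    refine Finset.sum_le_sum fun t _ => ?_
    rw [integral_prod_mul (fun x => gb b β x s * gb b β x t * |g s - g t|)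
      fun y : ι → ℝ => |∑ i ∈ R, y i * (b s i - b t i)|, integral_mul_const (√_)]
    exact mul_le_mul_of_nonneg_left (int_lin R _) (integral_nonneg fun x =>
      mul_nonneg (mul_pos (gb_pos b β x s) (gb_pos b β x t)).le (abs_nonneg _))
  have dF (z : (ι → ℝ) × (ι → ℝ)) (θ : ℝ) :
      HasDerivAt (fun θ => av b β g z.1 * av b β g (mix (ρ θ) (σ θ) z))
        (av b β g z.1 * D (mix (ρ θ) (σ θ) z, mix (σ θ) (-ρ θ) z)) θ := by
    refine (av_deriv b β g (γ := fun θ => mix (ρ θ) (σ θ) z) fun s => ?_).const_mul _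
    have h : HasDerivAt (fun θ => en b s (mix (ρ θ) (σ θ) z)) (∑ i, if i ∈ R then
        (-Real.sin θ * z.1 i + Real.cos θ * z.2 i) * b s i else 0) θ := by
      refine HasDerivAt.fun_sum fun i _ => ?_
      simp only [mix, ρ, σ]
      split_ifs
      · exact (((Real.hasDerivAt_cos θ).mul_const _).add
          ((Real.hasDerivAt_sin θ).mul_const _)).mul_const _
      · exact hasDerivAt_const _ _
    refine h.congr_deriv ?_
    rw [Finset.sum_ite_mem, Finset.univ_inter, ← Finset.sum_neg_distrib]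
    refine Finset.sum_congr rfl fun i hi => ?_
    simp only [mix, ρ, σ, Pi.neg_apply, if_pos hi]
    ring
  have mF (θ) : Measurable fun z : (ι → ℝ) × (ι → ℝ) =>
      av b β g z.1 * av b β g (mix (ρ θ) (σ θ) z) :=
    ((cont_av b β g).measurable.comp measurable_fst).mul
      ((cont_av b β g).measurable.comp (meas_mix _ _))
  have mF' (θ) : Measurable fun z : (ι → ℝ) × (ι → ℝ) =>
      av b β g z.1 * D (mix (ρ θ) (σ θ) z, mix (σ θ) (-ρ θ) z) :=
    ((cont_av b β g).measurable.comp measurable_fst).mul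
      (cD.measurable.comp ((meas_mix _ _).prodMk (meas_mix _ _)))
  have bF' (θ z) : ‖av b β g z.1 * D (mix (ρ θ) (σ θ) z, mix (σ θ) (-ρ θ) z)‖ ≤
      E (mix (ρ θ) (σ θ) z, mix (σ θ) (-ρ θ) z) := by
    rw [Real.norm_eq_abs, abs_mul]
    exact (mul_le_of_le_one_left (abs_nonneg _) (abs_av b β hg _)).trans (DE _)
  have iabs (i : ι) : Integrable (fun y : ι → ℝ => |y i|) (gm ι) := by
    simpa only [← HeM_single] using (int_HeM (Pi.single i 1)).abs
  have dΨ (θ) := (hasDerivAt_integral_of_dominated_loc_of_deriv_le (x₀ := θ)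
    (μ := (gm ι).prod (gm ι)) (s := univ) univ_mem
    (bound := fun z => β / 2 * ∑ s, ∑ t, |g s - g t| *
      ∑ i ∈ R, (|z.1 i| + |z.2 i|) * |b s i - b t i|)
    (Eventually.of_forall fun θ => (mF θ).aestronglyMeasurable)
    (Integrable.of_bound (mF θ).aestronglyMeasurable 1 (Eventually.of_forall fun z => by
      rw [Real.norm_eq_abs, abs_mul]
      exact mul_le_one₀ (abs_av b β hg _) (abs_nonneg _) (abs_av b β hg _)))
    (mF' θ).aestronglyMeasurable
    (Eventually.of_forall fun z θ _ => (bF' θ z).trans (by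
      refine mul_le_mul_of_nonneg_left (Finset.sum_le_sum fun s _ => Finset.sum_le_sum
        fun t _ => mul_le_mul (mul_le_of_le_one_left (abs_nonneg _) ?_)
          ((Finset.abs_sum_le_sum_abs _ _).trans (Finset.sum_le_sum fun i hi => ?_))
          (abs_nonneg _) (abs_nonneg _)) (by positivity)
      · exact mul_le_one₀ ((le_abs_self _).trans (gb_le b β _ s)) (gb_pos b β _ t).le
          ((le_abs_self _).trans (gb_le b β _ t))
      · rw [abs_mul]
        refine mul_le_mul_of_nonneg_right ((abs_add_le _ _).trans (add_le_add ?_ ?_))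
          (abs_nonneg _)
        · rw [abs_mul]
          exact mul_le_of_le_one_left (abs_nonneg _) (by simpa [σ, hi] using Real.abs_sin_le_one θ)
        · rw [abs_mul]
          exact mul_le_of_le_one_left (abs_nonneg _) (by simpa [ρ, hi] using Real.abs_cos_le_one θ)))
    ((integrable_finsetSum _ fun s _ => integrable_finsetSum _ fun t _ =>
      (integrable_finsetSum _ fun i _ => (((iabs i).comp_fst _).add
        ((iabs i).comp_snd _)).mul_const _).const_mul _).const_mul _)
    (Eventually.of_forall fun z θ _ => dF z θ)).2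
  have hπ := Real.pi_pos
  have key := norm_image_sub_le_of_norm_deriv_le_segment' (a := 0) (b := Real.pi / 2)
    (C := ∫ z, E z ∂(gm ι).prod (gm ι)) (fun θ _ => (dΨ θ).hasDerivWithinAt) (fun θ hθ => by
      have P := reflM (ρ := ρ θ) (σ := σ θ)
        (fun i => by simp only [ρ, σ]; split_ifs <;> simp) fun i => by
          simp only [σ]
          split_ifs
          exacts [Real.sin_nonneg_of_nonneg_of_le_pi hθ.1 (by linarith [hθ.2]), le_rfl]
      refine (norm_integral_le_of_norm_le ((P.integrable_comp iE.1).2 iE)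
        (Eventually.of_forall (bF' θ))).trans_eq ?_
      have := integral_map (f := E) P.measurable.aemeasurable (by rw [P.map_eq]; exact iE.1)
      rw [P.map_eq] at this
      exact this.symm) (Real.pi / 2) ⟨by linarith, le_rfl⟩
  have e0 (z : (ι → ℝ) × (ι → ℝ)) : mix (ρ 0) (σ 0) z = z.1 := by
    funext i
    simp [mix, ρ, σ]
  have e1 : mix (ρ (Real.pi / 2)) (σ (Real.pi / 2)) = res R := by
    simp only [ρ, σ, Real.cos_pi_div_two, Real.sin_pi_div_two, res]
  simp only [e0, e1, hz, ← sq, zero_sub, norm_neg, sub_zero] at key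
  rw [integral_fun_fst (fun x => av b β g x ^ 2)] at key
  simp only [probReal_univ, one_smul] at key
  have h0 : 0 ≤ ∫ z, E z ∂(gm ι).prod (gm ι) :=
    integral_nonneg fun z => (abs_nonneg _).trans (DE z)
  have := Real.pi_le_four
  nlinarith [le_abs_self (∫ x, av b β g x ^ 2 ∂gm ι), Real.norm_eq_abs (∫ x, av b β g x ^ 2 ∂gm ι)]

end Pool.Agent.Lib.MP_a964b6_mp
end

-- part Pool.Agent.Lib.MP_a964b6_mp.PowB
section

/-! Two-replica disagreements are bounded by influences; the zero temperature limit. -/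

namespace Pool.Agent.Lib.MP_a964b6_mp

open MeasureTheory ProbabilityTheory Set Filter Topology

set_option linter.unusedSectionVars false

lemma int_g1 {P : ℝ → ℝ} (m : Measurable P) {c : ℝ} (h : ∀ y, |P y| ≤ c) : Integrable P g1 :=
  Integrable.of_bound m.aestronglyMeasurable c (Eventually.of_forall h)

lemma int_id_mul {P : ℝ → ℝ} (m : Measurable P) (h : ∀ y, |P y| ≤ 1) :
    Integrable (fun y => y * P y) g1 := by
  have : Integrable (fun y : ℝ => y) g1 := by simpa using int_poly Polynomial.X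
  exact this.mul_bdd m.aestronglyMeasurable (Eventually.of_forall h)

lemma stein_bdd {P P' : ℝ → ℝ} (h : ∀ y, HasDerivAt P (P' y) y) (m : Measurable P') {c : ℝ}
    (h1 : ∀ y, |P y| ≤ 1) (h2 : ∀ y, |P' y| ≤ c) : ∫ y, P' y ∂g1 = ∫ y, y * P y ∂g1 := by
  have mP : Measurable P := (continuous_iff_continuousAt.2 fun y => (h y).continuousAt).measurable
  have i1 := int_g1 m h2
  have i2 := int_id_mul mP h1
  have h3 := integral_eq_zero_of_hasDerivAt_of_integrable (f := fun y => pdf1 y * P y)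
    (f' := fun y => pdf1 y * (P' y - y * P y))
    (fun y => ((pdf1_deriv y).mul (h y)).congr_deriv (by ring)) (int_iff.1 (i1.sub i2))
    (int_iff.1 (int_g1 mP h1))
  rw [← integral_g1, integral_sub i1 i2] at h3
  linarith

lemma oneD {P : ℝ → ℝ} (m : Measurable P) (h0 : ∀ y, 0 ≤ P y) (h1 : ∀ y, P y ≤ 1) {u v K : ℝ}
    (hu : |u| ≤ 1) (hv : |v| ≤ 1) (hK : 1 ≤ K) :
    (1 - u * v) / 2 * ∫ y, y * P y ∂g1 ≤ 1 ∧ (1 - u * v) / 2 * ∫ y, y * P y ∂g1 ≤
      K / 2 * (1 - (∫ y, (P y * u + (1 - P y) * v) ∂g1) ^ 2) + 2 * Real.exp (-K ^ 2 / 2) := by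
  have hb (y) : |P y| ≤ 1 := by rw [abs_of_nonneg (h0 y)]; exact h1 y
  have iP := int_g1 m hb
  have i2 := int_id_mul m hb
  have huv : |u * v| ≤ 1 := by rw [abs_mul]; exact mul_le_one₀ hu (abs_nonneg _) hv
  obtain ⟨q0, q1⟩ := abs_le.1 huv
  have c1 : ∫ y, y * P y ∂g1 ≤ 1 := (integral_mono i2 int_abs fun y => (le_abs_self _).trans (by
    rw [abs_mul]; exact mul_le_of_le_one_right (abs_nonneg _) (hb y))).trans exp_abs_le
  refine ⟨by nlinarith, ?_⟩
  obtain ⟨p, hp⟩ : ∃ p, p = ∫ y, P y ∂g1 := ⟨_, rfl⟩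
  have p0 : 0 ≤ p := hp ▸ integral_nonneg h0
  have p1 : p ≤ 1 := hp ▸ (integral_mono iP (integrable_const 1) h1).trans_eq (by simp)
  have iQ : Integrable (fun y => 1 - P y) g1 := (integrable_const _).sub iP
  have eQ : ∫ y, (1 - P y) ∂g1 = 1 - p := by
    rw [integral_sub (integrable_const _) iP, hp]; simp
  have ex (t : ℝ) : ∫ y, Real.exp (t * y) ∂g1 = Real.exp (t ^ 2 / 2) := by
    simpa [mgf] using congrFun (mgf_fun_id_gaussianReal (μ := 0) (v := 1)) t
  have iE (t : ℝ) : Integrable (fun y => Real.exp (t * y)) g1 := integrable_exp_mul_gaussianReal t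
  have iI : Integrable (fun y : ℝ => y * p) g1 := by
    simpa using (int_poly Polynomial.X).mul_const p
  have c2 : ∫ y, y * P y ∂g1 ≤ 2 * K * (p * (1 - p)) + 2 * Real.exp (-K ^ 2 / 2) := by
    have j1 := ((iP.mul_const (1 - p)).add (iQ.mul_const p)).const_mul K
    have j2 := ((iE K).add (iE (-K))).const_mul (Real.exp (-K ^ 2))
    have h := integral_mono i2 (iI.add (j1.add j2)) fun y => by
      have a1 : |P y - p| ≤ P y * (1 - p) + (1 - P y) * p :=
        abs_le.2 ⟨by nlinarith [h0 y, h1 y], by nlinarith [h0 y, h1 y]⟩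
      have a2 : |P y - p| ≤ 1 := abs_le.2 ⟨by linarith [h0 y], by linarith [h1 y]⟩
      have a3 : Real.exp (K * (|y| - K)) ≤
          Real.exp (-K ^ 2) * (Real.exp (K * y) + Real.exp (-K * y)) := by
        rw [mul_add, ← Real.exp_add, ← Real.exp_add]
        rcases abs_cases y with h | h <;> rw [h.1]
        · exact le_add_of_le_of_nonneg (le_of_eq (by ring_nf)) (Real.exp_pos _).le
        · exact le_add_of_nonneg_of_le (Real.exp_pos _).le (le_of_eq (by ring_nf))
      have a4 : |y| ≤ K + Real.exp (K * (|y| - K)) := by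
        have := Real.add_one_le_exp (K * (|y| - K))
        have := Real.exp_pos (K * (|y| - K))
        rcases le_total |y| K with h | h
        · linarith
        · nlinarith
      have a5 : y * (P y - p) ≤ |y| * |P y - p| := by rw [← abs_mul]; exact le_abs_self _
      have a6 := mul_le_mul_of_nonneg_right a4 (abs_nonneg (P y - p))
      have a7 := mul_le_of_le_one_right (Real.exp_pos (K * (|y| - K))).le a2
      have a8 := mul_le_mul_of_nonneg_left a1 (zero_le_one.trans hK)
      simp only [Pi.add_apply]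
      linarith
    rw [integral_add' iI (j1.add j2), integral_add' j1 j2, integral_const_mul, integral_const_mul,
      integral_add' (iP.mul_const _) (iQ.mul_const _), integral_add' (iE _) (iE _),
      integral_mul_const, integral_mul_const, integral_mul_const, eQ, ← hp, ex, ex,
      integral_id_gaussianReal, neg_sq, ← two_mul, mul_left_comm (Real.exp _), ← Real.exp_add,
      show -K ^ 2 + K ^ 2 / 2 = -K ^ 2 / 2 by ring] at h
    linarith
  rw [integral_add (iP.mul_const _) (iQ.mul_const _), integral_mul_const, integral_mul_const, eQ,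
    ← hp]
  have u2 : u ^ 2 ≤ 1 := by rw [← sq_abs]; exact pow_le_one₀ (abs_nonneg _) hu
  have v2 : v ^ 2 ≤ 1 := by rw [← sq_abs]; exact pow_le_one₀ (abs_nonneg _) hv
  have c3 : 2 * (p * (1 - p)) * (1 - u * v) ≤ 1 - (p * u + (1 - p) * v) ^ 2 := by
    nlinarith [mul_le_mul_of_nonneg_left u2 (sq_nonneg p),
      mul_le_mul_of_nonneg_left v2 (sq_nonneg (1 - p))]
  have c4 := mul_le_mul_of_nonneg_left c2 (show 0 ≤ (1 - u * v) / 2 by linarith)
  have c5 := mul_le_mul_of_nonneg_left c3 (zero_le_one.trans hK)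
  nlinarith [Real.exp_pos (-K ^ 2 / 2)]

variable {ι : Type} [Fintype ι] [DecidableEq ι] {S : Type} [Fintype S] [Nonempty S]
  {b : S → ι → ℝ}

variable (b) in
/-- The indicator that two configurations differ at a coordinate. -/
noncomputable def df (i : ι) (s t : S) : ℝ := (1 - b s i * b t i) / 2

lemma Good.abs_b (hb : Good b) (s : S) (i : ι) : |b s i| ≤ 1 := by
  rcases hb.pm s i with h | h <;> simp [h]

lemma Good.df_cases (hb : Good b) (i : ι) (s t : S) : df b i s t = 0 ∨ df b i s t = 1 := by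
  rcases hb.pm s i with h | h <;> rcases hb.pm t i with h' | h' <;> norm_num [df, h, h']

lemma Good.slice_form (hb : Good b) {β : ℝ} (hβ : 0 ≤ β) (e f : ι) (x : ι → ℝ) :
    ∃ (P : ℝ → ℝ) (u v : ℝ), Measurable P ∧ (∀ y, 0 ≤ P y) ∧ (∀ y, P y ≤ 1) ∧ |u| ≤ 1 ∧
      |v| ≤ 1 ∧ (∀ y, av b β (b · e) (Function.update x f y) = P y * u + (1 - P y) * v) ∧
      β * ∫ y, pr b β (fun s t => df b e s t * df b f s t) (Function.update x f y) ∂g1 =
        (1 - u * v) / 2 * ∫ y, y * P y ∂g1 := by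
  obtain ⟨H, hH⟩ : ∃ H : ℝ → (S → ℝ) → ℝ, ∀ c h,
    H c h = ∑ s, Real.exp (β * rest b f s x) * ((1 + c * b s f) / 2) * h s := ⟨_, fun _ _ => rfl⟩
  have hw (h : S → ℝ) (y) : ∑ s, Real.exp (β * en b s (Function.update x f y)) * h s =
      H 1 h * Real.exp (β * y) + H (-1) h * Real.exp (-(β * y)) := by
    rw [hH, hH, Finset.sum_mul, Finset.sum_mul, ← Finset.sum_add_distrib]
    refine Finset.sum_congr rfl fun s _ => ?_
    rw [en_eq b f, rest_update, Function.update_self, mul_add, Real.exp_add]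
    rcases hb.pm s f with h | h <;> simp [h] <;> ring
  have ha (h : S → ℝ) (y) : av b β h (Function.update x f y) =
      (H 1 h * Real.exp (β * y) + H (-1) h * Real.exp (-(β * y))) /
        (H 1 1 * Real.exp (β * y) + H (-1) 1 * Real.exp (-(β * y))) := by
    rw [← hw, ← hw]
    simp only [av, gb, Finset.sum_div, div_mul_eq_mul_div, Pi.one_apply, mul_one]
  have nn (c : ℝ) (hc : |c| = 1) (s) : 0 ≤ Real.exp (β * rest b f s x) * ((1 + c * b s f) / 2) := by
    have : |c * b s f| ≤ 1 := by rw [abs_mul, hc, one_mul]; exact hb.abs_b s f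
    exact mul_nonneg (Real.exp_pos _).le (by linarith [(abs_le.1 this).1])
  have pos (c : ℝ) (hc : |c| = 1) (h : ∃ s, b s f = c) : 0 < H c 1 := by
    obtain ⟨s, hs⟩ := h
    rw [hH]
    refine Finset.sum_pos' (fun s _ => by simpa using nn c hc s) ⟨s, Finset.mem_univ _, ?_⟩
    rw [hs]
    exact mul_pos (mul_pos (Real.exp_pos _) (by nlinarith [mul_self_nonneg c])) one_pos
  have bd (c : ℝ) (hc : |c| = 1) (h : 0 < H c 1) : |H c (b · e) / H c 1| ≤ 1 := by
    rw [abs_div, abs_of_pos h, div_le_one h, hH, hH]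
    refine (Finset.abs_sum_le_sum_abs _ _).trans (Finset.sum_le_sum fun s _ => ?_)
    rw [abs_mul, abs_of_nonneg (nn c hc s)]
    exact mul_le_mul_of_nonneg_left (hb.abs_b s e) (nn c hc s)
  have mf (h : S → ℝ) : H 1 (fun s => h s * b s f) = H 1 h ∧
      H (-1) (fun s => h s * b s f) = -H (-1) h := by
    simp only [hH, ← Finset.sum_neg_distrib]
    constructor <;> refine Finset.sum_congr rfl fun s _ => ?_ <;>
      rcases hb.pm s f with h | h <;> simp [h]
  have Zp := pos 1 (by simp) (hb.pos f)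
  have Zm := pos (-1) (by simp) (hb.neg f)
  have D (y : ℝ) : 0 < H 1 1 * Real.exp (β * y) + H (-1) 1 * Real.exp (-(β * y)) := by positivity
  have EE (y : ℝ) : Real.exp (-(β * y)) = (Real.exp (β * y))⁻¹ := Real.exp_neg _
  refine ⟨fun y => H 1 1 * Real.exp (β * y) /
    (H 1 1 * Real.exp (β * y) + H (-1) 1 * Real.exp (-(β * y))), _, _, by fun_prop,
    fun y => by positivity, fun y => (div_le_one (D y)).2 (le_add_of_nonneg_right (by positivity)),
    bd 1 (by simp) Zp, bd (-1) (by simp) Zm, fun y => ?_, ?_⟩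
  · have := (D y).ne'
    rw [ha]
    field_simp
    ring
  rw [← stein_bdd (P' := fun y => 2 * β * (H 1 1 * H (-1) 1) /
    (H 1 1 * Real.exp (β * y) + H (-1) 1 * Real.exp (-(β * y))) ^ 2) (c := β)
    (fun y => ?_) (by fun_prop) (fun y => ?_) fun y => ?_, ← integral_const_mul,
    ← integral_const_mul]
  · congr 1
    funext y
    have e1 : (fun s t => df b e s t * df b f s t) = fun s t => 1 / 4 * (1 +
        (-1 * (b s e * b t e) + (-1 * ((1 : S → ℝ) s * b s f * ((1 : S → ℝ) t * b t f)) +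
          b s e * b s f * (b t e * b t f)))) := by
      funext s t
      simp only [df, Pi.one_apply]
      ring
    rw [e1, pr_smul, pr_add, pr_add, pr_add, pr_smul, pr_smul, pr_const, pr_mul b β (b · e) (b · e),
      pr_mul b β (fun s => (1 : S → ℝ) s * b s f) fun s => (1 : S → ℝ) s * b s f,
      pr_mul b β (fun s => b s e * b s f) fun s => b s e * b s f, ha, ha, ha,
      (mf 1).1, (mf 1).2, (mf (b · e)).1, (mf (b · e)).2]
    have := (D y).ne'
    have := (Real.exp_pos (β * y)).ne'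
    rw [EE] at *
    field_simp
    ring
  · have h1 := ((hasDerivAt_id y).const_mul β).exp.const_mul (H 1 1)
    have h2 := ((hasDerivAt_id y).const_mul β).neg.exp.const_mul (H (-1) 1)
    refine (h1.fun_div (h1.add h2) (D y).ne').congr_deriv ?_
    have := (D y).ne'
    have := (Real.exp_pos (β * y)).ne'
    simp only [id, Pi.add_apply, Pi.neg_apply, EE] at *
    field_simp
    ring
  · rw [abs_of_nonneg (by positivity)]
    exact (div_le_one (D y)).2 (le_add_of_nonneg_right (by positivity))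
  · rw [abs_of_nonneg (by positivity), div_le_iff₀ (pow_pos (D y) 2)]
    have h : Real.exp (β * y) * Real.exp (-(β * y)) = 1 := by rw [← Real.exp_add]; simp
    have h2 : 2 * (H 1 1 * H (-1) 1) ≤
        (H 1 1 * Real.exp (β * y) + H (-1) 1 * Real.exp (-(β * y))) ^ 2 := by
      nlinarith [sq_nonneg (H 1 1 * Real.exp (β * y)), sq_nonneg (H (-1) 1 * Real.exp (-(β * y))),
        mul_pos Zp Zm]
    nlinarith [mul_le_mul_of_nonneg_left h2 hβ]

lemma cnd_single {F : (ι → ℝ) → ℝ} (m : Measurable F) (f : ι) (x : ι → ℝ) :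
    cnd {f} F x = ∫ y, F (Function.update x f y) ∂g1 := by
  rw [← integral_comp_eval (μ := fun _ : ι => g1) (i := f) (f := fun y => F (Function.update x f y))
    (m.comp (measurable_update x)).aestronglyMeasurable, cnd]
  congr 1
  funext y
  congr 1
  funext i
  by_cases h : i = f
  · subst h; simp [res, mix]
  · simp [res, mix, h]

lemma int_mul_cnd {F : (ι → ℝ) → ℝ} (m : Measurable F) (h : ∀ x, |F x| ≤ 1) (f : ι) :
    ∫ x, F x * cnd {f} F x ∂gm ι = ∫ x, cnd {f} F x ^ 2 ∂gm ι := by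
  rw [slice f (G := fun x => F x * cnd {f} F x) (int_bdd (m.mul (meas_cnd m _)) (c := 1) fun x => by
    rw [abs_mul]; exact mul_le_one₀ (h x) (abs_nonneg _) (abs_cnd h _ x))]
  simp only [cnd_single m, Function.update_idem, integral_mul_const, sq]

lemma int_cnd_sq {F : (ι → ℝ) → ℝ} (m : Measurable F) (h : ∀ x, |F x| ≤ 1) (f : ι) :
    Integrable (fun x => cnd {f} F x ^ 2) (gm ι) :=
  int_bdd ((meas_cnd m _).pow_const 2) (c := 1) fun x => by
    rw [abs_pow]; exact pow_le_one₀ (abs_nonneg _) (abs_cnd h _ x)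

lemma cnd_sq_le {F G : (ι → ℝ) → ℝ} (m : Measurable F) (h : ∀ x, |F x| ≤ 1) (m' : Measurable G)
    (h' : ∀ x, |G x| ≤ 1) (f : ι) : ∫ x, cnd {f} F x ^ 2 ∂gm ι ≤
      ∫ x, cnd {f} G x ^ 2 ∂gm ι + 2 * ∫ x, |G x - F x| ∂gm ι := by
  have i1 : Integrable (fun x => |G x - F x|) (gm ι) := ((int_bdd m' h').sub (int_bdd m h)).abs
  have i2 : Integrable (fun x => ∫ y, |G (Function.update x f y) - F (Function.update x f y)| ∂g1)
    (gm ι) := (((updP f).integrable_comp i1.1).2 i1).integral_prod_left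
  rw [slice f i1, ← integral_const_mul, ← integral_add (int_cnd_sq m' h' f) (i2.const_mul 2)]
  refine integral_mono (int_cnd_sq m h f) ((int_cnd_sq m' h' f).add (i2.const_mul 2)) fun x => ?_
  have a1 : |cnd {f} G x - cnd {f} F x| ≤
      ∫ y, |G (Function.update x f y) - F (Function.update x f y)| ∂g1 := by
    rw [cnd_single m, cnd_single m', ← integral_sub
      (f := fun y => G (Function.update x f y)) (g := fun y => F (Function.update x f y))
      (int_g1 (m'.comp (measurable_update x)) fun y => h' _)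
      (int_g1 (m.comp (measurable_update x)) fun y => h _)]
    exact abs_integral_le_integral_abs
  obtain ⟨a2, a3⟩ := abs_le.1 a1
  obtain ⟨a4, a5⟩ := abs_le.1 (abs_cnd h {f} x)
  obtain ⟨a6, a7⟩ := abs_le.1 (abs_cnd h' {f} x)
  rcases le_total 0 (cnd {f} F x + cnd {f} G x) with c | c <;> nlinarith

lemma Good.pair_le (hb : Good b) {β K : ℝ} (hβ : 0 ≤ β) (hK : 1 ≤ K) (e f : ι) :
    β * ∫ x, pr b β (fun s t => df b e s t * df b f s t) x ∂gm ι ≤ 1 ∧
    β * ∫ x, pr b β (fun s t => df b e s t * df b f s t) x ∂gm ι ≤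
      K / 2 * ((1 - ∫ x, sg b e x * cnd {f} (sg b e) x ∂gm ι) +
        2 * ∫ x, |av b β (b · e) x - sg b e x| ∂gm ι) + 2 * Real.exp (-K ^ 2 / 2) := by
  have i1 := int_pr b β fun s t => df b e s t * df b f s t
  have i2 := ((((updP f).integrable_comp i1.1).2 i1).integral_prod_left).const_mul β
  have m := (cont_av b β (b · e)).measurable
  have h := abs_av b β fun s => hb.abs_b s e
  have i3 : Integrable (fun x => 1 - cnd {f} (av b β (b · e)) x ^ 2) (gm ι) :=
    (integrable_const _).sub (int_cnd_sq m h f)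
  rw [slice f i1, ← integral_const_mul]
  constructor
  · refine (integral_mono i2 (integrable_const 1) fun x => ?_).trans_eq (by simp)
    obtain ⟨P, u, v, a1, a2, a3, a4, a5, -, a7⟩ := hb.slice_form hβ e f x
    exact a7.trans_le (oneD a1 a2 a3 a4 a5 hK).1
  refine (integral_mono i2 ((i3.const_mul (K / 2)).add
    (integrable_const (2 * Real.exp (-K ^ 2 / 2)))) fun x => ?_).trans ?_
  · obtain ⟨P, u, v, a1, a2, a3, a4, a5, a6, a7⟩ := hb.slice_form hβ e f x
    simp only [Pi.add_apply, cnd_single m, a6]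
    exact a7.trans_le (oneD a1 a2 a3 a4 a5 hK).2
  · rw [integral_add' (i3.const_mul _) (integrable_const _), integral_const_mul,
      integral_sub (integrable_const _) (int_cnd_sq m h f), int_mul_cnd (meas_sg b e) (abs_sg b e)]
    have := cnd_sq_le (meas_sg b e) (abs_sg b e) m h f
    simp only [integral_const, probReal_univ, smul_eq_mul, one_mul]
    gcongr
    linarith

lemma Good.tendsto_av (hb : Good b) (e : ι) :
    Tendsto (fun β => ∫ x, |av b β (b · e) x - sg b e x| ∂gm ι) atTop (𝓝 0) := by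
  have := tendsto_integral_filter_of_dominated_convergence (μ := gm ι) (l := atTop)
    (F := fun β x => |av b β (b · e) x - sg b e x|) (f := fun _ => 0) (fun _ => 2)
    (Eventually.of_forall fun β => (((cont_av b β _).measurable.sub
      (meas_sg b e)).abs).aestronglyMeasurable)
    (Eventually.of_forall fun β => Eventually.of_forall fun x => by
      rw [Real.norm_eq_abs, abs_abs]
      exact (abs_sub _ _).trans (by linarith [abs_av b β (fun s => hb.abs_b s e) x, abs_sg b e x]))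
    (integrable_const _) (by
      filter_upwards [ae_notie b e] with x hx
      have e1 (β : ℝ) : av b β (b · e) x - sg b e x = ∑ s, gb b β x s * (b s e - sg b e x) := by
        simp only [mul_sub, Finset.sum_sub_distrib, ← Finset.sum_mul, sum_gb, one_mul, av]
      simp only [e1]
      rw [← abs_zero, ← Finset.sum_const_zero (s := (Finset.univ : Finset S))]
      refine (tendsto_finsetSum _ fun s _ => ?_).abs
      by_cases h : ∀ τ, en b τ x ≤ en b s x
      · simp [hb.ground_eq h hx]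
      push Not at h
      obtain ⟨τ, hτ⟩ := h
      rw [← zero_mul (b s e - sg b e x)]
      refine Tendsto.mul_const _ (squeeze_zero (fun β => (gb_pos b β x s).le) (fun β => ?_)
        (Real.tendsto_exp_atBot.comp (tendsto_id.atTop_mul_const_of_neg (sub_neg.2 hτ))))
      rw [Function.comp, id, mul_sub, Real.exp_sub]
      exact div_le_div_of_nonneg_left (Real.exp_pos _).le (Real.exp_pos _)
        (Finset.single_le_sum (f := fun t => Real.exp (β * en b t x))
          (fun _ _ => (Real.exp_pos _).le) (Finset.mem_univ τ)))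
  simpa using this

lemma gauge_zero (β : ℝ) {R : Finset ι} {g : S → ℝ} (hg : ∀ s, |g s| ≤ 1) (τ : S ≃ S)
    (h : ∀ s i, b (τ s) i = if i ∈ R then -b s i else b s i) (h' : ∀ s, g (τ s) = -g s) :
    ∫ z, av b β g z.1 * av b β g (res R z) ∂(gm ι).prod (gm ι) = 0 := by
  have m := (cont_av b β g).measurable
  have e1 (s) (x) : en b (τ s) (flp R x) = en b s x := Finset.sum_congr rfl fun i _ => by
    simp only [h, flp]
    split_ifs <;> ring
  have e2 (x) : av b β g (flp R x) = -1 * av b β g x := by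
    simp only [av, gb]
    rw [← τ.sum_comp, ← τ.sum_comp fun t => Real.exp (β * en b t (flp R x))]
    simp only [e1, h', mul_neg, Finset.sum_neg_distrib, neg_one_mul]
  have e3 (x) : cnd R (av b β g) x = 0 := by
    have := cnd_flp m (Φ := ∅) (U := R) e2 (fun i hi => by simp [hi]) x
    rw [show flp ∅ x = x by funext i; simp [flp]] at this
    linarith
  rw [integral_prod (fun z => av b β g z.1 * av b β g (res R z)) (Integrable.of_bound ((m.comp measurable_fst).mul
    (m.comp (meas_mix _ _))).aestronglyMeasurable 1 (Eventually.of_forall fun z => by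
      rw [Real.norm_eq_abs, abs_mul]
      exact mul_le_one₀ (abs_av b β hg _) (abs_nonneg _) (abs_av b β hg _)))]
  simp only [cnd] at e3
  simp [integral_const_mul, e3]

lemma sum_miss (e : ι) {p : ℝ} (hp : 0 < p) (hp1 : p < 1) (W : Finset ι) (hW : p * W.card ≤ 1) :
    p / 2 * ∑ f ∈ W, (1 - ∫ x, sg b e x * cnd {f} (sg b e) x ∂gm ι) ≤ 1 - c2 b e p := by
  refine hasSum_le (fun α => ?_) ((hasSum_sum fun f _ => hasSum_miss b e {f}).mul_left _)
    ((hasSum_one (b := b) e).sub (hasSum_c2 e p))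
  rw [← Finset.mul_sum, mul_left_comm, ← mul_one_sub]
  refine mul_le_mul_of_nonneg_left ?_ (div_nonneg (sq_nonneg _) (fac_pos α).le)
  have h1 : m2 (1 - p) α = (1 - p) ^ (Finset.univ.filter fun i => α i ≠ 0).card := by
    rw [m2, Finset.prod_ite, Finset.prod_const_one, one_mul, Finset.prod_const]
  have h2 : ∑ f ∈ W, (1 - ind {f} α) = ((W.filter fun i => α i ≠ 0).card : ℝ) := by
    rw [Finset.card_filter]
    push_cast
    exact Finset.sum_congr rfl fun c _ => by unfold ind; split_ifs <;> simp_all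
  rw [h1, h2]
  exact half_le_one_sub_pow hp hp1
    (Finset.card_le_card (Finset.monotone_filter_left _ (Finset.subset_univ _)))
    (le_trans (mul_le_mul_of_nonneg_left (Nat.cast_le.2 (Finset.card_filter_le _ _)) hp.le) hW)

/-- The main inequality, for an abstract family of two-point observables and cuts. -/
lemma Good.main (hb : Good b) {T : Type} (I : Finset T) (g : T → S → ℝ) (R : T → Finset ι)
    (hg : ∀ t s, |g t s| ≤ 1) (τ : T → S ≃ S)
    (h : ∀ t s i, b (τ t s) i = if i ∈ R t then -b s i else b s i)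
    (h' : ∀ t ∈ I, ∀ s, g t (τ t s) = -g t s) (W : Finset ι) {A B C K φ p : ℝ} (hA : 0 ≤ A)
    (hB : 0 ≤ B) (hC : 0 ≤ C) (hK : 1 ≤ K) (hp : 0 < p) (hp1 : p < 1) (hW : p * W.card ≤ 1)
    (hφ : ∀ e, 1 - c2 b e p = φ)
    (H1 : ∀ s s', ∑ t ∈ I, (1 - g t s * g t s') ≤ A * ∑ i ∈ W, df b i s s')
    (H2 : ∀ s s', ∑ t ∈ I, |g t s - g t s'| * √(∑ i ∈ R t, (b s i - b s' i) ^ 2) ≤
      B * ∑ i ∈ W, df b i s s' + C * (∑ i ∈ W, df b i s s') ^ 2) :
    (I.card : ℝ) ≤ W.card * (B + C * ((K * φ + 2 * Real.exp (-K ^ 2 / 2)) / p)) := by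
  let ε : ℝ → ℝ := fun β => ∑ e ∈ W, ∫ x, |av b β (b · e) x - sg b e x| ∂gm ι
  have hε : Tendsto ε atTop (𝓝 0) := by
    simpa using tendsto_finsetSum W fun e _ => hb.tendsto_av e
  have lim : Tendsto (fun β => W.card * (B + C * ((K * φ + 2 * Real.exp (-K ^ 2 / 2)) / p)) +
      (A * W.card * β⁻¹ + C * K * W.card * ε β)) atTop (𝓝 (_ + (_ + _))) :=
    tendsto_const_nhds.add ((tendsto_inv_atTop_zero.const_mul _).add (hε.const_mul _))
  simp only [mul_zero, add_zero] at lim
  refine ge_of_tendsto lim ?_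
  filter_upwards [eventually_gt_atTop 0] with β hβ
  have x1 : β * ∫ x, pr b β (fun s t => ∑ i ∈ W, df b i s t) x ∂gm ι ≤ W.card := by
    simp only [pr_sum]
    rw [integral_finsetSum _ fun i _ => int_pr b β _, Finset.mul_sum]
    refine (Finset.sum_le_sum fun i _ => ?_).trans_eq (by simp : ∑ _i ∈ W, (1 : ℝ) = _)
    have := (hb.pair_le hβ.le hK i i).1
    rwa [show (fun s t => df b i s t * df b i s t) = df b i by
      funext s t; rcases hb.df_cases i s t with h | h <;> simp [h]] at this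
  have x2 : β * ∫ x, pr b β (fun s t => (∑ i ∈ W, df b i s t) ^ 2) x ∂gm ι ≤
      W.card * ((K * φ + 2 * Real.exp (-K ^ 2 / 2)) / p) + K * W.card * ε β := by
    simp only [sq (∑ i ∈ W, _), Finset.sum_mul_sum, pr_sum, ε]
    rw [integral_finsetSum _ fun i _ => integrable_finsetSum _ fun j _ => int_pr b β _,
      Finset.mul_sum, Finset.mul_sum, ← nsmul_eq_mul, ← Finset.sum_const, ← Finset.sum_add_distrib]
    refine Finset.sum_le_sum fun e _ => ?_
    rw [integral_finsetSum _ fun j _ => int_pr b β _, Finset.mul_sum]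
    refine (Finset.sum_le_sum fun f _ => (hb.pair_le hβ.le hK e f).2).trans ?_
    have y1 := sum_miss (b := b) e hp hp1 W hW
    rw [hφ, div_mul_eq_mul_div, mul_div_assoc, ← le_div_iff₀' hp] at y1
    have y2 := (le_div_iff₀' hp).2 hW
    rw [Finset.sum_add_distrib, ← Finset.mul_sum, Finset.sum_add_distrib, Finset.sum_const,
      Finset.sum_const, nsmul_eq_mul, nsmul_eq_mul, add_div, mul_div_assoc,
      div_eq_mul_one_div (2 * _) p]
    nlinarith [mul_le_mul_of_nonneg_left y1 (zero_le_one.trans hK),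
      mul_le_mul_of_nonneg_left y2 (Real.exp_pos (-K ^ 2 / 2)).le]
  have x3 : (I.card : ℝ) - ∑ t ∈ I, ∫ x, av b β (g t) x ^ 2 ∂gm ι ≤
      A * ∫ x, pr b β (fun s t => ∑ i ∈ W, df b i s t) x ∂gm ι := by
    have e (t x) : pr b β (fun s s' => 1 - g t s * g t s') x = 1 - av b β (g t) x ^ 2 := by
      rw [sq, ← pr_mul, eq_sub_iff_add_eq, ← pr_add]
      simp [pr_const]
    have i (t) : Integrable (fun x => av b β (g t) x ^ 2) (gm ι) := by
      simp only [sq, ← pr_mul]
      exact int_pr b β _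
    have := integral_mono (int_pr b β _) (int_pr b β _) (pr_mono b β H1)
    simp only [pr_smul, integral_const_mul] at this
    refine le_trans (le_of_eq ?_) this
    simp only [pr_sum, e]
    rw [integral_finsetSum (f := fun t x => 1 - av b β (g t) x ^ 2) _
      fun t _ => (integrable_const _).sub (i t)]
    simp [integral_sub (integrable_const _) (i _)]
  have x4 : ∑ t ∈ I, ∫ x, av b β (g t) x ^ 2 ∂gm ι ≤
      β * (B * ∫ x, pr b β (fun s t => ∑ i ∈ W, df b i s t) x ∂gm ι +
        C * ∫ x, pr b β (fun s t => (∑ i ∈ W, df b i s t) ^ 2) x ∂gm ι) := by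
    refine (Finset.sum_le_sum fun t ht => pisier b β hβ.le (g t) (hg t) (R t)
      (gauge_zero β (hg t) (τ t) (h t) (h' t ht))).trans ?_
    rw [← Finset.mul_sum, ← integral_finsetSum _ fun t _ => int_pr b β _]
    have := integral_mono (int_pr b β _) (int_pr b β _) (pr_mono b β H2)
    simp only [pr_add, pr_smul] at this
    rw [integral_add ((int_pr b β _).const_mul _) ((int_pr b β _).const_mul _),
      integral_const_mul, integral_const_mul] at this
    simp only [← pr_sum]
    exact mul_le_mul_of_nonneg_left this hβ.le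
  have x5 := mul_le_mul_of_nonneg_left ((le_div_iff₀' hβ).2 x1) hA
  rw [div_eq_mul_inv] at x5
  nlinarith [mul_le_mul_of_nonneg_left x1 hB, mul_le_mul_of_nonneg_left x2 hC]

end Pool.Agent.Lib.MP_a964b6_mp
end

-- part Pool.Agent.Lib.MP_a964b6_mp.PowC
section

/-! Isoperimetry in a box and the power gain in dimension at least three. -/

namespace Pool.Agent.Lib.MP_a964b6_mp

open MeasureTheory ProbabilityTheory Finset

set_option linter.unusedSectionVars false

lemma loomis {d m : ℕ} (hd : 2 ≤ d) (A : Finset (Fin d → Fin m)) {f : (Fin d → Fin m) → ℝ}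
    (h0 : ∀ a, 0 ≤ f a) (h : ∀ a ∈ A, ∀ k, 1 ≤ ∑ j, f (Function.update a k j)) :
    (A.card : ℝ) ≤ (∑ a, f a) ^ ((d : ℝ) / (d - 1)) := by
  have hD : (2 : ℝ) ≤ d := by exact_mod_cast hd
  have H := lintegral_prod_lintegral_pow_le (μ := fun _ : Fin d => (Measure.count : Measure (Fin m)))
    (Real.HolderConjugate.conjExponent (by simp only [Fintype.card_fin]; linarith))
    (f := fun a => ENNReal.ofReal (f a)) Measurable.of_discrete
  simp only [lintegral_fintype, Measure.pi_singleton, Measure.count_singleton, prod_const_one,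
    mul_one, Fintype.card_fin, Real.conjExponent] at H
  rw [← ENNReal.ofReal_sum_of_nonneg fun a _ => h0 a, ENNReal.ofReal_rpow_of_nonneg
    (sum_nonneg fun a _ => h0 a) (div_nonneg (by linarith) (by linarith))] at H
  rw [← ENNReal.ofReal_le_ofReal_iff (Real.rpow_nonneg (sum_nonneg fun a _ => h0 a) _),
    ENNReal.ofReal_natCast]
  refine le_trans ?_ ((sum_le_sum_of_subset (subset_univ A)).trans H)
  rw [card_eq_sum_ones, Nat.cast_sum, Nat.cast_one]
  refine sum_le_sum fun a ha => one_le_prod' fun k _ => ?_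
  rw [← ENNReal.ofReal_sum_of_nonneg fun j _ => h0 _]
  exact (ENNReal.one_rpow _).ge.trans (ENNReal.rpow_le_rpow (ENNReal.one_le_ofReal.2 (h a ha k))
    (div_nonneg zero_le_one (by linarith)))

lemma exists_jump {m : ℕ} {P : Fin m → Prop} {i j : Fin m} (hi : P i) (hj : ¬ P j) :
    ∃ (l : Fin m) (h : l + 1 < m), ¬ (P l ↔ P ⟨l + 1, h⟩) := by
  by_contra H
  push Not at H
  have h (n : ℕ) : ∀ hn : n < m, P ⟨n, hn⟩ ↔ P ⟨0, by omega⟩ := by
    induction n with
    | zero => exact fun _ => Iff.rfl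
    | succ n ih => exact fun hn => (H ⟨n, by omega⟩ hn).symm.trans (ih _)
  exact hj ((h j j.2).2 ((h i i.2).1 hi))

/-- The isoperimetric constant. -/
noncomputable def isoC (d : ℕ) : ℝ := (1 - (1 / 2 : ℝ) ^ (1 / d : ℝ))⁻¹ ^ ((d : ℝ) / (d - 1))

lemma delta_pos {d : ℕ} (hd : 2 ≤ d) : 0 < 1 - (1 / 2 : ℝ) ^ (1 / d : ℝ) :=
  sub_pos.2 (Real.rpow_lt_one (by norm_num) (by norm_num) (by positivity))

lemma isoC_pos {d : ℕ} (hd : 2 ≤ d) : 0 < isoC d :=
  Real.rpow_pos_of_pos (inv_pos.2 (delta_pos hd)) _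

lemma isoper {d m : ℕ} (hd : 2 ≤ d) (hm : 0 < m) (A : Finset (Fin d → Fin m))
    {F : (Fin d → Fin m) → ℝ} (h0 : ∀ a, 0 ≤ F a)
    (h : ∀ a k, ∀ hk : (a k : ℕ) + 1 < m,
      ¬ (a ∈ A ↔ Function.update a k ⟨a k + 1, hk⟩ ∈ A) → 1 ≤ F a)
    (hA : 2 * (A.card : ℝ) ≤ m ^ d) :
    (A.card : ℝ) ≤ isoC d * (∑ a, F a) ^ ((d : ℝ) / (d - 1)) := by
  have hD : (2 : ℝ) ≤ d := by exact_mod_cast hd
  have hM : (0 : ℝ) < m := by exact_mod_cast hm
  have n0 (a) : 0 ≤ F a + if a ∈ A then (m : ℝ)⁻¹ else 0 :=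
    add_nonneg (h0 a) (by split_ifs <;> positivity)
  have H := loomis hd A n0 fun a ha k => by
    by_cases hl : ∀ j, Function.update a k j ∈ A
    · refine le_trans ?_ (sum_le_sum fun j _ => le_add_of_nonneg_left (h0 _))
      simp [hl, mul_inv_cancel₀ hM.ne']
    push Not at hl
    obtain ⟨j, hj⟩ := hl
    obtain ⟨l, h1, h2⟩ := exists_jump (P := fun j => Function.update a k j ∈ A) (i := a k)
      (by simpa using ha) hj
    refine le_trans ?_ (single_le_sum (fun j _ => n0 _) (mem_univ l))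
    refine (h _ k (by simpa using h1) (by simpa using h2)).trans (le_add_of_nonneg_right ?_)
    split_ifs <;> positivity
  rw [sum_add_distrib, sum_ite_mem, univ_inter, sum_const, nsmul_eq_mul] at H
  have hX := sum_nonneg fun a (_ : a ∈ univ) => h0 a
  have ha : (0 : ℝ) ≤ A.card := Nat.cast_nonneg _
  generalize (A.card : ℝ) = a at *
  generalize ∑ a, F a = X at *
  have hq : 0 < (d : ℝ) / (d - 1) := div_pos (by linarith) (by linarith)
  have e1 : a = a ^ ((d : ℝ) / (d - 1))⁻¹ * a ^ (1 / d : ℝ) := by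
    rw [← Real.rpow_add' ha, show ((d : ℝ) / (d - 1))⁻¹ + 1 / d = 1 by field_simp; ring,
      Real.rpow_one]
    positivity
  have e2 : a ^ (1 / d : ℝ) ≤ m * (1 / 2 : ℝ) ^ (1 / d : ℝ) := by
    have := Real.rpow_le_rpow ha (show a ≤ m ^ d * (1 / 2) by linarith) (z := 1 / d) (by positivity)
    rwa [Real.mul_rpow (by positivity) (by norm_num), one_div (d : ℝ),
      Real.pow_rpow_inv_natCast hM.le (by omega), ← one_div (d : ℝ)] at this
  have e3 := (Real.rpow_inv_le_iff_of_pos ha (by positivity) hq).2 H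
  have y0 := Real.rpow_nonneg ha ((d : ℝ) / (d - 1))⁻¹
  have e4 : a * (m : ℝ)⁻¹ ≤ a ^ ((d : ℝ) / (d - 1))⁻¹ * (1 / 2 : ℝ) ^ (1 / d : ℝ) := by
    rw [mul_inv_le_iff₀ hM]
    nlinarith [mul_le_mul_of_nonneg_left e2 y0]
  have hδ := delta_pos hd
  rw [isoC, ← Real.mul_rpow (inv_pos.2 hδ).le hX,
    ← Real.rpow_inv_le_iff_of_pos ha (by positivity) hq, le_inv_mul_iff₀ hδ]
  linarith

lemma sep_le {d m : ℕ} (hd : 2 ≤ d) (hm : 0 < m) {χ F : (Fin d → Fin m) → ℝ}
    (hχ : ∀ a, χ a = 1 ∨ χ a = -1) (h0 : ∀ a, 0 ≤ F a)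
    (h : ∀ a k, ∀ hk : (a k : ℕ) + 1 < m, χ a ≠ χ (Function.update a k ⟨a k + 1, hk⟩) → 1 ≤ F a) :
    ∑ u, ∑ v, (1 - χ u * χ v) ≤ 4 * m ^ d * (isoC d * (∑ a, F a) ^ ((d : ℝ) / (d - 1))) := by
  let A := univ.filter fun a => χ a = 1
  have j (a k hk) (H : ¬ (a ∈ A ↔ Function.update a k ⟨a k + 1, hk⟩ ∈ A)) : 1 ≤ F a :=
    h a k hk fun e => H (by simp only [A, mem_filter, mem_univ, true_and, e])
  have c1 : (A.card : ℝ) + Aᶜ.card = m ^ d := by
    rw [← Nat.cast_add, card_add_card_compl]; simp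
  have c2 : ∑ u, χ u = A.card - Aᶜ.card := by
    rw [← sum_add_sum_compl A, sum_congr rfl fun a ha => (mem_filter.1 ha).2,
      sum_congr rfl fun a ha => (hχ a).resolve_left (by simpa [A] using ha)]
    simp only [sum_const, nsmul_eq_mul, mul_one, mul_neg, sub_eq_add_neg]
    rfl
  have c3 : ∑ u, ∑ v, (1 - χ u * χ v) = 4 * A.card * Aᶜ.card := by
    simp only [sum_sub_distrib, ← mul_sum, ← sum_mul, c2]
    simp only [sum_const, card_univ, Fintype.card_fun, Fintype.card_fin, nsmul_eq_mul]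
    push_cast
    rw [← c1]
    ring
  have a0 : (0 : ℝ) ≤ A.card := Nat.cast_nonneg _
  have a1 : (0 : ℝ) ≤ Aᶜ.card := Nat.cast_nonneg _
  rw [c3]
  rcases le_total (A.card : ℝ) Aᶜ.card with c | c
  · have := isoper hd hm A h0 j (by linarith)
    nlinarith
  · have := isoper hd hm Aᶜ h0 (fun a k hk H => j a k hk fun e => H (by simp [e])) (by linarith)
    nlinarith

lemma sum_ite_le {r : ℕ} (c j : ℕ) {f : ℝ} (hf : 0 ≤ f) :
    ∑ t : Fin r, (if c = t + j then f else 0) ≤ f := by
  rw [← sum_filter, sum_const, nsmul_eq_mul]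
  refine mul_le_of_le_one_left hf (Nat.cast_le_one.2 (card_le_one.2 fun a ha b hb => Fin.ext ?_))
  have := (mem_filter.1 ha).2
  have := (mem_filter.1 hb).2
  omega

lemma young {X Y γ : ℝ} (hX : 0 ≤ X) (hY : 0 < Y) (h0 : 0 ≤ γ) (h1 : γ ≤ 1) :
    X ^ γ ≤ Y ^ γ + Y ^ (γ - 1) * X := by
  rcases le_total X Y with h | h
  · exact le_add_of_le_of_nonneg (Real.rpow_le_rpow hX h h0) (by positivity)
  · refine le_add_of_nonneg_of_le (by positivity) ?_
    have hX' := hY.trans_le h
    rw [show X ^ γ = X ^ (γ - 1) * X by rw [Real.rpow_sub_one hX'.ne']; field_simp]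
    exact mul_le_mul_of_nonneg_right (Real.rpow_le_rpow_of_nonpos hY h (by linarith)) hX

variable {d n : ℕ} [NeZero n] [Fact (1 < n)]

/-- The box in the torus. -/
def emb (n : ℕ) {m : ℕ} (a : Fin d → Fin m) : Vtx d n := fun i => ((a i : ℕ) : ZMod n)

/-- A cube in the torus. -/
def cube (d n : ℕ) [NeZero n] (lo hi : ℕ) : Finset (Vtx d n) :=
  univ.filter fun x => ∀ i, lo ≤ (x i).val ∧ (x i).val ≤ hi

lemma val_emb {m : ℕ} (hm : m ≤ n) (a : Fin d → Fin m) (i : Fin d) : (emb n a i).val = a i :=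
  ZMod.val_natCast_of_lt ((a i).2.trans_le hm)

lemma mem_cut_cube {lo hi : ℕ} (h1 : hi + 2 ≤ n) {e : Edge d n} (he : e ∈ cut (cube d n (lo + 1) hi)) :
    (∀ i, (e.1 i).val ≤ hi) ∧ ((e.1 e.2).val = lo ∨ (e.1 e.2).val = hi) := by
  obtain ⟨x, k⟩ := e
  simp only [cut, cube, mem_filter, mem_univ, true_and] at he ⊢
  have v := val_succ (x k)
  have s (P : Fin d → Prop) : (∀ i, P i) ↔ P k ∧ ∀ i, i ≠ k → P i :=
    ⟨fun h => ⟨h k, fun i _ => h i⟩, fun h i => if hi : i = k then hi ▸ h.1 else h.2 i hi⟩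
  have e : (∀ i, i ≠ k → lo + 1 ≤ ((x + Pi.single k 1 : Vtx d n) i).val ∧
      ((x + Pi.single k 1 : Vtx d n) i).val ≤ hi) ↔
      ∀ i, i ≠ k → lo + 1 ≤ (x i).val ∧ (x i).val ≤ hi :=
    forall_congr' fun i => forall_congr' fun h => by simp [h]
  replace he := fun H => he ((s _).trans (Iff.trans H ((s _).trans (and_congr (show _ ↔
    lo + 1 ≤ (x k + 1).val ∧ (x k + 1).val ≤ hi by simp) e)).symm))
  rw [imp_false] at he
  have o : ∀ i, i ≠ k → lo + 1 ≤ (x i).val ∧ (x i).val ≤ hi := by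
    by_contra h
    exact he ⟨fun H => absurd H.2 h, fun H => absurd H.2 h⟩
  rw [and_iff_left o, and_iff_left o] at he
  exact ⟨(s _).2 ⟨by omega, fun i h => (o i h).2⟩, by omega⟩

lemma scale (hd : 3 ≤ d) {r : ℕ} (hr : 1 ≤ r) (hn : 2 * r + 1 ≤ n) {p K φ Y : ℝ} (hp : 0 < p)
    (hp1 : p < 1) (hK : 1 ≤ K) (hW : p * ((2 * r + 1) ^ d * d) ≤ 1)
    (hφ : ∀ e : Edge d n, 1 - c2 bond e p = φ) (hY : 0 < Y) :
    √r ≤ 16 * d * 9 ^ d * isoC d * (Y ^ ((d : ℝ) / (d - 1) - 1 / 2) +
      Y ^ ((d : ℝ) / (d - 1) - 1 / 2 - 1) * ((K * φ + 2 * Real.exp (-K ^ 2 / 2)) / p)) := by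
  have hD : (3 : ℝ) ≤ d := by exact_mod_cast hd
  have hR : (1 : ℝ) ≤ r := by exact_mod_cast hr
  have hI := isoC_pos (d := d) (by omega)
  let ι : (Fin d → Fin (2 * r + 1)) × Fin d ↪ Edge d n := ⟨fun z => (emb n z.1, z.2),
    fun z z' h => Prod.ext (funext fun i => Fin.ext (by
      rw [← val_emb hn, ← val_emb hn z'.1, (Prod.mk.inj h).1])) (Prod.mk.inj h).2⟩
  let W := univ.map ι
  have cW : (W.card : ℝ) = (2 * r + 1) ^ d * d := by simp [W]
  have mW (e : Edge d n) (h : ∀ i, (e.1 i).val ≤ 2 * r) : e ∈ W :=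
    mem_map.2 ⟨(fun i => ⟨_, Nat.lt_succ_of_le (h i)⟩, e.2), mem_univ _,
      Prod.ext (funext fun i => ZMod.natCast_zmod_val _) rfl⟩
  let Q : Fin r → Finset (Fin d → Fin (2 * r + 1)) := fun t => Fintype.piFinset fun _ =>
    Icc ⟨t + 1, by omega⟩ ⟨t + r, by omega⟩
  have mQ (t : Fin r) (a) : emb n a ∈ cube d n (t + 1) (t + r) ↔ a ∈ Q t := by
    simp only [cube, Q, mem_filter, mem_univ, true_and, val_emb hn, Fintype.mem_piFinset, mem_Icc,
      Fin.le_def]
  let I : Finset (Σ _ : Fin r, (Fin d → Fin (2 * r + 1)) × (Fin d → Fin (2 * r + 1))) :=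
    univ.sigma fun t => Q t ×ˢ (Q t)ᶜ
  have cI : (r : ℝ) * (r ^ d * r ^ d) ≤ I.card := by
    have q (t) : (Q t).card = r ^ d := by simp [Q]
    have h : 2 * r ^ d ≤ (2 * r + 1) ^ d := by
      refine le_trans ?_ (Nat.pow_le_pow_left (Nat.le_succ _) d)
      rw [mul_pow]
      exact Nat.mul_le_mul_right _ (Nat.le_self_pow (by omega) 2)
    simp only [I, card_sigma, card_product, card_compl, q, sum_const, card_univ, Fintype.card_fin,
      Fintype.card_fun, smul_eq_mul]
    exact_mod_cast Nat.mul_le_mul_left _ (Nat.mul_le_mul_left _ (by omega))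
  let q : ℝ := (d : ℝ) / (d - 1)
  have q1 : 1 < q := (one_lt_div (by linarith)).2 (by linarith)
  have q2 : q ≤ 3 / 2 := (div_le_iff₀ (by linarith)).2 (by linarith)
  have d0 (i : Edge d n) (s t) : 0 ≤ df bond i s t := by
    rcases good.df_cases i s t with h | h <;> simp [h]
  have X0 (s t) : 0 ≤ ∑ i ∈ W, df bond i s t := sum_nonneg fun i _ => d0 i s t
  let g : (Fin d → Fin (2 * r + 1)) × (Fin d → Fin (2 * r + 1)) → (Vtx d n → ℤˣ) → ℝ :=
    fun z s => ((s (emb n z.1) : ℤ) : ℝ) * ((s (emb n z.2) : ℤ) : ℝ)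
  have gc (z s) : g z s = 1 ∨ g z s = -1 := by
    rcases unit_cases (s (emb n z.1)) with h | h <;>
      rcases unit_cases (s (emb n z.2)) with h' | h' <;> simp [g, h, h']
  have g0 (z s s') : 0 ≤ 1 - g z s * g z s' := by
    rcases gc z s with h | h <;> rcases gc z s' with h' | h' <;> simp [h, h']
  have sep (t s s') : ∑ z ∈ Q t ×ˢ (Q t)ᶜ, (1 - g z s * g z s') ≤
      4 * (2 * r + 1) ^ d * (isoC d * (∑ i ∈ W, df bond i s s') ^ q) := by
    have := sep_le (d := d) (m := 2 * r + 1) (by omega) (by omega)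
      (χ := fun a => ((s (emb n a) : ℤ) : ℝ) * ((s' (emb n a) : ℤ) : ℝ))
      (F := fun a => ∑ k, df bond (emb n a, k) s s') (fun a => by
        rcases unit_cases (s (emb n a)) with h | h <;>
          rcases unit_cases (s' (emb n a)) with h' | h' <;> simp [h, h'])
      (fun a => sum_nonneg fun k _ => d0 _ _ _) fun a k hk h => by
        refine le_trans ?_ (single_le_sum (f := fun k => df bond (emb n a, k) s s')
          (fun k _ => d0 _ _ _) (mem_univ k))
        have e : emb n (Function.update a k ⟨a k + 1, hk⟩) = emb n a + Pi.single k 1 := by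
          funext i
          by_cases hi : i = k
          · subst hi; simp [emb]
          · simp [emb, hi]
        simp only [e, df, bond] at h ⊢
        revert h
        rcases unit_cases (s (emb n a)) with h1 | h1 <;>
          rcases unit_cases (s' (emb n a)) with h2 | h2 <;>
          rcases unit_cases (s (emb n a + Pi.single k 1)) with h3 | h3 <;>
          rcases unit_cases (s' (emb n a + Pi.single k 1)) with h4 | h4 <;>
          norm_num [h1, h2, h3, h4]
    rw [sum_map, Fintype.sum_prod_type]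
    push_cast at this
    refine (sum_le_sum_of_subset_of_nonneg (subset_univ _) fun z _ _ => g0 z s s').trans
      (le_of_eq_of_le ?_ this)
    rw [Fintype.sum_prod_type]
    exact sum_congr rfl fun u _ => sum_congr rfl fun v _ => by simp only [g]; ring
  have cuts (s s') : ∑ t : Fin r, √(∑ i ∈ cut (cube d n (t + 1) (t + r)),
      (bond s i - bond s' i) ^ 2) ≤ 4 * √r * √(∑ i ∈ W, df bond i s s') := by
    have h1 (t : Fin r) : ∑ i ∈ cut (cube d n (t + 1) (t + r)), (bond s i - bond s' i) ^ 2 ≤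
        ∑ i ∈ W, ((if (i.1 i.2).val = t + 0 then 4 * df bond i s s' else 0) +
          if (i.1 i.2).val = t + r then 4 * df bond i s s' else 0) := by
      have c (i) (hi : i ∈ cut (cube d n (t + 1) (t + r))) := mem_cut_cube (by omega) hi
      refine (sum_le_sum fun i hi => ?_).trans (sum_le_sum_of_subset_of_nonneg
        (fun i hi => mW i fun j => ((c i hi).1 j).trans (by omega)) fun i _ _ => by
          have := d0 i s s'
          split_ifs <;> linarith)
      have e : (bond s i - bond s' i) ^ 2 = 4 * df bond i s s' := by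
        rcases good.pm s i with h | h <;> rcases good.pm s' i with h' | h' <;>
          norm_num [df, h, h']
      have := d0 i s s'
      have := (c i hi).2
      rw [e]
      split_ifs <;> first | linarith | omega
    have h2 := sum_le_sum fun t (_ : t ∈ univ) => h1 t
    rw [sum_comm] at h2
    have h3 := h2.trans (sum_le_sum (g := fun i => 8 * df bond i s s') fun i _ => by
      have h := mul_nonneg (show (0 : ℝ) ≤ 4 by norm_num) (d0 i s s')
      rw [sum_add_distrib]
      linarith [sum_ite_le (r := r) (i.1 i.2).val 0 h, sum_ite_le (r := r) (i.1 i.2).val r h])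
    refine le_trans (Real.le_sqrt_of_sq_le (sq_sum_le_card_mul_sum_sq.trans ?_) :
      _ ≤ √(4 ^ 2 * r * ∑ i ∈ W, df bond i s s')) (le_of_eq ?_)
    · rw [sum_congr rfl fun t _ => Real.sq_sqrt (sum_nonneg fun i _ => sq_nonneg _), card_univ,
        Fintype.card_fin]
      rw [← mul_sum] at h3
      nlinarith [X0 s s']
    · rw [Real.sqrt_mul (by positivity), Real.sqrt_mul (by positivity), Real.sqrt_sq (by norm_num)]
  have pw (s s') : (∑ i ∈ W, df bond i s s') ^ q =
      (∑ i ∈ W, df bond i s s') * (∑ i ∈ W, df bond i s s') ^ (q - 1) := by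
    rw [← Real.rpow_one_add' (X0 s s') (by linarith), add_sub_cancel]
  have M := good.main I (fun t => g t.2) (fun t => cut (cube d n (t.1 + 1) (t.1 + r)))
    (fun t s => by rcases gc t.2 s with h | h <;> simp [h])
    (fun t => Function.Involutive.toPerm
      (fun σ x => if x ∈ cube d n (t.1 + 1) (t.1 + r) then -σ x else σ x)
      fun σ => by funext x; by_cases h : x ∈ cube d n (t.1 + 1) (t.1 + r) <;> simp [h])
    (fun t σ i => by
      by_cases h1 : i.1 ∈ cube d n (t.1 + 1) (t.1 + r) <;>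
        by_cases h2 : i.1 + Pi.single i.2 1 ∈ cube d n (t.1 + 1) (t.1 + r) <;>
        simp [bond, cut, h1, h2])
    (fun t ht σ => by
      obtain ⟨h1, h2⟩ := mem_product.1 (mem_sigma.1 ht).2
      simp [g, mQ, h1, mem_compl.1 h2]) W
    (A := r * (4 * (2 * r + 1) ^ d * (isoC d * W.card ^ (q - 1))))
    (B := 16 * (2 * r + 1) ^ d * isoC d * √r * Y ^ (q - 1 / 2))
    (C := 16 * (2 * r + 1) ^ d * isoC d * √r * Y ^ (q - 1 / 2 - 1)) (by positivity)
    (by positivity) (by positivity) hK hp hp1 (cW ▸ hW) hφ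
    (fun s s' => by
      have h : (∑ i ∈ W, df bond i s s') ^ (q - 1) ≤ W.card ^ (q - 1) :=
        Real.rpow_le_rpow (X0 s s') ((sum_le_card_nsmul _ _ 1 fun i _ => by
          rcases good.df_cases i s s' with h | h <;> simp [h]).trans_eq (by simp)) (by linarith)
      rw [sum_sigma]
      refine (sum_le_sum fun t _ => sep t s s').trans ?_
      rw [sum_const, card_univ, Fintype.card_fin, nsmul_eq_mul, pw]
      have := X0 s s'
      calc _ ≤ r * (4 * (2 * r + 1) ^ d * (isoC d * ((∑ i ∈ W, df bond i s s') *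
            W.card ^ (q - 1)))) := by gcongr
        _ = _ := by ring)
    (fun s s' => by
      have e (z) : |g z s - g z s'| = 1 - g z s * g z s' := by
        rcases gc z s with h | h <;> rcases gc z s' with h' | h' <;> norm_num [h, h']
      have x0 := X0 s s'
      rw [sum_sigma]
      simp only [e, ← sum_mul]
      refine (sum_le_sum fun t _ => mul_le_mul_of_nonneg_right (sep t s s')
        (Real.sqrt_nonneg _)).trans ?_
      rw [← mul_sum]
      refine (mul_le_mul_of_nonneg_left (cuts s s') (by positivity)).trans ?_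
      have y := young x0 hY (γ := q - 1 / 2) (by linarith) (by linarith)
      have e2 : (∑ i ∈ W, df bond i s s') ^ (q - 1 / 2) =
          (∑ i ∈ W, df bond i s s') ^ (q - 1) * √(∑ i ∈ W, df bond i s s') := by
        rw [Real.sqrt_eq_rpow, ← Real.rpow_add' x0 (by linarith)]
        ring_nf
      rw [pw]
      rw [e2] at y
      generalize ∑ i ∈ W, df bond i s s' = X at *
      calc _ = 16 * (2 * r + 1) ^ d * isoC d * √r * X * (X ^ (q - 1) * √X) := by ring
        _ ≤ 16 * (2 * r + 1) ^ d * isoC d * √r * X *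
            (Y ^ (q - 1 / 2) + Y ^ (q - 1 / 2 - 1) * X) := by gcongr
        _ = _ := by ring)
  have hs : 0 < √(r : ℝ) := Real.sqrt_pos.2 (by linarith)
  have h3 : (2 * (r : ℝ) + 1) ^ d * (2 * r + 1) ^ d ≤ 9 ^ d * (r ^ d * r ^ d) := by
    rw [← mul_pow, ← mul_pow, ← mul_pow]
    exact pow_le_pow_left₀ (by positivity) (by nlinarith) d
  have h4 : 0 ≤ φ := hφ (0, ⟨0, by omega⟩) ▸ sub_nonneg.2 (c2_le_one _ hp hp1)
  refine le_of_mul_le_mul_left ?_ (show 0 < √(r : ℝ) * (r ^ d * r ^ d) by positivity)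
  rw [cW] at M
  generalize hT : (K * φ + 2 * Real.exp (-K ^ 2 / 2)) / p = T at *
  have T0 : 0 ≤ T := by rw [← hT]; positivity
  calc _ = (r : ℝ) * (r ^ d * r ^ d) := by rw [mul_right_comm, Real.mul_self_sqrt (by linarith)]
    _ ≤ _ := cI.trans M
    _ = (2 * r + 1) ^ d * (2 * r + 1) ^ d * (16 * d * isoC d * √r *
        (Y ^ (q - 1 / 2) + Y ^ (q - 1 / 2 - 1) * T)) := by ring
    _ ≤ 9 ^ d * (r ^ d * r ^ d) * (16 * d * isoC d * √r *
        (Y ^ (q - 1 / 2) + Y ^ (q - 1 / 2 - 1) * T)) := by gcongr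
    _ = _ := by ring

theorem power_gain (d : ℕ) (hd : 3 ≤ d) : ∃ c : ℝ, 0 < c ∧ c ≤ 1 / 2 ∧ ∀ p : ℝ, 0 < p → p ≤ c →
    ∀ (n l : ℕ) [NeZero n] [Fact (1 < n)], l ≤ n → 1 ≤ p * (l : ℝ) ^ d → ∀ e : Edge d n,
      c2 bond e p ≤ 1 - c * p ^ (1 - (d - 1) / (d * (d + 1)) : ℝ) / √(Real.log (1 / p)) := by
  have hD : (3 : ℝ) ≤ d := by exact_mod_cast hd
  have D0 : (0 : ℝ) < d := by linarith
  have D1 : (0 : ℝ) < d - 1 := by linarith
  have hI := isoC_pos (d := d) (by omega)
  obtain ⟨C, hC, C0⟩ : ∃ C : ℝ, C = 16 * d * 9 ^ d * isoC d ∧ 0 < C := ⟨_, rfl, by positivity⟩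
  obtain ⟨γ, hγ⟩ : ∃ γ : ℝ, γ = (d : ℝ) / (d - 1) - 1 / 2 := ⟨_, rfl⟩
  obtain ⟨b, hb⟩ : ∃ b : ℝ, b = (d - 1) / (d + 1) := ⟨_, rfl⟩
  have b0 : 0 < b := by rw [hb]; positivity
  have e0 : γ = (d + 1) / (2 * (d - 1)) := by rw [hγ]; field_simp; ring
  have γ0 : 0 < γ := by rw [e0]; positivity
  obtain ⟨a, ha, a0⟩ : ∃ a : ℝ, a = (2 * C)⁻¹ ^ γ⁻¹ ∧ 0 < a := ⟨_, rfl, by positivity⟩
  refine ⟨min (min (1 / 2) (a / 4)) (min (d * 6 ^ d)⁻¹ (a / 4 * ((4 : ℝ)⁻¹ ^ b * (d : ℝ)⁻¹ ^ (b / d)))),
    by positivity, (min_le_left _ _).trans (min_le_left _ _), fun p hp hc n l _ _ hl hn e => ?_⟩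
  have c4 : min (min (1 / 2) (a / 4)) (min (d * 6 ^ d)⁻¹
      (a / 4 * ((4 : ℝ)⁻¹ ^ b * (d : ℝ)⁻¹ ^ (b / d)))) ≤ _ :=
    (min_le_right _ _).trans (min_le_right _ _)
  simp only [le_min_iff] at hc
  obtain ⟨⟨p1, p2⟩, p3, -⟩ := hc
  have hp1 : p < 1 := by linarith
  obtain ⟨ρ, hρ, ρ0⟩ : ∃ ρ : ℝ, ρ = (d * p)⁻¹ ^ (d : ℝ)⁻¹ ∧ 0 < ρ := ⟨_, rfl, by positivity⟩
  have ρd : ρ ^ d = (d * p)⁻¹ := by rw [hρ, Real.rpow_inv_natCast_pow (by positivity) (by omega)]
  have ρ6 : 6 ≤ ρ := by
    refine le_of_pow_le_pow_left₀ (n := d) (by omega) ρ0.le ?_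
    rw [ρd, le_inv_comm₀ (by positivity) (by positivity)]
    rw [mul_inv, ← div_eq_inv_mul, le_div_iff₀ D0] at p3
    linarith
  have r1 : (⌊(ρ - 1) / 2⌋₊ : ℝ) ≤ (ρ - 1) / 2 := Nat.floor_le (by linarith)
  have r2 := Nat.lt_floor_add_one ((ρ - 1) / 2)
  generalize ⌊(ρ - 1) / 2⌋₊ = r at r1 r2
  have hR : (1 : ℝ) ≤ r := by linarith
  have w1 : (2 * (r : ℝ) + 1) ^ d ≤ (d * p)⁻¹ :=
    ρd ▸ pow_le_pow_left₀ (by positivity) (by linarith) d
  have w2 : p * ((2 * r + 1) ^ d * d) ≤ 1 := by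
    rw [inv_eq_one_div, le_div_iff₀ (by positivity)] at w1
    linarith
  have w3 : 2 * r + 1 ≤ n := by
    refine le_trans ?_ hl
    have h : (2 * (r : ℝ) + 1) ^ d ≤ l ^ d := by
      refine le_of_mul_le_mul_left (le_trans ?_ (w2.trans hn)) hp
      exact mul_le_mul_of_nonneg_left (le_mul_of_one_le_right (by positivity) (by linarith)) hp.le
    exact_mod_cast le_of_pow_le_pow_left₀ (by omega) (Nat.cast_nonneg _) h
  have l1 : 1 / 4 ≤ Real.log (1 / p) := by
    have := Real.log_le_log (by norm_num) (show 2 ≤ 1 / p by rw [le_div_iff₀ hp]; linarith)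
    linarith [Real.log_two_gt_d9]
  have s1 : 1 / 2 ≤ √(Real.log (1 / p)) := Real.le_sqrt_of_sq_le (by linarith)
  have e1 : Real.exp (-(2 * √(Real.log (1 / p))) ^ 2 / 2) = p ^ 2 := by
    rw [mul_pow, Real.sq_sqrt (by linarith), one_div, Real.log_inv, ← Real.exp_log (pow_pos hp 2),
      Real.log_pow]
    congr 1
    push_cast
    ring
  obtain ⟨Y, hY, Y0⟩ : ∃ Y : ℝ, Y = (√r / (2 * C)) ^ γ⁻¹ ∧ 0 < Y := ⟨_, rfl, by positivity⟩
  have M := scale hd (by exact_mod_cast hR) w3 hp hp1 (K := 2 * √(Real.log (1 / p))) (by linarith)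
    w2 (fun e' => congrArg (1 - ·) (c2_eq hp hp1 e' e)) Y0
  rw [← hC, ← hγ, e1, Real.rpow_sub_one Y0.ne'] at M
  have y1 : √r = 2 * C * Y ^ γ := by
    rw [hY, Real.rpow_inv_rpow (by positivity) γ0.ne']
    field_simp
  have y2 : 0 < Y ^ γ := by positivity
  have y3 : Y ≤ (2 * √(Real.log (1 / p)) * (1 - c2 bond e p) + 2 * p ^ 2) / p := by
    rw [y1, mul_assoc, mul_left_comm, mul_le_mul_iff_right₀ C0, two_mul, add_le_add_iff_left,
      div_mul_eq_mul_div, le_div_iff₀ Y0, mul_le_mul_iff_right₀ y2] at M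
    exact M
  have y4 : Y = a * (r : ℝ) ^ b := by
    rw [hY, ha, div_eq_inv_mul, Real.mul_rpow (by positivity) (by positivity), Real.sqrt_eq_rpow,
      ← Real.rpow_mul (by linarith), e0, hb]
    congr 2
    field_simp
  have y5 : 1 ≤ (r : ℝ) ^ b := Real.one_le_rpow hR b0.le
  have y6 : (4 : ℝ)⁻¹ ^ b * (d : ℝ)⁻¹ ^ (b / d) * p⁻¹ ^ (b / d) ≤ (r : ℝ) ^ b := by
    rw [mul_assoc, ← Real.mul_rpow (by positivity) (by positivity), ← mul_inv, div_eq_inv_mul,
      Real.rpow_mul (by positivity), ← hρ, ← Real.mul_rpow (by positivity) ρ0.le]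
    exact Real.rpow_le_rpow (by positivity) (by linarith) b0.le
  have y7 : p ^ (1 - (d - 1) / (d * (d + 1)) : ℝ) = p * p⁻¹ ^ (b / d) := by
    rw [Real.inv_rpow hp.le, ← Real.rpow_neg hp.le, ← Real.rpow_one_add' hp.le, hb]
    · congr 1
      field_simp
      ring
    · rw [hb, div_div, ← sub_eq_add_neg, sub_ne_zero]
      exact ((div_lt_one (by positivity)).2 (by nlinarith)).ne'
  rw [le_sub_comm, div_le_iff₀ (by linarith), y7]
  rw [y4, le_div_iff₀ hp] at y3
  have y8 := mul_le_mul_of_nonneg_right c4 (show 0 ≤ p * p⁻¹ ^ (b / d) by positivity)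
  have y9 := mul_le_mul_of_nonneg_left y6 (show 0 ≤ a / 4 * p by positivity)
  have y10 := mul_le_mul_of_nonneg_left y5 (show 0 ≤ a / 4 * p by positivity)
  nlinarith [mul_le_mul_of_nonneg_left p2 hp.le]

end Pool.Agent.Lib.MP_a964b6_mp
end
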