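import Pool.Agent.Lib.MP_a964b6_mp.Compare
import Pool.Agent.Lib.MP_a964b6_mp.Defs

/-! The torus: symmetry and the comparison of the two double limits. -/

namespace Pool.Agent.Lib.MP_a964b6_mp

open MeasureTheory ProbabilityTheory Set Filter Topology

variable {d n : ℕ}

lemma unit_cases (u : ℤˣ) : ((u : ℤ) : ℝ) = 1 ∨ ((u : ℤ) : ℝ) = -1 := by
  rcases Int.units_eq_one_or u with h | h <;> simp [h]

lemma good [Fact (1 < n)] : Good (bond (d := d) (n := n)) where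
  pm σ e := by
    rcases unit_cases (σ e.1) with h | h <;>
      rcases unit_cases (σ (e.1 + Pi.single e.2 1)) with h' | h' <;> simp [bond, h, h']
  pos e := ⟨1, by simp [bond]⟩
  neg e := by
    classical
    refine ⟨Function.update 1 e.1 (-1), ?_⟩
    have : e.1 + Pi.single e.2 1 ≠ e.1 := by
      intro h
      have := congrFun h e.2
      simp at this
    simp [bond, this]

variable [NeZero n]

lemma gs_spec (J : Edge d n → ℝ) (τ : Vtx d n → ℤˣ) : en bond τ J ≤ en bond (gs J) J := by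
  have h : ∃ σ, ∀ τ, ham J σ ≤ ham J τ := Finite.exists_min (ham J)
  exact neg_le_neg_iff.1 (Classical.epsilon_spec h τ)

lemma gs_ae [Fact (1 < n)] (e : Edge d n) :
    ∀ᵐ J ∂gm (Edge d n), bond (gs J) e = sg bond e J := by
  filter_upwards [ae_notie bond e] with J hJ
  exact good.ground_eq (gs_spec J) hJ

lemma int_gs [Fact (1 < n)] (e : Edge d n) {ρ σ : Edge d n → ℝ} (h : ∀ i, ρ i ^ 2 + σ i ^ 2 = 1)
    (hσ : ∀ i, 0 ≤ σ i) :
    ∫ z, bond (gs z.1) e * bond (gs (mix ρ σ z)) e ∂(disorder d n).prod (disorder d n) =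
      ∫ z, sg bond e z.1 * sg bond e (mix ρ σ z) ∂(gm (Edge d n)).prod (gm (Edge d n)) := by
  refine integral_congr_ae ?_
  filter_upwards [(measurePreserving_fst (μ := gm (Edge d n))
    (ν := gm (Edge d n))).quasiMeasurePreserving.ae (gs_ae e),
    (mixP h hσ).quasiMeasurePreserving.ae (gs_ae e)] with z h1 h2
  rw [h1, h2]

lemma corr1_eq [Fact (1 < n)] (e : Edge d n) {p : ℝ} (hp : 0 < p) (hp1 : p < 1) :
    corr1 e p = c1 bond e p :=
  int_gs e (fun _ => circ hp hp1) fun _ => Real.sqrt_nonneg _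

lemma corr2_eq [Fact (1 < n)] (e : Edge d n) (p : ℝ) : corr2 e p = c2 bond e p := by
  refine Finset.sum_congr rfl fun R _ => ?_
  rw [← int_gs e (fun i => by split_ifs <;> simp) (fun i => by split_ifs <;> simp)]
  congr 2
  funext z
  congr 3
  funext i
  simp only [mix]
  split_ifs <;> simp

lemma opt_aut (a : Vtx d n ≃ Vtx d n) (π : Edge d n ≃ Edge d n)
    (h : ∀ σ e, bond (σ ∘ a) e = bond σ (π e)) (J : Edge d n → ℝ) :
    opt bond (J ∘ π) = opt bond J := by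
  rw [opt, opt, ← (Equiv.arrowCongr a.symm (Equiv.refl ℤˣ)).iSup_comp]
  congr 1
  funext σ
  change en bond (σ ∘ a) (J ∘ π) = _
  simp only [en, h]
  exact Equiv.sum_comp π fun e => J e * bond σ e

lemma transitive (e e' : Edge d n) :
    ∃ π : Edge d n ≃ Edge d n, π e = e' ∧ ∀ J, opt bond (J ∘ π) = opt bond J := by
  let κ := Equiv.swap e.2 e'.2
  let a : Vtx d n ≃ Vtx d n := (Equiv.subRight e.1).trans
    ((Equiv.arrowCongr κ (Equiv.refl (ZMod n))).trans (Equiv.addRight e'.1))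
  have ha : ∀ y, a y = (y - e.1) ∘ κ + e'.1 := fun y => rfl
  refine ⟨a.prodCongr κ, ?_, opt_aut a _ fun σ f => ?_⟩
  · ext i
    · simp [ha]
    · simp [κ]
  · have : a (f.1 + Pi.single f.2 1) = a f.1 + Pi.single (κ f.2) 1 := by
      funext i
      simp only [ha, Pi.add_apply, Function.comp, Pi.sub_apply, Pi.single_apply]
      have : κ i = f.2 ↔ i = κ f.2 := by
        constructor
        · intro h; rw [← h]; simp [κ]
        · intro h; rw [h]; simp [κ]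
      simp only [this]
      ring
    simp [bond, this]

lemma bounds (L : ℕ) (e : Edge d (2 * (L + 1))) {p ε : ℝ} (hp : p ∈ Ioo (0 : ℝ) 1)
    (hε : ε ∈ Ioo (0 : ℝ) 1) :
    0 ≤ corr1 e p ∧ corr1 e p ≤ corr2 e p ∧ corr2 e p ≤ 1 ∧
      corr2 e p ≤ corr1 e ε + 8 * √ε / p := by
  have : Fact (1 < 2 * (L + 1)) := ⟨by omega⟩
  rw [corr1_eq e hp.1 hp.2, corr1_eq e hε.1 hε.2, corr2_eq]
  exact ⟨c1_nonneg e hp.1 hp.2, c1_le_c2 e hp.1 hp.2, c2_le_one e hp.1 hp.2,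
    good.c2_le transitive e hp.1 hp.2 hε.1 hε.2⟩

lemma common_limit {u v : ℕ → ℝ → ℝ}
    (h : ∀ L, ∀ p ∈ Ioo (0 : ℝ) 1, ∀ ε ∈ Ioo (0 : ℝ) 1,
      0 ≤ u L p ∧ u L p ≤ v L p ∧ v L p ≤ 1 ∧ v L p ≤ u L ε + 8 * √ε / p) :
    ∃ Λ, Tendsto (fun p => limsup (fun L => |u L p|) atTop) (𝓝[>] 0) (𝓝 Λ) ∧
      Tendsto (fun p => limsup (fun L => |v L p|) atTop) (𝓝[>] 0) (𝓝 Λ) := by
  let U : ℝ → ℝ := fun p => limsup (fun L => |u L p|) atTop
  let W : ℝ → ℝ := fun p => limsup (fun L => |v L p|) atTop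
  have hu : ∀ L, ∀ p ∈ Ioo (0 : ℝ) 1, |u L p| = u L p := fun L p hp =>
    abs_of_nonneg (h L p hp p hp).1
  have hv : ∀ L, ∀ p ∈ Ioo (0 : ℝ) 1, |v L p| = v L p := fun L p hp =>
    abs_of_nonneg ((h L p hp p hp).1.trans (h L p hp p hp).2.1)
  have bu : ∀ p ∈ Ioo (0 : ℝ) 1, IsBoundedUnder (· ≤ ·) atTop fun L => |u L p| := fun p hp =>
    isBoundedUnder_of ⟨1, fun L => by
      rw [hu L p hp]; exact (h L p hp p hp).2.1.trans (h L p hp p hp).2.2.1⟩
  have bv : ∀ p ∈ Ioo (0 : ℝ) 1, IsBoundedUnder (· ≤ ·) atTop fun L => |v L p| := fun p hp =>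
    isBoundedUnder_of ⟨1, fun L => by rw [hv L p hp]; exact (h L p hp p hp).2.2.1⟩
  have cb : ∀ w : ℕ → ℝ, IsCoboundedUnder (· ≤ ·) atTop fun L => |w L| := fun w =>
    isCoboundedUnder_le_of_le atTop fun L => abs_nonneg (w L)
  have h1 : ∀ p ∈ Ioo (0 : ℝ) 1, U p ≤ W p := fun p hp =>
    limsup_le_limsup (Eventually.of_forall fun L => by
      simp only [hu L p hp, hv L p hp]; exact (h L p hp p hp).2.1) (cb _) (bv p hp)
  have h2 : ∀ p ∈ Ioo (0 : ℝ) 1, W p ≤ 1 := fun p hp =>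
    limsup_le_of_le (cb _) (Eventually.of_forall fun L => by
      rw [hv L p hp]; exact (h L p hp p hp).2.2.1)
  have h3 : ∀ p ∈ Ioo (0 : ℝ) 1, ∀ ε ∈ Ioo (0 : ℝ) 1, W p ≤ U ε + 8 * √ε / p := by
    intro p hp ε hε
    refine le_of_forall_pos_le_add fun η hη => limsup_le_of_le (cb _) ?_
    filter_upwards [eventually_lt_of_limsup_lt (lt_add_of_pos_right (U ε) hη) (bu ε hε)]
      with L hL
    rw [hu L ε hε] at hL
    rw [hv L p hp]
    linarith [(h L p hp ε hε).2.2.2]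
  have hne : (W '' Ioo 0 1).Nonempty := ⟨_, 1 / 2, by norm_num, rfl⟩
  have hbd : BddAbove (W '' Ioo 0 1) := ⟨1, by rintro _ ⟨p, hp, rfl⟩; exact h2 p hp⟩
  have hI : ∀ᶠ p in 𝓝[>] (0 : ℝ), p ∈ Ioo (0 : ℝ) 1 := Ioo_mem_nhdsGT one_pos
  have up : ∀ p ∈ Ioo (0 : ℝ) 1, W p ≤ sSup (W '' Ioo 0 1) := fun p hp =>
    le_csSup hbd ⟨p, hp, rfl⟩
  have low : ∀ a < sSup (W '' Ioo 0 1), ∀ᶠ ε in 𝓝[>] (0 : ℝ), a < U ε := by
    intro a ha
    obtain ⟨_, ⟨p, hp, rfl⟩, hap⟩ := exists_lt_of_lt_csSup hne ha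
    have ht : Tendsto (fun ε : ℝ => 8 * √ε / p) (𝓝[>] 0) (𝓝 0) := by
      have : Continuous fun ε : ℝ => 8 * √ε / p := by fun_prop
      have h4 := (this.tendsto 0).mono_left (nhdsWithin_le_nhds (s := Ioi 0))
      simpa using h4
    filter_upwards [hI, ht.eventually (gt_mem_nhds (sub_pos.2 hap))] with ε hε h4
    linarith [h3 p hp ε hε]
  refine ⟨sSup (W '' Ioo 0 1), tendsto_order.2 ⟨low, fun a ha => ?_⟩,
    tendsto_order.2 ⟨fun a ha => ?_, fun a ha => ?_⟩⟩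
  · filter_upwards [hI] with p hp
    exact ((h1 p hp).trans (up p hp)).trans_lt ha
  · filter_upwards [hI, low a ha] with p hp h4
    exact h4.trans_le (h1 p hp)
  · filter_upwards [hI] with p hp
    exact (up p hp).trans_lt ha

end Pool.Agent.Lib.MP_a964b6_mp
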